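import Pool.Agent.Helper22.Opp.LP

/-!
# Averaging over a subgroup
-/

set_option autoImplicit false

open MeasureTheory Real Finset Filter Topology

namespace Pool.Agent.Helper22.Opu

open Pool.Agent.Helper22.Opp

noncomputable section

variable {k n : ℕ}

lemma integrable_wt_tsum' {ι : Type*} [Countable ι] {A : ι → (Fin k → ℝ) → Fin (n + 1) → ℝ}
    (hA : ∀ p, Continuous (A p)) {F : (Fin (n + 1) → ℝ) → ℝ}
    (hF : Continuous F) {C1 C2 : ℝ} (hC1 : 0 ≤ C1)
    (h1 : ∀ y, |F y| ≤ C1 * gq y)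
    (h3 : ∀ (τ : Fin k → ℝ) (s : Finset ι), ∑ p ∈ s, gq (A p τ) ≤ C2) {ε : ℝ} (hε : 0 < ε) :
    Integrable (fun τ : Fin k → ℝ => wt ε τ * ∑' p, F (A p τ)) := by
  have hg : ∀ τ : Fin k → ℝ, Summable (fun p => gq (A p τ)) := fun τ =>
    summable_of_sum_le (fun p => (gq_pos _).le) (h3 τ)
  have hsum : ∀ τ : Fin k → ℝ, Summable (fun p => F (A p τ)) := fun τ =>
    ((hg τ).mul_left C1).of_norm_bounded fun p => by rw [Real.norm_eq_abs]; exact h1 _
  have hmeas : Measurable (fun τ : Fin k → ℝ => ∑' p, F (A p τ)) := by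
    refine measurable_of_tendsto_metrizable' (atTop : Filter (Finset ι))
      (f := fun s (τ : Fin k → ℝ) => ∑ p ∈ s, F (A p τ)) (fun s => ?_) ?_
    · exact Finset.measurable_fun_sum s fun p _ => (hF.comp (hA _)).measurable
    · rw [tendsto_pi_nhds]
      intro τ
      exact (hsum τ).hasSum
  refine ((integrable_wt hε).const_mul (C1 * C2)).mono' ((continuous_wt ε).measurable.mul hmeas).aestronglyMeasurable ?_
  refine Filter.Eventually.of_forall fun τ => ?_
  rw [Real.norm_eq_abs, abs_mul, abs_of_pos (wt_pos _ _), mul_comm]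
  refine mul_le_mul_of_nonneg_right ?_ (wt_pos _ _).le
  have h5 : |∑' p, F (A p τ)| ≤ ∑' p, |F (A p τ)| := by
    have := norm_tsum_le_tsum_norm (f := fun p => F (A p τ)) (hsum τ).norm
    simpa [Real.norm_eq_abs] using this
  refine h5.trans ?_
  calc ∑' p, |F (A p τ)| ≤ ∑' p, C1 * gq (A p τ) :=
        (hsum τ).abs.tsum_le_tsum (fun p => h1 _) ((hg τ).mul_left C1)
    _ = C1 * ∑' p, gq (A p τ) := tsum_mul_left
    _ ≤ C1 * C2 := mul_le_mul_of_nonneg_left ((hg τ).tsum_le_of_sum_le (h3 τ)) hC1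

/-- **Averaging lemma** -/
theorem avg_le' {ι : Type*} [Countable ι] {A : ι → (Fin k → ℝ) → Fin (n + 1) → ℝ} (hA : ∀ p, Continuous (A p))
    {ct : ι → Fin k → ℝ} {F : (Fin (n + 1) → ℝ) → ℝ}
    (hF : Continuous F) {C1 C2 : ℝ} (hC1 : 0 ≤ C1)
    (h1 : ∀ y, |F y| ≤ C1 * gq y)
    (h2 : ∀ p τ, |F (A p τ)| * Real.exp (2 * ∑ i, |τ i - ct p i|) ≤ C1 * gq (A p τ))
    (h3 : ∀ (τ : Fin k → ℝ) (s : Finset ι), ∑ p ∈ s, gq (A p τ) ≤ C2)
    (h4 : ∀ p, Integrable (fun τ : Fin k → ℝ => gq (A p τ)))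
    (h5 : ∀ p, ∫ τ : Fin k → ℝ, F (A p τ) ≤ 0)
    {ε : ℝ} (hε : 0 < ε) (hε1 : ε ≤ 1) :
    ∫ τ : Fin k → ℝ, wt ε τ * ∑' p, F (A p τ) ≤ ε * (C1 * (C2 * ∫ τ : Fin k → ℝ, wt ε τ)) := by
  -- basic integrability
  have iF : ∀ p, Integrable (fun τ : Fin k → ℝ => F (A p τ)) := fun p =>
    ((h4 p).const_mul C1).mono' (hF.comp (hA _)).aestronglyMeasurable
      (Filter.Eventually.of_forall fun τ => by rw [Real.norm_eq_abs]; exact h1 _)
  have iwg : ∀ p, Integrable (fun τ : Fin k → ℝ => wt ε τ * gq (A p τ)) := fun p =>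
    (integrable_wt hε).mono' ((continuous_wt ε).mul (continuous_gq.comp (hA _))).aestronglyMeasurable
      (Filter.Eventually.of_forall fun τ => by
        rw [Real.norm_of_nonneg (mul_pos (wt_pos _ _) (gq_pos _)).le]
        exact mul_le_of_le_one_right (wt_pos _ _).le (gq_le_one _))
  have iwF : ∀ p, Integrable (fun τ : Fin k → ℝ => wt ε τ * F (A p τ)) := fun p =>
    ((iwg p).const_mul C1).mono' ((continuous_wt ε).mul (hF.comp (hA _))).aestronglyMeasurable
      (Filter.Eventually.of_forall fun τ => by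
        rw [Real.norm_eq_abs, abs_mul, abs_of_pos (wt_pos _ _)]
        calc wt ε τ * |F (A p τ)| ≤ wt ε τ * (C1 * gq (A p τ)) :=
              mul_le_mul_of_nonneg_left (h1 _) (wt_pos _ _).le
          _ = _ := by ring)
  -- sums of the Gaussian integrals
  have hsum : ∀ s : Finset ι, ∑ p ∈ s, ∫ τ : Fin k → ℝ, wt ε τ * gq (A p τ) ≤
      C2 * ∫ τ : Fin k → ℝ, wt ε τ := by
    intro s
    rw [← integral_finsetSum s (fun p _ => iwg p), ← integral_const_mul]
    refine integral_mono (integrable_finsetSum s fun p _ => iwg p) ((integrable_wt hε).const_mul _) ?_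
    intro τ
    simp only
    rw [← mul_sum, mul_comm]
    exact mul_le_mul_of_nonneg_right (h3 τ s) (wt_pos _ _).le
  have hnn : ∀ p, 0 ≤ ∫ τ : Fin k → ℝ, wt ε τ * gq (A p τ) := fun p =>
    integral_nonneg fun τ => (mul_pos (wt_pos _ _) (gq_pos _)).le
  have hS := summable_of_sum_le hnn hsum
  have hT := hS.tsum_le_of_sum_le hsum
  -- exchange
  have hex : ∫ τ : Fin k → ℝ, wt ε τ * ∑' p, F (A p τ) =
      ∑' p, ∫ τ : Fin k → ℝ, wt ε τ * F (A p τ) := by
    rw [integral_tsum_of_summable_integral_norm iwF]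
    · congr 1; funext τ; rw [tsum_mul_left]
    · refine (hS.mul_left C1).of_nonneg_of_le (fun p => integral_nonneg fun _ => norm_nonneg _) fun p => ?_
      rw [← integral_const_mul]
      refine integral_mono (iwF p).norm ((iwg p).const_mul _) ?_
      intro τ
      simp only
      rw [Real.norm_eq_abs, abs_mul, abs_of_pos (wt_pos _ _)]
      calc wt ε τ * |F (A p τ)| ≤ wt ε τ * (C1 * gq (A p τ)) :=
            mul_le_mul_of_nonneg_left (h1 _) (wt_pos _ _).le
        _ = _ := by ring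
  -- each term
  have hterm : ∀ p, ∫ τ : Fin k → ℝ, wt ε τ * F (A p τ) ≤
      ε * C1 * ∫ τ : Fin k → ℝ, wt ε τ * gq (A p τ) := by
    intro p
    set c := ct p with hc
    have e1 : ∀ τ : Fin k → ℝ, wt ε τ * F (A p τ) ≤
        wt ε c * F (A p τ) + ε * C1 * (wt ε τ * gq (A p τ)) := by
      intro τ
      have d1 := wt_diff hε hε1 τ c
      have d2 : (wt ε τ - wt ε c) * F (A p τ) ≤
          |wt ε τ - wt ε c| * |F (A p τ)| := by
        rw [← abs_mul]; exact le_abs_self _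
      have d3 : |wt ε τ - wt ε c| * |F (A p τ)| ≤
          ε * C1 * (wt ε τ * gq (A p τ)) := by
        calc |wt ε τ - wt ε c| * |F (A p τ)|
            ≤ (ε * (wt ε τ * Real.exp (2 * ∑ i, |τ i - ct p i|))) * |F (A p τ)| :=
              mul_le_mul_of_nonneg_right d1 (abs_nonneg _)
          _ = ε * wt ε τ * (|F (A p τ)| * Real.exp (2 * ∑ i, |τ i - ct p i|)) := by ring
          _ ≤ ε * wt ε τ * (C1 * gq (A p τ)) :=
              mul_le_mul_of_nonneg_left (h2 p τ) (mul_pos hε (wt_pos _ _)).le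
          _ = _ := by ring
      linarith
    have e2 := integral_mono (iwF p) (((iF p).const_mul (wt ε c)).add ((iwg p).const_mul (ε * C1))) e1
    rw [integral_add' ((iF p).const_mul (wt ε c)) ((iwg p).const_mul (ε * C1)), integral_const_mul,
      integral_const_mul] at e2
    have e3 := mul_nonpos_of_nonneg_of_nonpos (wt_pos ε c).le (h5 p)
    linarith
  rw [hex]
  have hSF : Summable fun p => ∫ τ : Fin k → ℝ, wt ε τ * F (A p τ) := by
    refine (hS.mul_left C1).of_norm_bounded fun p => ?_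
    rw [← integral_const_mul]
    refine (norm_integral_le_integral_norm _).trans ?_
    refine integral_mono (iwF p).norm ((iwg p).const_mul _) ?_
    intro τ
    simp only
    rw [Real.norm_eq_abs, abs_mul, abs_of_pos (wt_pos _ _)]
    calc wt ε τ * |F (A p τ)| ≤ wt ε τ * (C1 * gq (A p τ)) :=
          mul_le_mul_of_nonneg_left (h1 _) (wt_pos _ _).le
      _ = _ := by ring
  calc ∑' p, ∫ τ : Fin k → ℝ, wt ε τ * F (A p τ)
      ≤ ∑' p, ε * C1 * ∫ τ : Fin k → ℝ, wt ε τ * gq (A p τ) :=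
        hSF.tsum_le_tsum hterm (hS.mul_left _)
    _ = ε * C1 * ∑' p, ∫ τ : Fin k → ℝ, wt ε τ * gq (A p τ) := tsum_mul_left
    _ ≤ ε * C1 * (C2 * ∫ τ : Fin k → ℝ, wt ε τ) :=
        mul_le_mul_of_nonneg_left hT (mul_nonneg hε.le hC1)
    _ = _ := by ring

end

end Pool.Agent.Helper22.Opu
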