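import Pool.Agent.Helper22.Opu.Jint
import Pool.Agent.Helper22.Opp.Comb

/-!
# The system with two equal weights: functions, functionals, the two unbounded regions
-/

set_option autoImplicit false

open MeasureTheory Real Finset Filter Topology

namespace Pool.Agent.Helper22.Opu

open Pool.Agent.Helper22.Opp

/-- the factor of the diagonal term in the derivative -/
def kap (M i : ℕ) : ℕ := 2 * (i / M) + (i % M + 1) / M

/-- twice the derivative of a functional -/
def derG (M : ℕ) : ℕ → ℕ × ℕ → List (ℕ × ℕ) → List (ℕ × ℕ)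
  | _, prev, [] => [(2 * prev.1, 2 * prev.2)]
  | i, prev, c :: cs => (2 * prev.1 + kap M i * c.2, 2 * prev.2 + kap M i * c.1) :: derG M (i + 1) c cs

/-- twice the derivative of a functional -/
def der2 (M : ℕ) (F : List (ℕ × ℕ)) : List (ℕ × ℕ) := (derG M 0 (0, 0) F).map nrm

noncomputable section

/-- weight -/
def E (x : ℝ) : ℝ := Real.exp (-x) / 4

lemma E_pos (x : ℝ) : 0 < E x := by unfold E; positivity

lemma E_add (x s : ℝ) : E (x + s) = E x * Real.exp (-s) := by
  unfold E
  rw [show -(x + s) = -x + -s by ring, Real.exp_add]; ring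

lemma E_anti {x y : ℝ} (h : x ≤ y) : E y ≤ E x := by
  unfold E
  have := Real.exp_le_exp.2 (neg_le_neg h)
  linarith

lemma hasDerivAt_E (x : ℝ) : HasDerivAt E (-E x) x := by
  have h : HasDerivAt (fun x : ℝ => Real.exp (-x)) (Real.exp (-x) * (-1)) x := (hasDerivAt_neg x).exp
  have h2 := h.div_const 4
  refine h2.congr_deriv ?_
  unfold E; ring

/-- positive solution of the system -/
structure SolU (m : ℕ) (y : ℕ → ℝ → ℝ) : Prop where
  d : ∀ j < m, ∀ x, HasDerivAt (y j) (y (j + 1) x) x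
  dm : ∀ x, HasDerivAt (y m) (E x * y 0 x - y m x / 2) x
  pos : ∀ j ≤ m, ∀ x, 0 < y j x

/-- the functions -/
def K {k : ℕ} (j : ℕ) (x : ℝ) : ℝ :=
  if j ≤ k then I (fun i : Fin k => if (i : ℕ) < j then (1 : ℝ) else 0) 0 x
  else 1 / 2 * I (fun _ : Fin k => (1 : ℝ)) 1 x

lemma sol_K (k : ℕ) : SolU (k + 1) (K (k := k)) where
  d := by
    intro j hj x
    have hjk : j ≤ k := by omega
    have h0 : K (k := k) j = I (fun i : Fin k => if (i : ℕ) < j then (1 : ℝ) else 0) 0 := by
      funext y; simp [K, hjk]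
    rw [h0]
    have h := hasDerivAt_I (fun i : Fin k => if (i : ℕ) < j then (1 : ℝ) else 0) 0 x
    rcases Nat.lt_or_ge j k with h1 | h1
    · have h2 := I_add_single (fun i : Fin k => if (i : ℕ) < j then (1 : ℝ) else 0) ⟨j, h1⟩ 0 x
      simp only [lt_irrefl, if_false, zero_div, sub_zero, zero_mul, zero_add] at h2
      have h3 : K (k := k) (j + 1) x = I (fun i : Fin k => (if (i : ℕ) < j then (1 : ℝ) else 0) +
          (if i = ⟨j, h1⟩ then 1 else 0)) 0 x := by
        have h4 : j + 1 ≤ k := h1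
        simp only [K, h4, if_true]
        congr 1
        funext i
        by_cases h5 : (i : ℕ) < j
        · have h6 : i ≠ ⟨j, h1⟩ := fun h => by rw [h] at h5; exact lt_irrefl _ h5
          rw [if_pos (by omega), if_pos h5, if_neg h6, add_zero]
        · by_cases h6 : i = ⟨j, h1⟩
          · subst h6; simp
          · have h7 : (i : ℕ) ≠ j := fun h => h6 (Fin.ext h)
            rw [if_neg (by omega), if_neg h5, if_neg h6, add_zero]
      rw [h3, h2]
      refine h.congr_deriv ?_
      simp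
    · have h2 : j = k := le_antisymm hjk h1
      subst h2
      have h3 : K (k := j) (j + 1) x = 1 / 2 * I (fun _ : Fin j => (1 : ℝ)) 1 x := by simp [K]
      rw [h3]
      have h4 : (fun i : Fin j => if (i : ℕ) < j then (1 : ℝ) else 0) = fun _ => 1 := by
        funext i; simp [i.2]
      rw [h4] at h ⊢
      refine h.congr_deriv ?_
      simp
  dm := by
    intro x
    have h0 : K (k := k) (k + 1) = fun x => 1 / 2 * I (fun _ : Fin k => (1 : ℝ)) 1 x := by
      funext y; simp [K]
    have h1 : K (k := k) 0 x = I (fun _ : Fin k => (0 : ℝ)) 0 x := by simp [K]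
    rw [h0, h1]
    have h := (hasDerivAt_I (fun _ : Fin k => (1 : ℝ)) 1 x).const_mul (1 / 2)
    have h2 := I_ones (k := k) 0 x
    rw [zero_add] at h2
    refine h.congr_deriv ?_
    rw [show (1 : ℝ) + 1 = 2 by norm_num, h2]
    unfold E
    ring
  pos := by
    intro j _ x
    unfold K
    split_ifs
    · exact I_pos _ _ _
    · exact mul_pos (by norm_num) (I_pos _ _ _)

/-- the moments -/
def G (k : ℕ) (j : ℕ) (x : ℝ) : ℝ := I (fun _ : Fin k => (0 : ℝ)) j x

lemma G_pos (k j : ℕ) (x : ℝ) : 0 < G k j x := I_pos _ _ _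

lemma G_zero (k : ℕ) (x : ℝ) : G k 0 x = K (k := k) 0 x := by simp [G, K]

lemma hasDerivAt_G (k j : ℕ) (x : ℝ) :
    HasDerivAt (G k j) ((G k (j + 1) x - j * G k j x) / 2) x := by
  have h := hasDerivAt_I (fun _ : Fin k => (0 : ℝ)) j x
  refine h.congr_deriv ?_
  unfold G
  push_cast
  ring

/-- arithmetic-geometric mean -/
lemma amgm {k : ℕ} {R x : ℝ} (hR : 0 < R) (hx : R ^ (k + 2) ≤ E x) (s : Fin k → ℝ) :
    ((k : ℝ) + 2) * R ≤ ∑ i, Real.exp (s i) + Real.exp (-(x + ∑ i, s i) / 2) := by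
  have h1 : ∀ y : ℝ, R * (1 + y - Real.log R) ≤ Real.exp y := by
    intro y
    have h2 := Real.add_one_le_exp (y - Real.log R)
    have h3 : Real.exp y = R * Real.exp (y - Real.log R) := by
      rw [Real.exp_sub, Real.exp_log hR]; field_simp
    rw [h3]
    exact mul_le_mul_of_nonneg_left (by linarith) hR.le
  have hlog : ((k : ℝ) + 2) * Real.log R ≤ -x - Real.log 4 := by
    have := Real.log_le_log (by positivity) hx
    unfold E at this
    rw [Real.log_pow, Real.log_div (Real.exp_pos _).ne' (by norm_num), Real.log_exp] at this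
    push_cast at this
    linarith
  have h2 : ∑ i, R * (1 + s i - Real.log R) ≤ ∑ i, Real.exp (s i) := sum_le_sum fun i _ => h1 _
  have h3 := h1 (-(x + ∑ i, s i) / 2 - Real.log 2)
  have h3' : Real.exp (-(x + ∑ i, s i) / 2 - Real.log 2) = Real.exp (-(x + ∑ i, s i) / 2) / 2 := by
    rw [Real.exp_sub, Real.exp_log (by norm_num)]
  rw [h3'] at h3
  have h4 : ∑ i, R * (1 + s i - Real.log R) = R * (k + ∑ i, s i - k * Real.log R) := by
    rw [← mul_sum, sum_sub_distrib, sum_add_distrib]
    simp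
  rw [h4] at h2
  have hl4 : Real.log 4 = 2 * Real.log 2 := by
    rw [show (4 : ℝ) = 2 ^ 2 by norm_num, Real.log_pow]; push_cast; ring
  have h5 : R * (k + ∑ i, s i - k * Real.log R) + 2 * (R * (1 + (-(x + ∑ i, s i) / 2 - Real.log 2) - Real.log R)) =
      R * (k + 2 + (-x - 2 * Real.log 2 - (k + 2) * Real.log R)) := by ring
  have h6 : ((k : ℝ) + 2) * R ≤ R * (k + 2 + (-x - 2 * Real.log 2 - (k + 2) * Real.log R)) := by
    rw [mul_comm]
    exact mul_le_mul_of_nonneg_left (by linarith) hR.le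
  linarith

lemma I_amgm {k : ℕ} {R x : ℝ} (hR : 0 < R) (hx : R ^ (k + 2) ≤ E x) (q : Fin k → ℝ) (j : ℝ) :
    ((k : ℝ) + 2) * R * I q j x ≤ (∑ i, q i - k * j / 2) * I q j x + ((k : ℝ) + 2) / 2 * I q (j + 1) x := by
  classical
  have hint : ∀ l : Fin k, Integrable (fun s : Fin k → ℝ => Real.exp (ph q j x s) * Real.exp (s l)) := by
    intro l
    refine (integrable_ph (fun i => q i + (if i = l then 1 else 0)) j x).congr
      (Filter.Eventually.of_forall fun s => ?_)
    simp only
    rw [exp_add_single]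
  have hval : ∀ l : Fin k, ∫ s : Fin k → ℝ, Real.exp (ph q j x s) * Real.exp (s l) =
      (q l - j / 2) * I q j x + 1 / 2 * I q (j + 1) x := by
    intro l
    rw [← I_add_single]
    unfold I
    congr 1
    funext s
    rw [exp_add_single]
  have hint0 : Integrable (fun s : Fin k → ℝ => Real.exp (ph q j x s) * Real.exp (-(x + ∑ i, s i) / 2)) := by
    refine (integrable_ph q (j + 1) x).congr (Filter.Eventually.of_forall fun s => ?_)
    simp only
    rw [ph_succ]
  have hval0 : ∫ s : Fin k → ℝ, Real.exp (ph q j x s) * Real.exp (-(x + ∑ i, s i) / 2) = I q (j + 1) x := by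
    unfold I
    congr 1
    funext s
    rw [ph_succ]
  have hle : ∫ s : Fin k → ℝ, ((k : ℝ) + 2) * R * Real.exp (ph q j x s) ≤
      ∫ s : Fin k → ℝ, (∑ l, Real.exp (ph q j x s) * Real.exp (s l) +
        Real.exp (ph q j x s) * Real.exp (-(x + ∑ i, s i) / 2)) := by
    refine integral_mono ((integrable_ph _ _ x).const_mul _) ((integrable_finsetSum _ fun l _ => hint l).add hint0) ?_
    intro s
    simp only
    rw [← mul_sum, ← mul_add, mul_comm]
    exact mul_le_mul_of_nonneg_left (amgm hR hx s) (Real.exp_pos _).le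
  rw [integral_const_mul, integral_add (integrable_finsetSum _ fun l _ => hint l) hint0,
    integral_finsetSum _ (fun l _ => hint l), hval0] at hle
  simp only [hval] at hle
  rw [sum_add_distrib, ← sum_mul, sum_sub_distrib] at hle
  simp only [sum_const, card_univ, Fintype.card_fin, nsmul_eq_mul] at hle
  have h10 : ∫ s : Fin k → ℝ, Real.exp (ph q j x s) = I q j x := rfl
  rw [h10] at hle
  have e : (∑ i, q i - k * (j / 2)) * I q j x + k * (1 / 2 * I q (j + 1) x) + I q (j + 1) x =
      (∑ i, q i - k * j / 2) * I q j x + ((k : ℝ) + 2) / 2 * I q (j + 1) x := by ring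
  linarith

/-- `y_{m+1}` -/
def yn (m : ℕ) (y : ℕ → ℝ → ℝ) (j : ℕ) (x : ℝ) : ℝ := if j ≤ m then y j x else E x * y 0 x

lemma K_amgm {k : ℕ} {R x : ℝ} (hR : 0 < R) (hx : R ^ (k + 2) ≤ E x) {j : ℕ} (hj : j ≤ k + 1) :
    (((k + 1 : ℕ) : ℝ) + 1) * R * K (k := k) j x ≤
      (((k + 1 : ℕ) : ℝ) + 1) * yn (k + 1) (K (k := k)) (j + 1) x + j * K (k := k) j x := by
  push_cast
  rcases Nat.lt_or_ge k j with h | h
  · have hj' : j = k + 1 := by omega
    subst hj'
    have h1 : K (k := k) (k + 1) x = 1 / 2 * I (fun _ : Fin k => (1 : ℝ)) 1 x := by simp [K]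
    have h2 : yn (k + 1) (K (k := k)) (k + 1 + 1) x = E x * I (fun _ : Fin k => (0 : ℝ)) 0 x := by
      simp [yn, K]
    have h3 := I_ones (k := k) 0 x
    rw [zero_add] at h3
    have h4 := I_amgm hR hx (fun _ : Fin k => (1 : ℝ)) 1
    rw [show (1 : ℝ) + 1 = 2 by norm_num, h3] at h4
    simp only [sum_const, card_univ, Fintype.card_fin, nsmul_eq_mul, mul_one] at h4
    rw [h1, h2]
    unfold E
    have hI := I_pos (fun _ : Fin k => (1 : ℝ)) 1 x
    have hk : (0 : ℝ) ≤ k := Nat.cast_nonneg k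
    push_cast
    nlinarith
  · have h1 : K (k := k) j x = I (fun i : Fin k => if (i : ℕ) < j then (1 : ℝ) else 0) 0 x := by simp [K, h]
    have h2 : yn (k + 1) (K (k := k)) (j + 1) x = K (k := k) (j + 1) x := by
      unfold yn; rw [if_pos (by omega)]
    have h3 : K (k := k) (j + 1) x = 1 / 2 * I (fun i : Fin k => if (i : ℕ) < j then (1 : ℝ) else 0) 1 x := by
      have h5 := (sol_K k).d j (by omega) x
      have h6 := hasDerivAt_I (fun i : Fin k => if (i : ℕ) < j then (1 : ℝ) else 0) 0 x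
      have h7 : K (k := k) j = I (fun i : Fin k => if (i : ℕ) < j then (1 : ℝ) else 0) 0 := by
        funext y; simp [K, h]
      rw [h7] at h5
      have := h5.unique h6
      rw [this]; simp
    have h4 := I_amgm hR hx (fun i : Fin k => if (i : ℕ) < j then (1 : ℝ) else 0) 0
    have h8 : ∑ i : Fin k, (if (i : ℕ) < j then (1 : ℝ) else 0) = j := by
      rw [Fin.sum_univ_eq_sum_range (fun i => if i < j then (1 : ℝ) else 0) k, ← sum_filter]
      have : (range k).filter (fun i => i < j) = range j := by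
        ext i; simp only [mem_filter, mem_range]; omega
      rw [this]; simp
    rw [h8, zero_add] at h4
    rw [h2, h1, h3]
    have e : ((k : ℝ) + 1 + 1) = (k : ℝ) + 2 := by ring
    rw [e]
    simp only [mul_zero, zero_div, sub_zero] at h4
    linarith

/-- extended sequence: `z_{r(m+1)+j} = w^r v_j` -/
def zv (m : ℕ) (w : ℝ) (v : ℕ → ℝ) (i : ℕ) : ℝ := w ^ (i / (m + 1)) * v (i % (m + 1))

/-- extended sequence of the solution -/
def zz (m : ℕ) (y : ℕ → ℝ → ℝ) (x : ℝ) : ℕ → ℝ := zv m (E x) fun j => y j x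

variable {m : ℕ} {y : ℕ → ℝ → ℝ}

lemma mod_le (m i : ℕ) : i % (m + 1) ≤ m := by
  have := Nat.mod_lt i (show 0 < m + 1 by omega)
  omega

lemma zz_pos (hy : SolU m y) (x : ℝ) (i : ℕ) : 0 < zz m y x i :=
  mul_pos (pow_pos (E_pos _) _) (hy.pos _ (mod_le m i) _)

lemma zv_small (w : ℝ) (v : ℕ → ℝ) {i : ℕ} (hi : i < m + 1) : zv m w v i = v i := by
  unfold zv
  rw [Nat.div_eq_of_lt hi, Nat.mod_eq_of_lt hi, pow_zero, one_mul]

lemma zv_add (w : ℝ) (v : ℕ → ℝ) (r k : ℕ) : zv m w v (r * (m + 1) + k) = w ^ r * zv m w v k := by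
  unfold zv
  rw [Nat.add_comm (r * (m + 1)) k, Nat.add_mul_div_right _ _ (show 0 < m + 1 by omega),
    Nat.add_mul_mod_self_right, pow_add]
  ring

lemma div_succ_of_lt {i m : ℕ} (h : i % (m + 1) < m) : (i + 1) / (m + 1) = i / (m + 1) ∧
    (i + 1) % (m + 1) = i % (m + 1) + 1 := by
  have h4 := Nat.div_add_mod i (m + 1)
  set r := i / (m + 1) with hr
  set j := i % (m + 1) with hj
  have e : i + 1 = (j + 1) + r * (m + 1) := by rw [← h4]; ring
  constructor
  · rw [e, Nat.add_mul_div_right _ _ (show 0 < m + 1 by omega), Nat.div_eq_of_lt (by omega)]; simp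
  · rw [e, Nat.add_mul_mod_self_right, Nat.mod_eq_of_lt (by omega)]

lemma div_succ_of_eq {i m : ℕ} (h : i % (m + 1) = m) : (i + 1) / (m + 1) = i / (m + 1) + 1 ∧
    (i + 1) % (m + 1) = 0 := by
  have h4 := Nat.div_add_mod i (m + 1)
  set r := i / (m + 1) with hr
  have e : i + 1 = (r + 1) * (m + 1) := by rw [← h4, h]; ring
  constructor
  · rw [e, Nat.mul_div_cancel _ (show 0 < m + 1 by omega)]
  · rw [e]; exact Nat.mul_mod_left _ _

lemma kap_eq (m i : ℕ) : (kap (m + 1) i : ℝ) = 2 * ((i / (m + 1) : ℕ) : ℝ) + (if i % (m + 1) = m then 1 else 0) := by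
  unfold kap
  push_cast
  congr 1
  split_ifs with h
  · rw [h, Nat.div_self (by omega)]; simp
  · have := mod_le m i
    rw [Nat.div_eq_of_lt (by omega)]; simp

lemma hasDerivAt_zz (hy : SolU m y) (i : ℕ) (x : ℝ) :
    HasDerivAt (fun x => zz m y x i) (zz m y x (i + 1) - (kap (m + 1) i : ℝ) / 2 * zz m y x i) x := by
  rw [kap_eq]
  unfold zz zv
  set r := i / (m + 1) with hr
  set j := i % (m + 1) with hj
  have hjm : j ≤ m := mod_le m i
  have h1 : HasDerivAt (fun x : ℝ => E x ^ r) (-(r : ℝ) * E x ^ r) x := by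
    have h2 := (hasDerivAt_E x).fun_pow r
    refine h2.congr_deriv ?_
    rcases Nat.eq_zero_or_pos r with h0 | h0
    · simp [h0]
    · have : E x ^ r = E x ^ (r - 1) * E x := by
        rw [← pow_succ]; congr 1; omega
      rw [this]; ring
  rcases Nat.lt_or_ge j m with h3 | h3
  · have h2 := h1.mul (hy.d j h3 x)
    refine h2.congr_deriv ?_
    obtain ⟨e1, e2⟩ := div_succ_of_lt (i := i) (m := m) h3
    rw [e1, e2, if_neg (by omega), ← hr, ← hj]
    ring
  · have hjm' : j = m := le_antisymm hjm h3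
    have hd := hy.dm x
    rw [hjm']
    have h2 := h1.mul hd
    refine h2.congr_deriv ?_
    obtain ⟨e1, e2⟩ := div_succ_of_eq (i := i) (m := m) hjm'
    rw [e1, e2, if_pos rfl, ← hr]
    ring

lemma hasDerivAt_evA (hy : SolU m y) (x : ℝ) : ∀ (cs : List (ℕ × ℕ)) (i : ℕ) (prev : ℕ × ℕ),
    HasDerivAt (fun x => evA (zz m y x) i cs)
      ((evA (zz m y x) i (derG (m + 1) i prev cs)) / 2 - ((prev.1 : ℝ) - prev.2) * zz m y x i) x
  | [], i, prev => by
    simp only [evA, derG]
    refine (hasDerivAt_const x (0 : ℝ)).congr_deriv ?_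
    push_cast
    ring
  | c :: cs, i, prev => by
    simp only [evA, derG]
    have h1 := hasDerivAt_evA hy x cs (i + 1) c
    have h2 := (hasDerivAt_zz hy i x).const_mul ((c.1 : ℝ) - c.2)
    refine (h2.add h1).congr_deriv ?_
    push_cast
    ring

lemma hasDerivAt_ev (hy : SolU m y) (F : List (ℕ × ℕ)) (x : ℝ) :
    HasDerivAt (fun x => evA (zz m y x) 0 F) (evA (zz m y x) 0 (der2 (m + 1) F) / 2) x := by
  have := hasDerivAt_evA hy x F 0 (0, 0)
  refine this.congr_deriv ?_
  unfold der2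
  rw [evA_nrm]
  simp

lemma continuous_ev (hy : SolU m y) (F : List (ℕ × ℕ)) : Continuous fun x => evA (zz m y x) 0 F :=
  continuous_iff_continuousAt.2 fun x => (hasDerivAt_ev hy F x).continuousAt

/-! ### ratios -/

lemma zz_succ (x : ℝ) (i : ℕ) : zz m y x (i + 1) = E x ^ (i / (m + 1)) * yn m y (i % (m + 1) + 1) x := by
  unfold zz zv yn
  have hjm := mod_le m i
  rcases Nat.lt_or_ge (i % (m + 1)) m with h | h
  · obtain ⟨e1, e2⟩ := div_succ_of_lt h
    rw [e1, e2, if_pos (by omega)]
  · have h' : i % (m + 1) = m := le_antisymm hjm h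
    obtain ⟨e1, e2⟩ := div_succ_of_eq h'
    rw [e1, e2, if_neg (by omega), pow_succ]
    ring

lemma zz_ratio (x : ℝ) (i : ℕ) {α β : ℝ} (h : α * y (i % (m + 1)) x ≤ β * yn m y (i % (m + 1) + 1) x) :
    α * zz m y x i ≤ β * zz m y x (i + 1) := by
  rw [zz_succ]
  unfold zz zv
  have := mul_le_mul_of_nonneg_left h (pow_pos (E_pos x) (i / (m + 1))).le
  linarith

lemma zz_ratio' (x : ℝ) (i : ℕ) {α β : ℝ} (h : β * yn m y (i % (m + 1) + 1) x ≤ α * y (i % (m + 1)) x) :
    β * zz m y x (i + 1) ≤ α * zz m y x i := by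
  rw [zz_succ]
  unfold zz zv
  have := mul_le_mul_of_nonneg_left h (pow_pos (E_pos x) (i / (m + 1))).le
  linarith

/-- the property used for large weights -/
def Ham (m : ℕ) (y : ℕ → ℝ → ℝ) : Prop := ∀ {R x : ℝ}, 0 < R → R ^ (m + 1) ≤ E x → ∀ {j : ℕ}, j ≤ m →
  ((m : ℝ) + 1) * R * y j x ≤ (m + 1) * yn m y (j + 1) x + j * y j x

lemma ham_K (k : ℕ) : Ham (k + 1) (K (k := k)) := fun hR hx _ hj => K_amgm hR hx hj

lemma low_region (hy : SolU m y) {T Rn wl W : ℕ} (hT : 0 < T) (hW : 0 < W) (hRn : 0 < Rn) {rs : List ℕ} {x1 : ℝ}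
    (hwl : (wl : ℝ) ≤ W * E x1) (hok : lowOk T (m + 1) Rn W wl rs = true) (ham : Ham m y)
    {F : List (ℕ × ℕ)} (hc : lowChk T (m + 1) rs 0 0 F = true) {x : ℝ} (hx : x ≤ x1) :
    0 ≤ evA (zz m y x) 0 F := by
  have hE' : (0 : ℝ) < T := by exact_mod_cast hT
  have hW' : (0 : ℝ) < W := by exact_mod_cast hW
  have hRn' : (0 : ℝ) < Rn := by exact_mod_cast hRn
  unfold lowOk at hok
  rw [Bool.and_eq_true, List.all_eq_true] at hok
  obtain ⟨h1, h2⟩ := hok
  have h1' : Rn ^ (m + 1) * W ≤ wl * T ^ (m + 1) := Nat.le_of_ble_eq_true h1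
  set R : ℝ := (Rn : ℝ) / T with hR
  have hR0 : 0 < R := by positivity
  have hRx : R ^ (m + 1) ≤ E x := by
    refine le_trans ?_ (E_anti hx)
    have e2 : ((Rn ^ (m + 1) * W : ℕ) : ℝ) ≤ ((wl * T ^ (m + 1) : ℕ) : ℝ) := by exact_mod_cast h1'
    push_cast at e2
    have e3 : (wl : ℝ) * (T : ℝ) ^ (m + 1) ≤ W * E x1 * (T : ℝ) ^ (m + 1) :=
      mul_le_mul_of_nonneg_right hwl (by positivity)
    have e4 : (Rn : ℝ) ^ (m + 1) ≤ E x1 * (T : ℝ) ^ (m + 1) := by
      have : (Rn : ℝ) ^ (m + 1) * W ≤ (E x1 * (T : ℝ) ^ (m + 1)) * W := by linarith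
      exact le_of_mul_le_mul_right this hW'
    rw [hR, div_pow, div_le_iff₀ (by positivity)]
    exact e4
  have hj : ∀ j ≤ m, 0 < rs.getD ((j + 1) % (m + 1)) 1 ∧
      (rs.getD ((j + 1) % (m + 1)) 1 : ℝ) * y j x ≤ T * yn m y (j + 1) x := by
    intro j hj
    have h3 := h2 j (by rw [List.mem_range]; omega)
    rw [Bool.and_eq_true] at h3
    have h4 := Nat.le_of_ble_eq_true h3.1
    have h5 := Nat.le_of_ble_eq_true h3.2
    refine ⟨h5, ?_⟩
    set r := rs.getD ((j + 1) % (m + 1)) 1
    have h6 : ((r * (m + 1) + j * T : ℕ) : ℝ) ≤ ((Rn * (m + 1) : ℕ) : ℝ) := by exact_mod_cast h4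
    push_cast at h6
    have h7 := ham hR0 hRx hj
    have hyj : 0 < y j x := hy.pos _ hj _
    have h8 : (Rn : ℝ) = R * T := by rw [hR]; field_simp
    have h9 : ((r : ℝ) * (m + 1) + j * T) * y j x ≤ (R * T) * (m + 1) * y j x := by
      rw [← h8]; exact mul_le_mul_of_nonneg_right h6 hyj.le
    have h10 := mul_le_mul_of_nonneg_left h7 hE'.le
    have h11 : ((m : ℝ) + 1) * ((r : ℝ) * y j x) ≤ ((m : ℝ) + 1) * (T * yn m y (j + 1) x) := by nlinarith
    exact le_of_mul_le_mul_left h11 (by positivity)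
  set Z : ℕ → ℝ := fun i => match i with
    | 0 => 0
    | i + 1 => zz m y x i with hZ
  have hpos : ∀ i, 0 < rs.getD (i % (m + 1)) 1 := by
    intro i
    have e : i % (m + 1) = ((i + m) % (m + 1) + 1) % (m + 1) := by
      rw [Nat.mod_add_mod, show i + m + 1 = i + (m + 1) by ring, Nat.add_mod_right]
    rw [e]
    exact (hj _ (mod_le _ _)).1
  have := lowChk_sound (E := T) (M := m + 1) (rs := rs) (Z := Z)
    (fun i => by
      rcases i with _ | i
      · exact le_rfl
      · exact (zz_pos hy x i).le) hpos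
    (fun i => by
      rcases i with _ | i
      · simp only [hZ, mul_zero]
        exact mul_nonneg hE'.le (zz_pos hy x 0).le
      · simp only [hZ]
        refine zz_ratio x i ?_
        have := (hj (i % (m + 1)) (mod_le _ _)).2
        rw [Nat.mod_add_mod] at this
        exact this) F 0 0 hc
  simpa [hZ] using this

/-! ### small weight -/

/-- the ratio bounds are kept as the weight decreases -/
theorem tail_inv (hm : 1 ≤ m) (hy : SolU m y) {R : ℕ → ℝ} (hR : ∀ j, j + 1 < m → R (j + 1) ≤ R j)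
    (hRa : R m ≤ R (m - 1) + 1 / 2) (hRm : R 0 ≤ R m + 1 / 2) {x0 : ℝ}
    (h0 : y 1 x0 < R 0 * y 0 x0) (hj : ∀ j ≤ m, yn m y (j + 1) x0 ≤ R j * y j x0) :
    ∀ x, x0 ≤ x → ∀ j ≤ m, yn m y (j + 1) x ≤ R j * y j x := by
  -- the defects
  set e : ℕ → ℝ → ℝ := fun j x => R j * y j x - yn m y (j + 1) x with he
  have hyn : ∀ j < m, ∀ x, yn m y (j + 1) x = y (j + 1) x := fun j hj x => by
    unfold yn; rw [if_pos (by omega)]
  have hynm : ∀ x, yn m y (m + 1) x = E x * y 0 x := fun x => by
    unfold yn; rw [if_neg (by omega)]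
  have hd : ∀ j, j + 1 < m → ∀ x, HasDerivAt (e j) (R j * y (j + 1) x - y (j + 2) x) x := by
    intro j hj x
    have e1 : e j = fun x => R j * y j x - y (j + 1) x := by
      funext x; simp only [he]; rw [hyn j (by omega)]
    rw [e1]
    exact ((hy.d j (by omega) x).const_mul _).sub (hy.d (j + 1) (by omega) x)
  have hda : ∀ x, HasDerivAt (e (m - 1)) (R (m - 1) * y m x - (E x * y 0 x - y m x / 2)) x := by
    intro x
    have e0 : m - 1 + 1 = m := by omega
    have e1 : e (m - 1) = fun x => R (m - 1) * y (m - 1) x - y m x := by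
      funext x; simp only [he]; rw [hyn (m - 1) (by omega), e0]
    rw [e1]
    have h1 := hy.d (m - 1) (by omega) x
    rw [e0] at h1
    exact (h1.const_mul _).sub (hy.dm x)
  have hdm : ∀ x, HasDerivAt (e m) (R m * (E x * y 0 x - y m x / 2) - (-E x * y 0 x + E x * y 1 x)) x := by
    intro x
    have e1 : e m = fun x => R m * y m x - E x * y 0 x := by
      funext x; simp only [he]; rw [hynm]
    rw [e1]
    have h1 := (hasDerivAt_E x).mul (hy.d 0 (by omega) x)
    exact ((hy.dm x).const_mul _).sub h1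
  have hcont : ∀ j ≤ m, Continuous (e j) := by
    intro j hj
    rcases Nat.lt_trichotomy (j + 1) m with h | h | h
    · exact continuous_iff_continuousAt.2 fun x => (hd j h x).continuousAt
    · have : j = m - 1 := by omega
      rw [this]
      exact continuous_iff_continuousAt.2 fun x => (hda x).continuousAt
    · have : j = m := by omega
      rw [this]
      exact continuous_iff_continuousAt.2 fun x => (hdm x).continuousAt
  -- downward induction on an interval where `e 0 ≥ 0`
  have stepm : ∀ x1, x0 ≤ x1 → (∀ x, x0 ≤ x → x ≤ x1 → 0 ≤ e 0 x) → ∀ x, x0 ≤ x → x ≤ x1 → 0 ≤ e m x := by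
    intro x1 hx1 hpos x h1 h2
    -- multiply by `exp (x / 2)`
    set g : ℝ → ℝ := fun x => Real.exp (x / 2) * e m x with hg
    have hgd : ∀ x, HasDerivAt g (Real.exp (x / 2) * (1 / 2) * e m x + Real.exp (x / 2) *
        (R m * (E x * y 0 x - y m x / 2) - (-E x * y 0 x + E x * y 1 x))) x := by
      intro x
      have h3 : HasDerivAt (fun x : ℝ => Real.exp (x / 2)) (Real.exp (x / 2) * (1 / 2)) x := by
        have := ((hasDerivAt_id x).div_const 2).exp
        simpa using this
      exact h3.mul (hdm x)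
    have hmono : MonotoneOn g (Set.Icc x0 x1) := by
      refine monotoneOn_of_deriv_nonneg (convex_Icc _ _)
        (fun z _ => (hgd z).continuousAt.continuousWithinAt)
        (fun z _ => (hgd z).differentiableAt.differentiableWithinAt) ?_
      intro z hz
      rw [interior_Icc] at hz
      rw [(hgd z).deriv]
      have h3 := hpos z hz.1.le hz.2.le
      simp only [he] at h3 ⊢
      rw [hyn 0 (by omega), Nat.zero_add] at h3
      rw [hynm]
      have hEz := E_pos z
      have h5 : 0 < y 0 z := hy.pos _ (Nat.zero_le _) _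
      have hez := Real.exp_pos (z / 2)
      have h6 : 0 ≤ (R m + 1 / 2) * y 0 z - y 1 z := by nlinarith
      have h7 : 0 ≤ Real.exp (z / 2) * (E z * ((R m + 1 / 2) * y 0 z - y 1 z)) :=
        mul_nonneg hez.le (mul_nonneg hEz.le h6)
      calc 0 ≤ Real.exp (z / 2) * (E z * ((R m + 1 / 2) * y 0 z - y 1 z)) := h7
        _ = _ := by ring
    have h3 := hmono ⟨le_rfl, hx1⟩ ⟨h1, h2⟩ h1
    have h4 : 0 ≤ e m x0 := by
      simp only [he]
      have := hj m le_rfl
      linarith
    have h5 : 0 ≤ Real.exp (x / 2) * e m x := le_trans (mul_nonneg (Real.exp_pos _).le h4) h3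
    exact (mul_nonneg_iff_of_pos_left (Real.exp_pos _)).1 h5
  have step : ∀ x1, x0 ≤ x1 → (∀ x, x0 ≤ x → x ≤ x1 → 0 ≤ e 0 x) → ∀ i < m, ∀ x, x0 ≤ x → x ≤ x1 →
      e (m - 1 - i) x0 ≤ e (m - 1 - i) x := by
    intro x1 hx1 hpos i
    induction i with
    | zero =>
      intro _ x h1 h2
      rw [Nat.sub_zero]
      have hmono : MonotoneOn (e (m - 1)) (Set.Icc x0 x1) := by
        refine monotoneOn_of_deriv_nonneg (convex_Icc _ _) (hcont (m - 1) (by omega)).continuousOn
          (fun z _ => (hda z).differentiableAt.differentiableWithinAt) ?_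
        intro z hz
        rw [interior_Icc] at hz
        rw [(hda z).deriv]
        have h3 := stepm x1 hx1 hpos z hz.1.le hz.2.le
        simp only [he] at h3
        rw [hynm] at h3
        have h5 : 0 < y m z := hy.pos _ le_rfl _
        nlinarith
      exact hmono ⟨le_rfl, hx1⟩ ⟨h1, h2⟩ h1
    | succ i ih =>
      intro hi x h1 h2
      have hlt : m - 1 - (i + 1) + 1 < m := by omega
      have hs : m - 1 - (i + 1) + 1 = m - 1 - i := by omega
      have hmono : MonotoneOn (e (m - 1 - (i + 1))) (Set.Icc x0 x1) := by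
        refine monotoneOn_of_deriv_nonneg (convex_Icc _ _) (hcont _ (by omega)).continuousOn
          (fun z _ => (hd _ hlt z).differentiableAt.differentiableWithinAt) ?_
        intro z hz
        rw [interior_Icc] at hz
        rw [(hd _ hlt z).deriv]
        have h3 := ih (by omega) z hz.1.le hz.2.le
        have h4 := hj (m - 1 - i) (by omega)
        simp only [he] at h3
        have h5 := hR _ hlt
        rw [hs] at h5
        rw [show m - 1 - (i + 1) + 2 = m - 1 - i + 1 by omega, hs]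
        rw [hyn (m - 1 - i) (by omega) z] at h3
        have h6 : 0 < y (m - 1 - i) z := hy.pos _ (by omega) _
        nlinarith
      exact hmono ⟨le_rfl, hx1⟩ ⟨h1, h2⟩ h1
  -- `e 0` stays positive
  have he0 : 0 < e 0 x0 := by
    simp only [he, Nat.zero_add]
    have := hyn 0 (by omega) x0
    rw [Nat.zero_add] at this
    rw [this]; linarith
  have main : ∀ x, x0 ≤ x → 0 ≤ e 0 x := by
    by_contra hcon
    push Not at hcon
    obtain ⟨z, hz0, hz1⟩ := hcon
    set S := {t : ℝ | x0 ≤ t ∧ e 0 t < e 0 x0 / 2} with hS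
    have hzS : z ∈ S := ⟨hz0, by linarith⟩
    have hbdd : BddBelow S := ⟨x0, fun t ht => ht.1⟩
    set t := sInf S with ht
    have hxt : x0 ≤ t := le_csInf ⟨z, hzS⟩ fun s hs => hs.1
    have hbefore : ∀ x, x0 ≤ x → x < t → e 0 x0 / 2 ≤ e 0 x := by
      intro x h1 h2
      by_contra h3
      push Not at h3
      have : t ≤ x := csInf_le hbdd ⟨h1, h3⟩
      linarith
    have hc0 := hcont 0 (Nat.zero_le m)
    have hatt : e 0 x0 / 2 ≤ e 0 t := by
      rcases eq_or_lt_of_le hxt with h | h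
      · rw [← h]; linarith
      · have hcl : t ∈ closure (Set.Ico x0 t) := by
          rw [closure_Ico h.ne]
          exact ⟨h.le, le_rfl⟩
        have : t ∈ {s | e 0 x0 / 2 ≤ e 0 s} :=
          closure_minimal (fun s hs => hbefore s hs.1 hs.2) (isClosed_le continuous_const hc0) hcl
        exact this
    have hup : e 0 x0 ≤ e 0 t := by
      have := step t hxt (fun x h1 h2 => by
        rcases eq_or_lt_of_le h2 with h | h
        · rw [h]; linarith
        · linarith [hbefore x h1 h]) (m - 1) (by omega) t hxt le_rfl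
      rw [Nat.sub_self] at this
      exact this
    -- values just after `t` are large as well
    have hnear : ∀ᶠ s in nhds t, e 0 x0 / 2 < e 0 s := by
      have : Set.Ioi (e 0 x0 / 2) ∈ nhds (e 0 t) := Ioi_mem_nhds (by linarith)
      exact hc0.continuousAt this
    obtain ⟨ε, hε, hball⟩ := Metric.eventually_nhds_iff.1 hnear
    obtain ⟨s, hs, hst⟩ := exists_lt_of_csInf_lt ⟨z, hzS⟩ (show sInf S < t + ε by linarith)
    have hts : t ≤ s := csInf_le hbdd hs
    have := hball (y := s) (by rw [Real.dist_eq, abs_lt]; constructor <;> linarith)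
    linarith [hs.2]
  intro x hx j hjm
  rcases Nat.lt_or_ge j m with h | h
  · have := step x hx (fun z h1 _ => main z h1) (m - 1 - j) (by omega) x hx le_rfl
    rw [show m - 1 - (m - 1 - j) = j by omega] at this
    have h2 := hj j hjm
    simp only [he] at this
    linarith
  · have hjm' : j = m := le_antisymm hjm h
    subst hjm'
    have := stepm x hx (fun z h1 _ => main z h1) x hx le_rfl
    simp only [he] at this
    linarith

end

end Pool.Agent.Helper22.Opu
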