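import Pool.Agent.Helper22.Opu.Sound

/-!
# Soundness of the runs
-/

set_option autoImplicit false

open Finset

namespace Pool.Agent.Helper22.Opu

open Pool.Agent.Helper22.Opp

noncomputable section

variable {m : ℕ} {y : ℕ → ℝ → ℝ} {W : ℕ}

lemma run1_sound {q : ℕ} {p : Par} (hp : ParOK m q p) (hy : SolU m y) {κ : ℕ → ℝ} :
    ∀ (N : ℕ) (x : ℝ) (cs : List (List ℕ × List ℕ)) (wl wu : ℕ) (s : St)
    (_ : Inv m p.W y κ x cs wl wu) (_ : E x ≤ (p.R : ℝ) ^ (m + 1)) (_ : run1 p N cs wl wu = some s),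
    Inv m p.W y κ (x + N / p.H) s.cols s.wl s.wu
  | 0, x, cs, wl, wu, s, hI, _, h => by
    have h' : some (⟨cs, wl, wu⟩ : St) = some s := h
    obtain rfl := Option.some.inj h'
    simpa using hI
  | N + 1, x, cs, wl, wu, s, hI, hE, h => by
    have hH' : (0 : ℝ) < p.H := by exact_mod_cast hp.H
    have h' : (colsK p.den p.W p.R p.Rz p.rws wl wu cs fun cs' =>
      force (wLo p.H wl) fun wl' => force (wUp p.H wu) fun wu' => run1 p N cs' wl' wu') = some s := h
    obtain ⟨h1, h2⟩ := colsK_some cs _ h'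
    rw [force_eq, force_eq] at h2
    have hI' := hI.step hp hy hE h1
    have hE' : E (x + 1 / (p.H : ℝ)) ≤ (p.R : ℝ) ^ (m + 1) :=
      (E_anti (by have : 0 < 1 / (p.H : ℝ) := by positivity
                  linarith)).trans hE
    have := run1_sound hp hy N _ _ _ _ s hI' hE' h2
    have e : x + 1 / (p.H : ℝ) + N / p.H = x + ((N + 1 : ℕ) : ℝ) / p.H := by
      push_cast; field_simp; ring
    rw [e] at this
    exact this

lemma inv_init (hy : SolU m y) {D w0 : ℕ} (hD : 0 < D) {x : ℝ} (hx : E x = w0) :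
    Inv m W y (fun k => if k ≤ m then y k x / D else 0) x (idCols D (m + 1)) (W * w0) (W * w0) := by
  have hD' : (0 : ℝ) < D := by exact_mod_cast hD
  refine ⟨fun k => ?_, ?_, ?_, ?_, ?_, ?_⟩
  · split_ifs with h
    · exact (div_pos (hy.pos _ h _) hD').le
    · exact le_rfl
  · intro c hc
    simp only [idCols, List.mem_map, List.mem_range] at hc
    obtain ⟨k, _, rfl⟩ := hc
    simp
  · rw [hx]; push_cast; exact le_rfl
  · rw [hx]; push_cast; exact le_rfl
  · intro j hj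
    rw [idCols_length]
    have : ∀ k ∈ range (m + 1), (if k ≤ m then y k x / D else 0) * colLo (idCols D (m + 1)) k j =
        if j = k then y j x else 0 := by
      intro k hk
      rw [mem_range] at hk
      unfold colLo
      rw [idCols_getD _ _ _ hk, if_pos (by omega)]
      simp only
      rw [vec_id _ _ _ _ (by omega)]
      split_ifs with h
      · subst h; field_simp
      · simp
    rw [sum_congr rfl this, sum_ite_eq, if_pos (by rw [mem_range]; omega)]
  · intro j hj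
    rw [idCols_length]
    have : ∀ k ∈ range (m + 1), (if k ≤ m then y k x / D else 0) * colUp (idCols D (m + 1)) k j =
        if j = k then y j x else 0 := by
      intro k hk
      rw [mem_range] at hk
      unfold colUp
      rw [idCols_getD _ _ _ hk, if_pos (by omega)]
      simp only
      rw [vec_id _ _ _ _ (by omega)]
      split_ifs with h
      · subst h; field_simp
      · simp
    rw [sum_congr rfl this, sum_ite_eq, if_pos (by rw [mem_range]; omega)]

/-- merging the columns -/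
lemma merge_sound (hy : SolU m y) {κ : ℕ → ℝ} {x : ℝ} {cs : List (List ℕ × List ℕ)} {wl wu : ℕ}
    (hI : Inv m W y κ x cs wl wu) {D : ℕ} (hD : 0 < D)
    {a b : List ℕ} (la : a.length = m + 1) (lb : b.length = m + 1) (hc : mergeChk D cs a b = true) :
    Inv m W y (fun _ => y 0 x / D) x [(a, b)] wl wu := by
  have hD' : (0 : ℝ) < D := by exact_mod_cast hD
  have hmem : ∀ k < cs.length, cs.getD k ([], []) ∈ cs := fun k hk => getD_mem cs _ hk
  have hall : ∀ k < cs.length, ∀ j ≤ m, vec a j * colUp cs k 0 ≤ D * colLo cs k j ∧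
      D * colUp cs k j ≤ vec b j * colLo cs k 0 := by
    intro k hk j hj
    unfold mergeChk at hc
    rw [List.all_eq_true] at hc
    have h1 := hc _ (hmem k hk)
    rw [List.all_eq_true] at h1
    have h2 := h1 j (by rw [List.mem_range, la]; omega)
    rw [Bool.and_eq_true] at h2
    have h3 := Nat.le_of_ble_eq_true h2.1
    have h4 := Nat.le_of_ble_eq_true h2.2
    unfold colUp colLo vec
    exact ⟨by exact_mod_cast h3, by exact_mod_cast h4⟩
  have hy0 : 0 < y 0 x := hy.pos _ (Nat.zero_le _) _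
  refine ⟨fun _ => (div_pos hy0 hD').le, ?_, hI.wl, hI.wu, ?_, ?_⟩
  · intro c hc
    simp only [List.mem_singleton] at hc
    subst hc
    exact ⟨la, lb⟩
  · intro j hj
    have h1 : vec a j * y 0 x ≤ D * y j x := by
      calc vec a j * y 0 x ≤ vec a j * ∑ k ∈ range cs.length, κ k * colUp cs k 0 :=
            mul_le_mul_of_nonneg_left (hI.up 0 (by omega)) (vec_nonneg _ _)
        _ = ∑ k ∈ range cs.length, κ k * (vec a j * colUp cs k 0) := by
            rw [mul_sum]; exact sum_congr rfl fun k _ => by ring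
        _ ≤ ∑ k ∈ range cs.length, κ k * (D * colLo cs k j) :=
            sum_le_sum fun k hk => mul_le_mul_of_nonneg_left (hall k (mem_range.1 hk) j hj).1 (hI.pos k)
        _ = D * ∑ k ∈ range cs.length, κ k * colLo cs k j := by
            rw [mul_sum]; exact sum_congr rfl fun k _ => by ring
        _ ≤ D * y j x := mul_le_mul_of_nonneg_left (hI.lo j hj) hD'.le
    simp only [List.length_singleton, range_one, sum_singleton, colLo, List.getD_cons_zero]
    rw [div_mul_eq_mul_div, div_le_iff₀ hD']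
    linarith
  · intro j hj
    have h1 : D * y j x ≤ vec b j * y 0 x := by
      calc D * y j x ≤ D * ∑ k ∈ range cs.length, κ k * colUp cs k j :=
            mul_le_mul_of_nonneg_left (hI.up j hj) hD'.le
        _ = ∑ k ∈ range cs.length, κ k * (D * colUp cs k j) := by
            rw [mul_sum]; exact sum_congr rfl fun k _ => by ring
        _ ≤ ∑ k ∈ range cs.length, κ k * (vec b j * colLo cs k 0) :=
            sum_le_sum fun k hk => mul_le_mul_of_nonneg_left (hall k (mem_range.1 hk) j hj).2 (hI.pos k)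
        _ = vec b j * ∑ k ∈ range cs.length, κ k * colLo cs k 0 := by
            rw [mul_sum]; exact sum_congr rfl fun k _ => by ring
        _ ≤ vec b j * y 0 x := mul_le_mul_of_nonneg_left (hI.lo 0 (by omega)) (vec_nonneg _ _)
    simp only [List.length_singleton, range_one, sum_singleton, colUp, List.getD_cons_zero]
    rw [div_mul_eq_mul_div, le_div_iff₀ hD']
    linarith

/-- the invariant for one column -/
structure Inv1 (m W : ℕ) (y : ℕ → ℝ → ℝ) (Y : ℝ) (x : ℝ) (a b : List ℕ) (wl wu : ℕ) : Prop where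
  pos : 0 ≤ Y
  la : a.length = m + 1
  lb : b.length = m + 1
  wl : (wl : ℝ) ≤ W * E x
  wu : W * E x ≤ (wu : ℝ)
  lo : ∀ j ≤ m, Y * vec a j ≤ y j x
  up : ∀ j ≤ m, y j x ≤ Y * vec b j

lemma inv1_iff {Y x : ℝ} {a b : List ℕ} {wl wu : ℕ} :
    Inv m W y (fun _ => Y) x [(a, b)] wl wu ↔ Inv1 m W y Y x a b wl wu := by
  constructor
  · intro h
    refine ⟨h.pos 0, (h.len (a, b) (by simp)).1, (h.len (a, b) (by simp)).2, h.wl, h.wu, fun j hj => ?_, fun j hj => ?_⟩
    · simpa [colLo] using h.lo j hj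
    · simpa [colUp] using h.up j hj
  · intro h
    refine ⟨fun _ => h.pos, ?_, h.wl, h.wu, fun j hj => ?_, fun j hj => ?_⟩
    · intro c hc
      simp only [List.mem_singleton] at hc
      subst hc
      exact ⟨h.la, h.lb⟩
    · simpa [colLo] using h.lo j hj
    · simpa [colUp] using h.up j hj

lemma mul_vec_zLo (hW : 0 < W) {Y x : ℝ} {a b : List ℕ} {wl wu : ℕ}
    (hI : Inv1 m W y Y x a b wl wu) (Rz : ℕ) (t : List ℕ) :
    Y * (dot t (zLo W wl Rz a) : ℝ) ≤ lnA (zz m y x) 0 t := by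
  have h1 := dot_le_lnA (zv_nonneg (E_pos x).le fun l _ => vec_nonneg a l) t (zLo W wl Rz a) 0
    (zLo_le' (m := m) hW (E_pos x).le hI.wl Rz hI.la)
  refine (mul_le_mul_of_nonneg_left h1 hI.pos).trans ?_
  rw [← lnA_addl (vec a) (vec a)]
  exact lnA_mono (fun i => zv_mono' (E_pos x).le (fun l hl => hI.lo l hl) i) _ _

lemma le_mul_vec_zUp (hW : 0 < W) {Y x x' : ℝ} {b : List ℕ} {wu : ℕ} (hy : SolU m y) (hY : 0 ≤ Y)
    (hxx : x ≤ x') (hb : b.length = m + 1) (hwu : W * E x ≤ (wu : ℝ)) (hup : ∀ j ≤ m, y j x' ≤ Y * vec b j)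
    (Rz : ℕ) (t : List ℕ) (ht : t.length ≤ Rz * (m + 1)) :
    lnA (zz m y x') 0 t ≤ Y * (dot t (zUp W wu Rz b) : ℝ) := by
  have h1 := lnA_le_dot (zv m (E x) (vec b)) t (zUp W wu Rz b) 0 (by rw [zUp_length, hb]; exact ht)
    (zUp_ge' (m := m) hW (E_pos x).le hwu Rz hb fun l _ => le_rfl)
  refine le_trans ?_ (mul_le_mul_of_nonneg_left h1 hY)
  rw [← lnA_addl (vec b) (vec b)]
  exact lnA_mono (fun i => zv_mono (E_pos _).le (E_anti hxx) (fun l hl => (hy.pos _ hl _).le)
    (fun l hl => hup l hl) i) _ _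

lemma lnA_fs (Z : ℕ → ℝ) : ∀ (F : List (ℕ × ℕ)) (i : ℕ), evA Z i F = lnA Z i (fsL F) - lnA Z i (snL F)
  | [], i => by simp [evA, lnA, fsL, snL]
  | c :: cs, i => by
    have ih := lnA_fs Z cs (i + 1)
    unfold fsL snL at ih ⊢
    rw [List.map_cons, List.map_cons, evA, lnA, lnA, ih]; ring

/-- the test on a cell -/
lemma cell_sound (hW : 0 < W) (hy : SolU m y) {H : ℕ} (hH : 0 < H) {Y x : ℝ} {a b a' b' : List ℕ}
    {wl wu wl' wu' Rz s Cm : ℕ} (hs : 0 < s) (hI : Inv1 m W y Y x a b wl wu)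
    (hI' : Inv1 m W y Y (x + 1 / (H : ℝ)) a' b' wl' wu') {Fs : List (List (ℕ × ℕ))} {lo hi : ℕ} {g : PG}
    (hg : PGok s (m + 1) (2 * H) Cm (Rz * (m + 1)) Fs lo hi g)
    (hC : Cm * (sumR (zLo W wl Rz a) + (sumR (zUp W wu Rz b) + sumR (zUp W wu Rz (endV H b')))) + 1 ≤ 2 ^ (s - 1))
    (h : tst wu wl' (zLo W wl Rz a) (zUp W wu Rz b) (zUp W wu Rz (endV H b')) g = true)
    {F : List (ℕ × ℕ)} (hF : F ∈ Fs) {t : ℝ} (ht0 : 0 ≤ t) (ht1 : t ≤ 1 / (H : ℝ))
    (hlo : (lo : ℝ) ≤ W * E (x + t)) (hhi : W * E (x + t) ≤ hi) : 0 ≤ evA (zz m y (x + t)) 0 F := by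
  have hH' : (0 : ℝ) < H := by exact_mod_cast hH
  have hW' : (0 : ℝ) < W := by exact_mod_cast hW
  have hH1 : (1 : ℝ) ≤ H := by exact_mod_cast hH
  have hlo' : lo ≤ wu := by
    have h1 : W * E (x + t) ≤ W * E x := mul_le_mul_of_nonneg_left (E_anti (by linarith)) hW'.le
    have : (lo : ℝ) ≤ wu := hlo.trans (h1.trans hI.wu)
    exact_mod_cast this
  have hhi' : wl' ≤ hi := by
    have h1 : W * E (x + 1 / (H : ℝ)) ≤ W * E (x + t) := mul_le_mul_of_nonneg_left (E_anti (by linarith)) hW'.le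
    have : (wl' : ℝ) ≤ hi := hI'.wl.trans (h1.trans hhi)
    exact_mod_cast this
  have key := tst_sound hs hg hC hlo' hhi' h
  have hb := hg.1
  have hend : ∀ s, 0 ≤ s → s ≤ 1 / (H : ℝ) → ∀ j ≤ m, y j (x + s) ≤ Y * vec (endV H b') j := by
    intro s hs0 hs1 j hj
    have h1 := end_bound hy (x := x) (h := 1 / (H : ℝ)) (by rw [div_le_one hH']; exact hH1) hs0 hs1 hj
    refine h1.trans ?_
    have h2 : (1 + 1 / (H : ℝ)) * vec b' j ≤ vec (endV H b') j := by
      unfold endV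
      rw [vec_map _ _ (by rw [hI'.lb]; omega)]
      have := cast_div_ge' (b'.getD j 0) H hH
      unfold vec
      push_cast at this ⊢
      rw [add_mul, one_mul, one_div, inv_mul_eq_div]
      linarith
    calc (1 + 1 / (H : ℝ)) * y j (x + 1 / (H : ℝ)) ≤ (1 + 1 / (H : ℝ)) * (Y * vec b' j) :=
          mul_le_mul_of_nonneg_left (hI'.up j hj) (by positivity)
      _ = Y * ((1 + 1 / (H : ℝ)) * vec b' j) := by ring
      _ ≤ Y * vec (endV H b') j := mul_le_mul_of_nonneg_left h2 hI.pos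
  set C : ℝ := Y * (dot (absL (derI (m + 1) 4 F)) (zUp W wu Rz (endV H b')) : ℝ) with hCdef
  have hrem : ∀ s, 0 ≤ s → s ≤ 1 / (H : ℝ) → |evA (zz m y (x + s)) 0 (derI (m + 1) 4 F)| ≤ C := by
    intro s hs0 hs1
    refine (abs_evA_le (fun i => (zz_pos hy _ i).le) _ _).trans ?_
    refine le_mul_vec_zUp hW hy hI.pos (x := x) (by linarith) ?_ hI.wu (fun j hj => hend s hs0 hs1 j hj) Rz _ ?_
    · unfold endV; rw [List.length_map]; exact hI'.lb
    · exact (hb (fsL (b0 (2 * H) F), snL (b0 (2 * H) F), absL (derI (m + 1) 4 F))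
        (mem_triA hF _ (by simp [triF]))).2.2
  -- one triple
  have tr : ∀ G : List (ℕ × ℕ), (fsL (G.map nrm), snL (G.map nrm), absL (derI (m + 1) 4 F)) ∈ triF (m + 1) (2 * H) F →
      C ≤ evA (zz m y x) 0 G := by
    intro G hG
    have hm := mem_triA hF _ hG
    have h1 := key _ hm
    have h2 := (hb _ hm).2.1
    simp only at h1 h2
    rw [← evA_nrm, lnA_fs]
    have h3 := mul_vec_zLo hW hI Rz (fsL (G.map nrm))
    have h4 := le_mul_vec_zUp hW hy hI.pos (x := x) le_rfl hI.lb hI.wu hI.up Rz (snL (G.map nrm)) h2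
    have h5 : ((dot (snL (G.map nrm)) (zUp W wu Rz b) + dot (absL (derI (m + 1) 4 F)) (zUp W wu Rz (endV H b')) : ℕ) : ℝ) ≤
        (dot (fsL (G.map nrm)) (zLo W wl Rz a) : ℝ) := by exact_mod_cast h1
    push_cast at h5
    have h6 := mul_le_mul_of_nonneg_left h5 hI.pos
    rw [mul_add] at h6
    linarith
  have t0 := tr (scl (24 * (2 * H) ^ 4) F) (by simp [triF, b0])
  have t1 := tr (addL (scl (24 * (2 * H) ^ 4) F) (scl (8 * (2 * H) ^ 3) (derI (m + 1) 1 F))) (by simp [triF, b1])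
  have t2 := tr (addL (addL (scl (24 * (2 * H) ^ 4) F) (scl (16 * (2 * H) ^ 3) (derI (m + 1) 1 F)))
    (scl (4 * (2 * H) ^ 2) (derI (m + 1) 2 F))) (by simp [triF, b2])
  have t3 := tr (addL (addL (scl (24 * (2 * H) ^ 4) F) (scl (24 * (2 * H) ^ 3) (derI (m + 1) 1 F)))
    (addL (scl (12 * (2 * H) ^ 2) (derI (m + 1) 2 F)) (scl (4 * (2 * H)) (derI (m + 1) 3 F)))) (by simp [triF, b3])
  simp only [evA_addL, evA_scl] at t0 t1 t2 t3
  push_cast at t0 t1 t2 t3
  exact bern4 hy hH F x hrem t0 t1 t2 (by linarith) ht0 ht1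

/-- soundness of the second phase -/
theorem run2_sound {q : ℕ} {p : Par} (hp : ParOK m q p) (hy : SolU m y) {s Cm : ℕ} (hs : 0 < s) {gs : List Grp}
    {Gs : List PG} (hG : ∀ g ∈ gs, ∃ G ∈ Gs, PGok s (m + 1) (2 * p.H) Cm (p.Rz * (m + 1)) g.Fs g.lo g.hi G) {Y : ℝ} :
    ∀ (N : ℕ) (x : ℝ) (a b : List ℕ) (wl wu : ℕ) (a1 b1 : List ℕ) (wl1 wu1 : ℕ)
    (_ : Inv1 m p.W y Y x a b wl wu) (_ : E x ≤ (p.R : ℝ) ^ (m + 1))
    (_ : run2 p (2 ^ (s - 1)) Cm Gs N a b wl wu = some (a1, b1, wl1, wu1)),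
    Inv1 m p.W y Y (x + N / p.H) a1 b1 wl1 wu1 ∧
      ∀ g ∈ gs, ∀ F ∈ g.Fs, ∀ x', x ≤ x' → x' < x + N / p.H → (g.lo : ℝ) ≤ p.W * E x' → p.W * E x' ≤ g.hi →
        0 ≤ evA (zz m y x') 0 F
  | 0, x, a, b, wl, wu, a1, b1, wl1, wu1, hI, _, hr => by
    have : some (a, b, wl, wu) = some (a1, b1, wl1, wu1) := hr
    simp only [Option.some.injEq, Prod.mk.injEq] at this
    obtain ⟨rfl, rfl, rfl, rfl⟩ := this
    refine ⟨by simpa using hI, ?_⟩
    intro g _ F _ x' h1 h2
    simp only [Nat.cast_zero, zero_div, add_zero] at h2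
    linarith
  | N + 1, x, a, b, wl, wu, a1, b1, wl1, wu1, hI, hE, hr => by
    have hH := hp.H
    have hH' : (0 : ℝ) < p.H := by exact_mod_cast hH
    have hr' : (colK p.den p.W p.R p.Rz p.rws wl wu a b fun zl zu a' b' =>
      force (wLo p.H wl) fun wl' => force (wUp p.H wu) fun wu' =>
      forceL (zUp p.W wu p.Rz (endV p.H b')) fun ze =>
      cond (Nat.ble (Cm * (sumR zl + (sumR zu + sumR ze)) + 1) (2 ^ (s - 1)) && Gs.all fun g => tst wu wl' zl zu ze g)
        (run2 p (2 ^ (s - 1)) Cm Gs N a' b' wl' wu') none) = some (a1, b1, wl1, wu1) := hr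
    obtain ⟨hok, h2⟩ := colK_some hr'
    rw [force_eq, force_eq, forceL_eq] at h2
    rcases hb : (Nat.ble (Cm * (sumR (zLo p.W wl p.Rz a) + (sumR (zUp p.W wu p.Rz b) +
        sumR (zUp p.W wu p.Rz (endV p.H (cB p wu (a, b))))) ) + 1) (2 ^ (s - 1)) &&
        Gs.all fun g => tst wu (wLo p.H wl) (zLo p.W wl p.Rz a) (zUp p.W wu p.Rz b)
          (zUp p.W wu p.Rz (endV p.H (cB p wu (a, b)))) g) with _ | _
    · rw [hb] at h2
      simp at h2
    · rw [hb, cond_true] at h2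
      rw [Bool.and_eq_true, List.all_eq_true] at hb
      have hI0 := inv1_iff.2 hI
      have hst := hI0.step hp hy hE (fun c hc => by
        simp only [List.mem_singleton] at hc
        rw [hc]; exact hok)
      have hI' : Inv1 m p.W y Y (x + 1 / (p.H : ℝ)) (cA p wl wu (a, b)) (cB p wu (a, b)) (wLo p.H wl) (wUp p.H wu) :=
        inv1_iff.1 hst
      have hE' : E (x + 1 / (p.H : ℝ)) ≤ (p.R : ℝ) ^ (m + 1) :=
        (E_anti (by have : 0 < 1 / (p.H : ℝ) := by positivity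
                    linarith)).trans hE
      obtain ⟨r1, r2⟩ := run2_sound hp hy hs hG N (x + 1 / (p.H : ℝ)) _ _ _ _ a1 b1 wl1 wu1 hI' hE' h2
      have e : x + 1 / (p.H : ℝ) + N / p.H = x + ((N + 1 : ℕ) : ℝ) / p.H := by
        push_cast; field_simp; ring
      rw [e] at r1 r2
      refine ⟨r1, ?_⟩
      intro g hg F hF x' h1 h3 hlo hhi
      rcases le_or_gt x' (x + 1 / (p.H : ℝ)) with h4 | h4
      · obtain ⟨G, hGm, hGok⟩ := hG g hg
        have := cell_sound hp.W hy hH hs hI hI' hGok (Nat.le_of_ble_eq_true hb.1) (hb.2 G hGm) hF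
          (t := x' - x) (by linarith) (by linarith) (by rw [show x + (x' - x) = x' by ring]; exact hlo)
          (by rw [show x + (x' - x) = x' by ring]; exact hhi)
        rw [show x + (x' - x) = x' by ring] at this
        exact this
      · exact r2 g hg F hF x' h4.le h3 hlo hhi

/-- soundness of a segment -/
theorem seg_sound {q : ℕ} {p : Par} (hp : ParOK m q p) (hy : SolU m y) {s Cm : ℕ} (hs : 0 < s) {gs : List Grp}
    {Y : ℝ} {N : ℕ} {x : ℝ} {a b : List ℕ} {wl wu : ℕ} {a1 b1 : List ℕ} {wl1 wu1 : ℕ}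
    (hI : Inv1 m p.W y Y x a b wl wu) (hE : wu ≤ p.W * p.R ^ (m + 1))
    (hr : seg p s (m + 1) Cm gs N a b wl wu = some (a1, b1, wl1, wu1)) :
    Inv1 m p.W y Y (x + N / p.H) a1 b1 wl1 wu1 ∧
      ∀ g ∈ gs, ∀ F ∈ g.Fs, ∀ x', x ≤ x' → x' < x + N / p.H → (g.lo : ℝ) ≤ p.W * E x' → p.W * E x' ≤ g.hi →
        0 ≤ evA (zz m y x') 0 F := by
  unfold seg at hr
  obtain ⟨Gs, h1, h2⟩ := prepG_some gs _ hr
  have hW' : (0 : ℝ) < p.W := by exact_mod_cast hp.W
  have hE' : E x ≤ (p.R : ℝ) ^ (m + 1) := by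
    have e1 : ((wu : ℕ) : ℝ) ≤ ((p.W * p.R ^ (m + 1) : ℕ) : ℝ) := by exact_mod_cast hE
    push_cast at e1
    have e2 := hI.wu.trans e1
    exact le_of_mul_le_mul_left e2 hW'
  exact run2_sound hp hy hs h2 N x a b wl wu a1 b1 wl1 wu1 hI hE' h1

/-- test for the upper bounds of the ratios in the region of small weight -/
def tailOkU (T M W wu : ℕ) (rs a b : List ℕ) : Bool :=
  Nat.ble (T * b.getD 1 0 + 1) (rs.getD 0 0 * a.getD 0 0) &&
  Nat.ble (T * wu * b.getD 0 0) (rs.getD (M - 1) 0 * a.getD (M - 1) 0 * W) &&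
  Nat.ble (2 * rs.getD (M - 1) 0) (2 * rs.getD (M - 2) 0 + T) &&
  Nat.ble (2 * rs.getD 0 0) (2 * rs.getD (M - 1) 0 + T) &&
  ((List.range (M - 1)).all fun j => Nat.ble (T * b.getD (j + 1) 0) (rs.getD j 0 * a.getD j 0)) &&
  ((List.range (M - 2)).all fun j => Nat.ble (rs.getD (j + 1) 0) (rs.getD j 0))

lemma tail_region (hm : 1 ≤ m) (hy : SolU m y) {T : ℕ} (hT : 0 < T) (hW : 0 < W) {Y x0 : ℝ} (hY : 0 < Y)
    {a b : List ℕ} {wl wu : ℕ} (hI : Inv1 m W y Y x0 a b wl wu) {rs : List ℕ}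
    (hok : tailOkU T (m + 1) W wu rs a b = true)
    {F : List (ℕ × ℕ)} (hc : tailN T (m + 1) rs 0 F = 0) {x : ℝ} (hx : x0 ≤ x) :
    0 ≤ evA (zz m y x) 0 F := by
  have hE' : (0 : ℝ) < T := by exact_mod_cast hT
  have hW' : (0 : ℝ) < W := by exact_mod_cast hW
  unfold tailOkU at hok
  simp only [Bool.and_eq_true, List.all_eq_true, List.mem_range, Nat.add_sub_cancel] at hok
  obtain ⟨⟨⟨⟨⟨h1, h2⟩, h3⟩, h4⟩, h5⟩, h6⟩ := hok
  have h1' := Nat.le_of_ble_eq_true h1
  have h2' := Nat.le_of_ble_eq_true h2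
  have h3' := Nat.le_of_ble_eq_true h3
  have h4' := Nat.le_of_ble_eq_true h4
  set R : ℕ → ℝ := fun j => (rs.getD j 0 : ℝ) / T with hR
  have hyn : ∀ j < m, ∀ x, yn m y (j + 1) x = y (j + 1) x := fun j hj x => by
    unfold yn; rw [if_pos (by omega)]
  have hynm : ∀ x, yn m y (m + 1) x = E x * y 0 x := fun x => by
    unfold yn; rw [if_neg (by omega)]
  have hle : ∀ j < m, y (j + 1) x0 ≤ R j * y j x0 := by
    intro j hj
    have h5 := Nat.le_of_ble_eq_true (h5 j hj)
    have h6 : (T : ℝ) * vec b (j + 1) ≤ rs.getD j 0 * vec a j := by unfold vec; exact_mod_cast h5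
    have h7 := hI.up (j + 1) (by omega)
    have h8 := hI.lo j hj.le
    have h9 : (T : ℝ) * y (j + 1) x0 ≤ rs.getD j 0 * y j x0 := by
      calc (T : ℝ) * y (j + 1) x0 ≤ T * (Y * vec b (j + 1)) := mul_le_mul_of_nonneg_left h7 hE'.le
        _ = Y * (T * vec b (j + 1)) := by ring
        _ ≤ Y * (rs.getD j 0 * vec a j) := mul_le_mul_of_nonneg_left h6 hY.le
        _ = rs.getD j 0 * (Y * vec a j) := by ring
        _ ≤ rs.getD j 0 * y j x0 := mul_le_mul_of_nonneg_left h8 (Nat.cast_nonneg _)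
    simp only [hR]
    rw [div_mul_eq_mul_div, le_div_iff₀ hE']
    linarith
  have hlt : y 1 x0 < R 0 * y 0 x0 := by
    have h6 : (T : ℝ) * vec b 1 + 1 ≤ rs.getD 0 0 * vec a 0 := by unfold vec; exact_mod_cast h1'
    have h7 := hI.up 1 hm
    have h8 := hI.lo 0 (Nat.zero_le _)
    have h9 : (T : ℝ) * y 1 x0 < rs.getD 0 0 * y 0 x0 := by
      calc (T : ℝ) * y 1 x0 ≤ T * (Y * vec b 1) := mul_le_mul_of_nonneg_left h7 hE'.le
        _ = Y * (T * vec b 1) := by ring
        _ < Y * (rs.getD 0 0 * vec a 0) := mul_lt_mul_of_pos_left (by linarith) hY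
        _ = rs.getD 0 0 * (Y * vec a 0) := by ring
        _ ≤ rs.getD 0 0 * y 0 x0 := mul_le_mul_of_nonneg_left h8 (Nat.cast_nonneg _)
    simp only [hR]
    rw [div_mul_eq_mul_div, lt_div_iff₀ hE']
    linarith
  have hlast : E x0 * y 0 x0 ≤ R m * y m x0 := by
    have h6 : (T : ℝ) * wu * vec b 0 ≤ rs.getD m 0 * vec a m * W := by unfold vec; exact_mod_cast h2'
    have h7 := hI.up 0 (Nat.zero_le _)
    have h8 := hI.lo m le_rfl
    have hy0 : 0 < y 0 x0 := hy.pos _ (Nat.zero_le _) _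
    have hwu0 : (0 : ℝ) ≤ wu := Nat.cast_nonneg _
    have h9 : W * (T * (E x0 * y 0 x0)) ≤ W * (rs.getD m 0 * y m x0) := by
      calc W * (T * (E x0 * y 0 x0)) = T * (W * E x0) * y 0 x0 := by ring
        _ ≤ T * wu * y 0 x0 :=
            mul_le_mul_of_nonneg_right (mul_le_mul_of_nonneg_left hI.wu hE'.le) hy0.le
        _ ≤ T * wu * (Y * vec b 0) := mul_le_mul_of_nonneg_left h7 (by positivity)
        _ = Y * (T * wu * vec b 0) := by ring
        _ ≤ Y * (rs.getD m 0 * vec a m * W) := mul_le_mul_of_nonneg_left h6 hY.le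
        _ = W * rs.getD m 0 * (Y * vec a m) := by ring
        _ ≤ W * rs.getD m 0 * y m x0 := mul_le_mul_of_nonneg_left h8 (by positivity)
        _ = _ := by ring
    have h10 : (T : ℝ) * (E x0 * y 0 x0) ≤ rs.getD m 0 * y m x0 := le_of_mul_le_mul_left h9 hW'
    simp only [hR]
    rw [div_mul_eq_mul_div, le_div_iff₀ hE']
    linarith
  have hRanti : ∀ j, j + 1 < m → R (j + 1) ≤ R j := by
    intro j hj
    have h5 := Nat.le_of_ble_eq_true (h6 j (by omega))
    simp only [hR]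
    have : (rs.getD (j + 1) 0 : ℝ) ≤ rs.getD j 0 := by exact_mod_cast h5
    gcongr
  have hRa : R m ≤ R (m - 1) + 1 / 2 := by
    rw [show m + 1 - 2 = m - 1 by omega] at h3'
    have : (2 * (rs.getD m 0 : ℝ)) ≤ 2 * rs.getD (m - 1) 0 + T := by exact_mod_cast h3'
    simp only [hR]
    rw [div_add' _ _ _ hE'.ne', div_le_div_iff_of_pos_right hE']
    linarith
  have hRm : R 0 ≤ R m + 1 / 2 := by
    have : (2 * (rs.getD 0 0 : ℝ)) ≤ 2 * rs.getD m 0 + T := by exact_mod_cast h4'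
    simp only [hR]
    rw [div_add' _ _ _ hE'.ne', div_le_div_iff_of_pos_right hE']
    linarith
  have hall := tail_inv hm hy hRanti hRa hRm hlt (fun j hj => by
    rcases Nat.lt_or_ge j m with h | h
    · rw [hyn j h]; exact hle j h
    · have : j = m := le_antisymm hj h
      subst this
      rw [hynm]; exact hlast) x hx
  have := tailN_sound (E := T) (M := m + 1) (rs := rs) (Z := zz m y x) hT (fun i => (zz_pos hy x i).le)
    (fun i => by
      refine zz_ratio' x i ?_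
      have h5 := hall (i % (m + 1)) (mod_le _ _)
      simp only [hR] at h5
      rw [div_mul_eq_mul_div, le_div_iff₀ hE'] at h5
      linarith) F 0
  rw [hc] at this
  simpa using this

end

end Pool.Agent.Helper22.Opu
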