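import Pool.Agent.Helper22.Opu.Conn
import Pool.Agent.Helper22.Opu.Run

/-!
# Cells of the angular variable and thresholds
-/

set_option autoImplicit false

open Finset

namespace Pool.Agent.Helper22.Opu

open Pool.Agent.Helper22.Opp

/-- a cell of the angular variable with a window of weights, a bound and the index of a coarse cell -/
structure Cel where
  c0 : ℕ
  c1 : ℕ
  lo : ℕ
  hi : ℕ
  g : ℕ
  J : ℕ

/-- the cells form a chain from `t` to `U` -/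
def chainOk (U : ℕ) : ℕ → List Cel → Bool
  | t, [] => Nat.beq t U
  | t, c :: cs => Nat.beq c.c0 t && (Nat.blt c.c0 c.c1 && chainOk U c.c1 cs)

/-- the test for the bound `g / Gd` of `|√(C S) - (an / ad) S|` on a cell -/
def gamOk (U an ad Gd : ℕ) (c : Cel) : Bool :=
  Nat.ble ((ad * Gd) ^ 2 * (c.c0 * (U - c.c0))) ((c.g * ad * U + an * Gd * (U - c.c0)) ^ 2) &&
  (Nat.ble ((ad * Gd) ^ 2 * (c.c1 * (U - c.c1))) ((c.g * ad * U + an * Gd * (U - c.c1)) ^ 2) &&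
  (Nat.ble ((ad * Gd) ^ 2 * (c.c0 * (U - c.c1) + c.c1 * (U - c.c0)))
    (2 * ((c.g * ad * U + an * Gd * (U - c.c0)) * (c.g * ad * U + an * Gd * (U - c.c1)))) &&
  (Nat.ble ((an * Gd * (U - c.c0) - c.g * ad * U) ^ 2) ((ad * Gd) ^ 2 * (c.c0 * (U - c.c0))) &&
  (Nat.ble ((an * Gd * (U - c.c1) - c.g * ad * U) ^ 2) ((ad * Gd) ^ 2 * (c.c1 * (U - c.c1))) &&
  Nat.ble (2 * ((an * Gd * (U - c.c0) - c.g * ad * U) * (an * Gd * (U - c.c1) - c.g * ad * U)))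
    ((ad * Gd) ^ 2 * (c.c0 * (U - c.c1) + c.c1 * (U - c.c0)))))))

/-- the test for the threshold of a cell -/
def thrOk (n W Gd mn md : ℕ) (c : Cel) : Bool :=
  Nat.ble (4 * c.lo * c.g ^ 2 * md ^ 2 * (10 ^ 8) ^ n) (W * 314159265 ^ n * mn ^ 2 * Gd ^ 2)

/-- a fine cell lies in a coarse cell with a lower window -/
def parOk (co : List Cel) (c : Cel) : Bool :=
  Nat.blt c.J co.length && (Nat.ble (co.getD c.J ⟨0, 0, 0, 0, 0, 0⟩).c0 c.c0 &&
    (Nat.ble c.c1 (co.getD c.J ⟨0, 0, 0, 0, 0, 0⟩).c1 && Nat.ble (co.getD c.J ⟨0, 0, 0, 0, 0, 0⟩).lo c.hi))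

/-- the functionals of a cell -/
def celF (U : ℕ) (As : List (List (ℕ × ℕ))) (c : Cel) : List (List (ℕ × ℕ)) :=
  cellL c.c0 c.c1 (U - c.c0) (U - c.c1) 0 As

noncomputable section

lemma chain_le {U : ℕ} : ∀ {cs : List Cel} {t : ℕ} (_ : chainOk U t cs = true),
    t ≤ U ∧ ∀ c ∈ cs, c.c0 < c.c1 ∧ c.c1 ≤ U
  | [], t, h => by
    rw [chainOk] at h
    exact ⟨(Nat.eq_of_beq_eq_true h).le, by simp⟩
  | c :: cs, t, h => by
    rw [chainOk, Bool.and_eq_true, Bool.and_eq_true] at h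
    obtain ⟨h1, h2, h3⟩ := h
    have h1' := Nat.eq_of_beq_eq_true h1
    have h2' : c.c0 < c.c1 := Nat.le_of_ble_eq_true h2
    obtain ⟨h4, h5⟩ := chain_le h3
    refine ⟨by omega, fun d hd => ?_⟩
    rcases List.mem_cons.1 hd with rfl | hd
    · exact ⟨h2', h4⟩
    · exact h5 d hd

lemma exists_cell {U : ℕ} {z : ℝ} (hzU : z ≤ U) : ∀ {cs : List Cel} {t : ℕ} (_ : chainOk U t cs = true)
    (_ : (t : ℝ) ≤ z) (_ : t < U), ∃ c ∈ cs, (c.c0 : ℝ) ≤ z ∧ z ≤ c.c1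
  | [], t, h, _, htU => by
    rw [chainOk] at h
    have := Nat.eq_of_beq_eq_true h
    omega
  | c :: cs, t, h, ht, htU => by
    rw [chainOk, Bool.and_eq_true, Bool.and_eq_true] at h
    obtain ⟨h1, h2, h3⟩ := h
    have h1' := Nat.eq_of_beq_eq_true h1
    rcases le_or_gt z c.c1 with h4 | h4
    · exact ⟨c, by simp, by rw [h1']; exact ht, h4⟩
    · have h5 : c.c1 < U := by
        have : (c.c1 : ℝ) < U := lt_of_lt_of_le h4 hzU
        exact_mod_cast this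
      obtain ⟨d, hd, h6⟩ := exists_cell hzU h3 h4.le h5
      exact ⟨d, by simp [hd], h6⟩

/-- the bound on a cell -/
lemma gam_sound {U an ad Gd : ℕ} (hU : 0 < U) (had : 0 < ad) (hGd : 0 < Gd) {c : Cel} (h01 : c.c0 < c.c1)
    (h1U : c.c1 ≤ U) (h : gamOk U an ad Gd c = true) {C S : ℝ} (hC0 : 0 ≤ C) (hS0 : 0 ≤ S) (hCS : C + S = 1)
    (h0 : (c.c0 : ℝ) ≤ U * C) (h1 : U * C ≤ c.c1) :
    |Real.sqrt (C * S) - (an : ℝ) / ad * S| ≤ (c.g : ℝ) / Gd := by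
  have hU' : (0 : ℝ) < U := by exact_mod_cast hU
  have had' : (0 : ℝ) < ad := by exact_mod_cast had
  have hGd' : (0 : ℝ) < Gd := by exact_mod_cast hGd
  have hd : (0 : ℝ) < (c.c1 : ℝ) - c.c0 := by
    have : (c.c0 : ℝ) < c.c1 := by exact_mod_cast h01
    linarith
  unfold gamOk at h
  simp only [Bool.and_eq_true] at h
  obtain ⟨a1, a2, a3, a4, a5, a6⟩ := h
  have a1 := Nat.le_of_ble_eq_true a1
  have a2 := Nat.le_of_ble_eq_true a2
  have a3 := Nat.le_of_ble_eq_true a3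
  have a4 := Nat.le_of_ble_eq_true a4
  have a5 := Nat.le_of_ble_eq_true a5
  have a6 := Nat.le_of_ble_eq_true a6
  set s0 : ℕ := U - c.c0 with hs0
  set s1 : ℕ := U - c.c1 with hs1
  set K : ℕ := (ad * Gd) ^ 2 with hK
  set u0 : ℕ := c.g * ad * U + an * Gd * s0 with hu0
  set u1 : ℕ := c.g * ad * U + an * Gd * s1 with hu1
  set v0 : ℕ := an * Gd * s0 - c.g * ad * U with hv0
  set v1 : ℕ := an * Gd * s1 - c.g * ad * U with hv1
  have b1 : (K : ℝ) * (c.c0 * s0) ≤ (u0 : ℝ) ^ 2 := by exact_mod_cast a1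
  have b2 : (K : ℝ) * (c.c1 * s1) ≤ (u1 : ℝ) ^ 2 := by exact_mod_cast a2
  have b3 : (K : ℝ) * (c.c0 * s1 + c.c1 * s0) ≤ 2 * ((u0 : ℝ) * u1) := by exact_mod_cast a3
  have b4 : (v0 : ℝ) ^ 2 ≤ (K : ℝ) * (c.c0 * s0) := by exact_mod_cast a4
  have b5 : (v1 : ℝ) ^ 2 ≤ (K : ℝ) * (c.c1 * s1) := by exact_mod_cast a5
  have b6 : 2 * ((v0 : ℝ) * v1) ≤ (K : ℝ) * (c.c0 * s1 + c.c1 * s0) := by exact_mod_cast a6
  set τ : ℝ := (c.c1 - U * C) / (c.c1 - c.c0) with hτ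
  set t : ℝ := (U * C - c.c0) / (c.c1 - c.c0) with ht
  have hτ0 : 0 ≤ τ := div_nonneg (by linarith) hd.le
  have ht0 : 0 ≤ t := div_nonneg (by linarith) hd.le
  have hτt : τ + t = 1 := by rw [hτ, ht, ← add_div, div_eq_one_iff_eq hd.ne']; ring
  have e1 : (c.c0 : ℝ) * τ + c.c1 * t = U * C := by rw [hτ, ht]; field_simp; ring
  have hs0' : (s0 : ℝ) = U - c.c0 := by rw [hs0, Nat.cast_sub (by omega)]
  have hs1' : (s1 : ℝ) = U - c.c1 := by rw [hs1, Nat.cast_sub h1U]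
  have e2 : (s0 : ℝ) * τ + s1 * t = U * S := by
    rw [hs0', hs1']
    have : ((U : ℝ) - c.c0) * τ + ((U : ℝ) - c.c1) * t = U * (τ + t) - (c.c0 * τ + c.c1 * t) := by ring
    rw [this, hτt, e1]
    have : S = 1 - C := by linarith
    rw [this]; ring
  have hKr : (K : ℝ) = ((ad : ℝ) * Gd) ^ 2 := by rw [hK]; push_cast; ring
  have hsq : Real.sqrt (C * S) ^ 2 = C * S := Real.sq_sqrt (mul_nonneg hC0 hS0)
  have hsq0 := Real.sqrt_nonneg (C * S)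
  -- the product `K (U C) (U S)`
  have hKP : (K : ℝ) * ((U * C) * (U * S)) = ((ad * Gd * U) * Real.sqrt (C * S)) ^ 2 := by
    rw [mul_pow, hsq, hKr]; ring
  have hpp : 0 ≤ (ad : ℝ) * Gd * U * Real.sqrt (C * S) := by positivity
  -- upper
  have hup : (ad : ℝ) * Gd * U * Real.sqrt (C * S) ≤ c.g * ad * U + an * Gd * (U * S) := by
    have e3 : (u0 : ℝ) * τ + u1 * t = c.g * ad * U + an * Gd * (U * S) := by
      rw [hu0, hu1]
      push_cast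
      have : ((c.g : ℝ) * ad * U + an * Gd * s0) * τ + (c.g * ad * U + an * Gd * s1) * t =
        c.g * ad * U * (τ + t) + an * Gd * (s0 * τ + s1 * t) := by ring
      rw [this, hτt, e2]; ring
    have h5 : (K : ℝ) * ((U * C) * (U * S)) ≤ ((u0 : ℝ) * τ + u1 * t) ^ 2 := by
      rw [← e1, ← e2]
      have m1 := mul_le_mul_of_nonneg_right b1 (sq_nonneg τ)
      have m2 := mul_le_mul_of_nonneg_right b2 (sq_nonneg t)
      have m3 := mul_le_mul_of_nonneg_right b3 (mul_nonneg hτ0 ht0)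
      calc (K : ℝ) * ((c.c0 * τ + c.c1 * t) * (s0 * τ + s1 * t)) =
            (K : ℝ) * (c.c0 * s0) * τ ^ 2 + (K : ℝ) * (c.c1 * s1) * t ^ 2 +
              (K : ℝ) * (c.c0 * s1 + c.c1 * s0) * (τ * t) := by ring
        _ ≤ (u0 : ℝ) ^ 2 * τ ^ 2 + (u1 : ℝ) ^ 2 * t ^ 2 + 2 * ((u0 : ℝ) * u1) * (τ * t) :=
            add_le_add (add_le_add m1 m2) m3
        _ = ((u0 : ℝ) * τ + u1 * t) ^ 2 := by ring
    rw [hKP] at h5
    rw [← e3]
    exact (pow_le_pow_iff_left₀ hpp (by positivity) two_ne_zero).1 h5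
  -- lower
  have hlo : an * Gd * (U * S) - c.g * ad * U ≤ (ad : ℝ) * Gd * U * Real.sqrt (C * S) := by
    have e3 : an * Gd * (U * S) - (c.g : ℝ) * ad * U ≤ (v0 : ℝ) * τ + v1 * t := by
      have w0 : (an : ℝ) * Gd * s0 - c.g * ad * U ≤ v0 := by
        have : an * Gd * s0 ≤ v0 + c.g * ad * U := by omega
        have : ((an * Gd * s0 : ℕ) : ℝ) ≤ ((v0 + c.g * ad * U : ℕ) : ℝ) := by exact_mod_cast this
        push_cast at this
        linarith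
      have w1 : (an : ℝ) * Gd * s1 - c.g * ad * U ≤ v1 := by
        have : an * Gd * s1 ≤ v1 + c.g * ad * U := by omega
        have : ((an * Gd * s1 : ℕ) : ℝ) ≤ ((v1 + c.g * ad * U : ℕ) : ℝ) := by exact_mod_cast this
        push_cast at this
        linarith
      have m1 := mul_le_mul_of_nonneg_right w0 hτ0
      have m2 := mul_le_mul_of_nonneg_right w1 ht0
      have e4 : ((an : ℝ) * Gd * s0 - c.g * ad * U) * τ + (an * Gd * s1 - c.g * ad * U) * t =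
        an * Gd * (s0 * τ + s1 * t) - c.g * ad * U * (τ + t) := by ring
      rw [e2, hτt] at e4
      linarith
    have h5 : ((v0 : ℝ) * τ + v1 * t) ^ 2 ≤ (K : ℝ) * ((U * C) * (U * S)) := by
      rw [← e1, ← e2]
      have m1 := mul_le_mul_of_nonneg_right b4 (sq_nonneg τ)
      have m2 := mul_le_mul_of_nonneg_right b5 (sq_nonneg t)
      have m3 := mul_le_mul_of_nonneg_right b6 (mul_nonneg hτ0 ht0)
      calc ((v0 : ℝ) * τ + v1 * t) ^ 2 =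
            (v0 : ℝ) ^ 2 * τ ^ 2 + (v1 : ℝ) ^ 2 * t ^ 2 + 2 * ((v0 : ℝ) * v1) * (τ * t) := by ring
        _ ≤ (K : ℝ) * (c.c0 * s0) * τ ^ 2 + (K : ℝ) * (c.c1 * s1) * t ^ 2 +
              (K : ℝ) * (c.c0 * s1 + c.c1 * s0) * (τ * t) := add_le_add (add_le_add m1 m2) m3
        _ = (K : ℝ) * ((c.c0 * τ + c.c1 * t) * (s0 * τ + s1 * t)) := by ring
    rw [hKP] at h5
    refine e3.trans ?_
    exact (pow_le_pow_iff_left₀ (by positivity) hpp two_ne_zero).1 h5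
  have hq : (0 : ℝ) < ad * Gd * U := by positivity
  rw [abs_le]
  constructor
  · rw [neg_le, neg_sub, ← mul_le_mul_iff_right₀ hq]
    have e5 : (ad : ℝ) * Gd * U * ((an : ℝ) / ad * S - Real.sqrt (C * S)) =
      an * Gd * (U * S) - ad * Gd * U * Real.sqrt (C * S) := by field_simp
    have e6 : (ad : ℝ) * Gd * U * ((c.g : ℝ) / Gd) = c.g * ad * U := by field_simp
    rw [e5, e6]; linarith
  · rw [← mul_le_mul_iff_right₀ hq]
    have e5 : (ad : ℝ) * Gd * U * (Real.sqrt (C * S) - (an : ℝ) / ad * S) =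
      ad * Gd * U * Real.sqrt (C * S) - an * Gd * (U * S) := by field_simp
    have e6 : (ad : ℝ) * Gd * U * ((c.g : ℝ) / Gd) = c.g * ad * U := by field_simp
    rw [e5, e6]; linarith

/-- the threshold on a cell -/
lemma thr_sound {n W Gd mn md : ℕ} (hGd : 0 < Gd) (hmn : 0 < mn) (hmd : 0 < md) {c : Cel}
    (h : thrOk n W Gd mn md c = true) {P γ : ℝ} (hP : 0 ≤ P) (hγ : γ ≤ (c.g : ℝ) / Gd)
    (hm : (mn : ℝ) / md ≤ γ * P) : (c.lo : ℝ) ≤ W * (Real.pi ^ n * P ^ 2 / 4) := by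
  have h1 := Nat.le_of_ble_eq_true h
  have h2 : 4 * (c.lo : ℝ) * (c.g : ℝ) ^ 2 * (md : ℝ) ^ 2 * ((10 : ℝ) ^ 8) ^ n ≤
      (W : ℝ) * (314159265 : ℝ) ^ n * (mn : ℝ) ^ 2 * (Gd : ℝ) ^ 2 := by
    exact_mod_cast h1
  have hGd' : (0 : ℝ) < Gd := by exact_mod_cast hGd
  have hmd' : (0 : ℝ) < md := by exact_mod_cast hmd
  have hmn' : (0 : ℝ) < mn := by exact_mod_cast hmn
  have hpi : (314159265 : ℝ) / 10 ^ 8 ≤ Real.pi := by
    have := Real.pi_gt_d20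
    refine le_trans ?_ this.le
    norm_num
  have hpin : (314159265 : ℝ) ^ n ≤ ((10 : ℝ) ^ 8) ^ n * Real.pi ^ n := by
    rw [← mul_pow]
    refine pow_le_pow_left₀ (by norm_num) ?_ _
    rw [div_le_iff₀ (by norm_num)] at hpi
    linarith
  -- `mn Gd ≤ g md P`
  have h3 : (mn : ℝ) * Gd ≤ (c.g : ℝ) * md * P := by
    have h4 : (mn : ℝ) / md ≤ (c.g : ℝ) / Gd * P := hm.trans (mul_le_mul_of_nonneg_right hγ hP)
    rw [div_mul_eq_mul_div, div_le_div_iff₀ hmd' hGd'] at h4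
    linarith
  have h5 : ((mn : ℝ) * Gd) ^ 2 ≤ ((c.g : ℝ) * md * P) ^ 2 := pow_le_pow_left₀ (by positivity) h3 2
  have hg' : (0 : ℝ) < c.g := by
    rcases (Nat.cast_nonneg c.g : (0 : ℝ) ≤ c.g).lt_or_eq with h6 | h6
    · exact h6
    · exfalso
      rw [← h6] at h3
      have : 0 < (mn : ℝ) * Gd := by positivity
      linarith
  have hX : (0 : ℝ) < 4 * (c.g : ℝ) ^ 2 * (md : ℝ) ^ 2 * ((10 : ℝ) ^ 8) ^ n := by positivity
  rw [← mul_le_mul_iff_right₀ hX]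
  calc 4 * (c.g : ℝ) ^ 2 * (md : ℝ) ^ 2 * ((10 : ℝ) ^ 8) ^ n * (c.lo : ℝ) =
        4 * (c.lo : ℝ) * (c.g : ℝ) ^ 2 * (md : ℝ) ^ 2 * ((10 : ℝ) ^ 8) ^ n := by ring
    _ ≤ (W : ℝ) * (314159265 : ℝ) ^ n * (mn : ℝ) ^ 2 * (Gd : ℝ) ^ 2 := h2
    _ = (W : ℝ) * (314159265 : ℝ) ^ n * ((mn : ℝ) * Gd) ^ 2 := by ring
    _ ≤ (W : ℝ) * (314159265 : ℝ) ^ n * ((c.g : ℝ) * md * P) ^ 2 := mul_le_mul_of_nonneg_left h5 (by positivity)
    _ ≤ (W : ℝ) * (((10 : ℝ) ^ 8) ^ n * Real.pi ^ n) * ((c.g : ℝ) * md * P) ^ 2 := by gcongr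
    _ = _ := by ring

end

end Pool.Agent.Helper22.Opu
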