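import Pool.Agent.Helper22.Opu.Forms

/-!
# The averaged test functions as forms with functionals as coefficients
-/

set_option autoImplicit false

open Finset

namespace Pool.Agent.Helper22.Opu

open Pool.Agent.Helper22.Opp

/-- sum of integers -/
def sumZ : ℕ → (ℕ → ℤ) → ℤ
  | 0, _ => 0
  | n + 1, f => sumZ n f + f n

/-- entry of a table -/
def tz (tb : List (List ℤ)) (a b : ℕ) : ℤ := (tb.getD a []).getD b 0

/-- coefficients of the primal side -/
def pA (n : ℕ) (tb qt : List (List ℤ)) (i j : ℕ) : ℤ :=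
  sumZ n fun a => sumZ n fun b => tz tb a b * (tz qt a i * tz qt b j)

/-- entry of a row as an integer -/
def cz (rs : List (List (ℕ × ℕ))) (k i : ℕ) : ℤ :=
  (((rs.getD k []).getD i (0, 0)).1 : ℤ) - (((rs.getD k []).getD i (0, 0)).2 : ℤ)

/-- all tests for the tables of coefficients -/
def connChk (n : ℕ) (tb qt : List (List ℤ)) (rA rB : List (List (ℕ × ℕ))) : Bool :=
  (Nat.beq rA.length n && rowsOk 0 rA) && ((Nat.beq rB.length n && rowsOk 0 rB) &&
  (((List.range n).all fun a => (List.range n).all fun i => decide (tz qt a i = qc a i)) &&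
  ((List.range n).all fun i => (List.range n).all fun j =>
    if i + j < n then decide (cz rB (i + j) i = 2 ^ (i + j) * tz tb i j) &&
      decide (cz rA (i + j) i = -(2 ^ (i + j) * pA n tb qt i j))
    else decide (tz tb i j = 0) && decide (pA n tb qt i j = 0))))

noncomputable section

lemma sumZ_eq (f : ℕ → ℤ) : ∀ n, ((sumZ n f : ℤ) : ℝ) = ∑ i ∈ range n, (f i : ℝ)
  | 0 => by simp [sumZ]
  | n + 1 => by rw [sumZ, sum_range_succ, Int.cast_add, sumZ_eq f n]

/-- the coefficients as a function -/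
def cfz (tb : List (List ℤ)) (a b : ℕ) : ℝ := (tz tb a b : ℝ)

lemma qc_zero : ∀ (a i : ℕ), a < i → qc a i = 0
  | 0, 0, h => by omega
  | 0, i + 1, _ => by simp [qc]
  | a + 1, 0, h => by omega
  | a + 1, i + 1, h => by
    rw [qc, qc_zero a (i + 1) (by omega), qc_zero a i (by omega), qc_zero a (i + 2) (by omega)]
    ring

lemma diag (n : ℕ) (g : ℕ → ℕ → ℝ) (h0 : ∀ i < n, ∀ j < n, n ≤ i + j → g i j = 0) :
    ∑ i ∈ range n, ∑ j ∈ range n, g i j = ∑ k ∈ range n, ∑ i ∈ range (k + 1), g i (k - i) := by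
  rw [sum_range_diag_flip]
  refine sum_congr rfl fun i hi => ?_
  rw [mem_range] at hi
  symm
  refine sum_subset (range_subset_range.2 (Nat.sub_le n i)) fun j hj hj' => ?_
  rw [mem_range] at hj hj'
  exact h0 i hi j hj (by omega)

lemma cv_eq (rs : List (List (ℕ × ℕ))) (k i : ℕ) : cv (rs.getD k []) i = (cz rs k i : ℝ) := by
  unfold cv cz; push_cast; rfl

variable {k d : ℕ} {tb qt : List (List ℤ)} {rA rB : List (List (ℕ × ℕ))} {C S : ℝ}

lemma connChk_spec {n : ℕ} (h : connChk n tb qt rA rB = true) :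
    (rA.length = n ∧ rowsOk 0 rA = true) ∧ (rB.length = n ∧ rowsOk 0 rB = true) ∧
    (∀ a < n, ∀ i < n, tz qt a i = qc a i) ∧
    (∀ i j, i + j < n → cz rB (i + j) i = 2 ^ (i + j) * tz tb i j ∧
      cz rA (i + j) i = -(2 ^ (i + j) * pA n tb qt i j)) ∧
    (∀ i < n, ∀ j < n, n ≤ i + j → tz tb i j = 0 ∧ pA n tb qt i j = 0) := by
  unfold connChk at h
  simp only [Bool.and_eq_true, List.all_eq_true, List.mem_range] at h
  obtain ⟨⟨a1, a2⟩, ⟨a3, a4⟩, h1, h2⟩ := h
  refine ⟨⟨Nat.eq_of_beq_eq_true a1, a2⟩, ⟨Nat.eq_of_beq_eq_true a3, a4⟩,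
    fun a ha i hi => of_decide_eq_true (h1 a ha i hi), ?_, ?_⟩
  · intro i j hij
    have h3 := h2 i (by omega) j (by omega)
    rw [if_pos hij, Bool.and_eq_true] at h3
    exact ⟨of_decide_eq_true h3.1, of_decide_eq_true h3.2⟩
  · intro i hi j hj hij
    have h3 := h2 i hi j hj
    rw [if_neg (by omega), Bool.and_eq_true] at h3
    exact ⟨of_decide_eq_true h3.1, of_decide_eq_true h3.2⟩

/-- rows of the dual side -/
lemma HB2_rows (h : connChk (d + 1) tb qt rA rB = true) (x : ℝ) :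
    HB2 k d (cfz tb) C S x = vS k S C x 0 rB := by
  obtain ⟨-, ⟨l2, r2⟩, -, h4, h5⟩ := connChk_spec h
  rw [vS_eq rB 0 r2, l2]
  unfold HB2
  rw [diag]
  · refine sum_congr rfl fun l hl => ?_
    rw [Nat.zero_add]
    refine sum_congr rfl fun i hi => ?_
    rw [mem_range] at hl hi
    rw [cv_eq]
    have h6 := (h4 i (l - i) (by omega)).1
    rw [show i + (l - i) = l by omega] at h6 ⊢
    rw [h6]
    unfold cfz
    push_cast; ring
  · intro i hi j hj hij
    unfold cfz
    rw [(h5 i hi j hj hij).1]; simp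

lemma pA_cast (h : connChk (d + 1) tb qt rA rB = true) {i j : ℕ} (hi : i < d + 1) (hj : j < d + 1) :
    ((pA (d + 1) tb qt i j : ℤ) : ℝ) =
      ∑ a ∈ range (d + 1), ∑ b ∈ range (d + 1), cfz tb a b * ((qc a i : ℝ) * qc b j) := by
  obtain ⟨-, -, h3, -, -⟩ := connChk_spec h
  unfold pA
  rw [sumZ_eq]
  refine sum_congr rfl fun a ha => ?_
  rw [sumZ_eq]
  refine sum_congr rfl fun b hb => ?_
  rw [mem_range] at ha hb
  rw [h3 a ha i hi, h3 b hb j hj]
  unfold cfz
  push_cast; ring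

/-- rows of the primal side -/
lemma HA2_rows (h : connChk (d + 1) tb qt rA rB = true) (x : ℝ) :
    HA2 k d (cfz tb) C S x = -vS k S C x 0 rA := by
  obtain ⟨⟨l1, r1⟩, -, -, h4, h5⟩ := connChk_spec h
  have e0 : HA2 k d (cfz tb) C S x = ∑ i ∈ range (d + 1), ∑ j ∈ range (d + 1),
      ((pA (d + 1) tb qt i j : ℤ) : ℝ) * (2 ^ (i + j) * C ^ i * S ^ j) * G k (i + j) x := by
    unfold HA2
    have e1 : ∀ a ∈ range (d + 1), ∀ b ∈ range (d + 1), (∑ i ∈ range (a + 1), ∑ j ∈ range (b + 1),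
        (qP a).coeff i * (qP b).coeff j * (2 ^ (i + j) * C ^ i * S ^ j) * G k (i + j) x) =
        ∑ i ∈ range (d + 1), ∑ j ∈ range (d + 1),
        (qc a i : ℝ) * qc b j * (2 ^ (i + j) * C ^ i * S ^ j) * G k (i + j) x := by
      intro a ha b hb
      rw [mem_range] at ha hb
      simp only [coeff_qP]
      have e2 : ∀ i, ∑ j ∈ range (b + 1), (qc a i : ℝ) * qc b j * (2 ^ (i + j) * C ^ i * S ^ j) * G k (i + j) x =
          ∑ j ∈ range (d + 1), (qc a i : ℝ) * qc b j * (2 ^ (i + j) * C ^ i * S ^ j) * G k (i + j) x := by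
        intro i
        refine sum_subset (range_subset_range.2 (by omega)) fun j _ hj' => ?_
        rw [mem_range] at hj'
        rw [qc_zero b j (by omega)]; simp
      simp only [e2]
      refine sum_subset (range_subset_range.2 (by omega)) fun i _ hi' => ?_
      rw [mem_range] at hi'
      rw [qc_zero a i (by omega)]; simp
    rw [sum_congr rfl fun a ha => sum_congr rfl fun b hb => by rw [e1 a ha b hb]]
    have e3 : ∀ a b : ℕ, cfz tb a b * ∑ i ∈ range (d + 1), ∑ j ∈ range (d + 1),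
        (qc a i : ℝ) * qc b j * (2 ^ (i + j) * C ^ i * S ^ j) * G k (i + j) x =
        ∑ i ∈ range (d + 1), ∑ j ∈ range (d + 1), (cfz tb a b * ((qc a i : ℝ) * qc b j)) *
          (2 ^ (i + j) * C ^ i * S ^ j) * G k (i + j) x := by
      intro a b
      rw [mul_sum]
      refine sum_congr rfl fun i _ => ?_
      rw [mul_sum]
      exact sum_congr rfl fun j _ => by ring
    simp only [e3]
    have e4 : ∀ i ∈ range (d + 1), ∀ j ∈ range (d + 1),
        ((pA (d + 1) tb qt i j : ℤ) : ℝ) * (2 ^ (i + j) * C ^ i * S ^ j) * G k (i + j) x =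
        ∑ a ∈ range (d + 1), ∑ b ∈ range (d + 1), (cfz tb a b * ((qc a i : ℝ) * qc b j)) *
          (2 ^ (i + j) * C ^ i * S ^ j) * G k (i + j) x := by
      intro i hi j hj
      rw [mem_range] at hi hj
      rw [pA_cast h hi hj, sum_mul, sum_mul]
      refine sum_congr rfl fun a _ => ?_
      rw [sum_mul, sum_mul]
    rw [sum_congr rfl fun i hi => sum_congr rfl fun j hj => e4 i hi j hj]
    -- exchange of the sums
    calc ∑ a ∈ range (d + 1), ∑ b ∈ range (d + 1), ∑ i ∈ range (d + 1), ∑ j ∈ range (d + 1),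
          (cfz tb a b * ((qc a i : ℝ) * qc b j)) * (2 ^ (i + j) * C ^ i * S ^ j) * G k (i + j) x
        = ∑ a ∈ range (d + 1), ∑ i ∈ range (d + 1), ∑ b ∈ range (d + 1), ∑ j ∈ range (d + 1),
          (cfz tb a b * ((qc a i : ℝ) * qc b j)) * (2 ^ (i + j) * C ^ i * S ^ j) * G k (i + j) x :=
          sum_congr rfl fun a _ => sum_comm
      _ = ∑ i ∈ range (d + 1), ∑ a ∈ range (d + 1), ∑ b ∈ range (d + 1), ∑ j ∈ range (d + 1),
          (cfz tb a b * ((qc a i : ℝ) * qc b j)) * (2 ^ (i + j) * C ^ i * S ^ j) * G k (i + j) x := sum_comm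
      _ = ∑ i ∈ range (d + 1), ∑ a ∈ range (d + 1), ∑ j ∈ range (d + 1), ∑ b ∈ range (d + 1),
          (cfz tb a b * ((qc a i : ℝ) * qc b j)) * (2 ^ (i + j) * C ^ i * S ^ j) * G k (i + j) x :=
          sum_congr rfl fun i _ => sum_congr rfl fun a _ => sum_comm
      _ = _ := sum_congr rfl fun i _ => sum_comm
  rw [e0, vS_eq rA 0 r1, l1, diag, ← sum_neg_distrib]
  · refine sum_congr rfl fun l hl => ?_
    rw [Nat.zero_add, ← sum_neg_distrib]
    refine sum_congr rfl fun i hi => ?_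
    rw [mem_range] at hl hi
    rw [cv_eq]
    have h6 := (h4 i (l - i) (by omega)).2
    rw [show i + (l - i) = l by omega] at h6 ⊢
    rw [h6]
    push_cast; ring
  · intro i hi j hj hij
    rw [(h5 i hi j hj hij).2]; simp

/-- value at the origin -/
lemma HS2_eq (h : connChk (d + 1) tb qt rA rB = true) : HS2 d (cfz tb) = ((pA (d + 1) tb qt 0 0 : ℤ) : ℝ) := by
  rw [pA_cast h (by omega) (by omega)]
  unfold HS2
  simp only [coeff_qP]

/-- **The two identities** -/
theorem connect2 (h : connChk (d + 1) tb qt rA rB = true) {AsA AsB : List (List (ℕ × ℕ))} {eA eB : ℕ}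
    (hA : (elN eA AsA).map (fun F => F.map nrm) = (accF (k + 2) [] 0 rA).map (fun F => F.map nrm))
    (hB : (elN eB AsB).map (fun F => F.map nrm) = (accF (k + 2) [] 0 rB).map (fun F => F.map nrm))
    (hCS : C + S = 1) (x : ℝ) :
    HA2 k d (cfz tb) C S x = -hevF (zz (k + 1) (K (k := k)) x) S C AsA ∧
    HB2 k d (cfz tb) C S x = hevF (zz (k + 1) (K (k := k)) x) S C AsB := by
  obtain ⟨⟨l1, r1⟩, ⟨l2, r2⟩, -, -, -⟩ := connChk_spec h
  have a1 := hevF_accF (k := k) hCS x rA [] 0 rfl r1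
  have a2 := hevF_accF (k := k) hCS x rB [] 0 rfl r2
  rw [← hevF_nrm, ← hA, hevF_nrm, hevF_elN hCS] at a1
  rw [← hevF_nrm, ← hB, hevF_nrm, hevF_elN hCS] at a2
  simp only [hevF, zero_add] at a1 a2
  rw [HA2_rows h, HB2_rows h, a1, a2]
  exact ⟨rfl, rfl⟩

end

end Pool.Agent.Helper22.Opu
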