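import Pool.Agent.Helper22.Opu.E5D

/-!
# Dimension 5: segments of the computation
-/

set_option autoImplicit false
set_option maxRecDepth 100000

namespace Pool.Agent.Helper22.Opu.E5

theorem k1 : sgOk 5 d.W d.gs st1 g1 := by
  unfold sgOk
  exact ⟨by decide +kernel, by decide +kernel⟩

theorem k2 : sgOk 5 d.W d.gs so1 g2 := by
  unfold sgOk
  exact ⟨by decide +kernel, by decide +kernel⟩

end Pool.Agent.Helper22.Opu.E5
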