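import Pool.Agent.Helper22.Opu.LP

/-!
# Pairs of systems with all but one form in common
-/

set_option autoImplicit false

open Finset

namespace Pool.Agent.Helper22.Opu

open Pool.Agent.Helper22.Opp

noncomputable section

variable {k : ℕ}

/-- the weights of the first two rows -/
def dd (s : ℝ) : Fin (k + 2) → ℝ := Fin.cons s (Fin.cons s⁻¹ fun _ => 1)

/-- the common lattice of a pair -/
def PM (lam s : ℝ) (L : Matrix (Fin (k + 2)) (Fin (k + 2)) ℝ) : Matrix (Fin (k + 2)) (Fin (k + 2)) ℝ :=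
  lam • (Matrix.diagonal (dd s) * L.updateRow 0 (L 0 + (1 / 2 : ℝ) • L (Fin.succ 0)))

lemma det_PM {lam s : ℝ} (hs : s ≠ 0) (L : Matrix (Fin (k + 2)) (Fin (k + 2)) ℝ) :
    (PM lam s L).det = lam ^ (k + 2) * L.det := by
  unfold PM
  rw [Matrix.det_smul, Fintype.card_fin, Matrix.det_mul, Matrix.det_diagonal,
    Matrix.det_updateRow_add_smul_self _ (Fin.succ_ne_zero 0).symm]
  have : ∏ i, dd (k := k) s i = 1 := by
    unfold dd
    rw [Fin.prod_univ_succ, Fin.prod_univ_succ]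
    simp [hs]
  rw [this, one_mul]

lemma PM_mulVec (lam s : ℝ) (L : Matrix (Fin (k + 2)) (Fin (k + 2)) ℝ) (v : Fin (k + 2) → ℝ) (i : Fin (k + 2)) :
    (PM lam s L).mulVec v i = lam * (dd s i * (L.updateRow 0 (L 0 + (1 / 2 : ℝ) • L (Fin.succ 0))).mulVec v i) := by
  unfold PM
  rw [Matrix.smul_mulVec, Pi.smul_apply, smul_eq_mul, ← Matrix.mulVec_mulVec, Matrix.mulVec_diagonal]

lemma PM_zero (lam s : ℝ) (L : Matrix (Fin (k + 2)) (Fin (k + 2)) ℝ) (v : Fin (k + 2) → ℝ) :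
    (PM lam s L).mulVec v 0 = lam * (s * (L.mulVec v 0 + L.mulVec v (Fin.succ 0) / 2)) := by
  rw [PM_mulVec]
  congr 2
  simp only [Matrix.mulVec, dotProduct, Matrix.updateRow_self, Pi.add_apply, Pi.smul_apply, smul_eq_mul]
  rw [sum_div, ← sum_add_distrib]
  exact sum_congr rfl fun j _ => by ring

lemma PM_one (lam s : ℝ) (L : Matrix (Fin (k + 2)) (Fin (k + 2)) ℝ) (v : Fin (k + 2) → ℝ) :
    (PM lam s L).mulVec v (Fin.succ 0) = lam * (s⁻¹ * L.mulVec v (Fin.succ 0)) := by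
  rw [PM_mulVec]
  congr 2

lemma PM_succ (lam s : ℝ) (L : Matrix (Fin (k + 2)) (Fin (k + 2)) ℝ) (v : Fin (k + 2) → ℝ) (i : Fin k) :
    (PM lam s L).mulVec v i.succ.succ = lam * L.mulVec v i.succ.succ := by
  rw [PM_mulVec]
  have : dd (k := k) s i.succ.succ = 1 := by simp [dd]
  rw [this, one_mul]
  congr 1

/-- **The bound for a pair.** -/
theorem pair_bound {D : ℕ} {c : ℕ → ℕ → ℝ} {β m0 : ℝ} (hβ : 0 < β) (hm0 : 0 < m0)
    (hB : ∀ C S : ℝ, 0 ≤ C → 0 ≤ S → C + S = 1 → ∀ x, 0 ≤ HB2 k D c C S x)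
    (hA : ∀ C S P : ℝ, 0 ≤ C → 0 ≤ S → C + S = 1 → 0 < P →
      m0 ≤ |Real.sqrt (C * S) - β * S| * P → HA2 k D c C S (-Real.log (Real.pi ^ (k + 2) * P ^ 2)) ≤ 0)
    (L : Matrix (Fin (k + 2)) (Fin (k + 2)) ℝ) (hL : |L.det| = 1) {ν : ℝ} (hν : 0 < ν)
    (h1 : ∀ p : Fin (k + 2) → ℤ, p ≠ 0 → ν ≤ |∏ i, L.mulVec (zr p) i|)
    (h2 : ∀ p : Fin (k + 2) → ℤ, p ≠ 0 →
      ν ≤ |(L.mulVec (zr p) 0 + L.mulVec (zr p) (Fin.succ 0)) * ∏ i : Fin (k + 1), L.mulVec (zr p) i.succ|) :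
    c 0 0 * ν ≤ m0 * HS2 D c := by
  have hπ := Real.pi_pos
  set s : ℝ := Real.sqrt (2 * β) with hs
  have hs0 : 0 < s := Real.sqrt_pos.2 (by linarith)
  have hs2 : s ^ 2 = 2 * β := Real.sq_sqrt (by linarith)
  set lam : ℝ := (m0 / ν) ^ (((k + 2 : ℕ) : ℝ)⁻¹) with hlam
  have hlam0 : 0 < lam := Real.rpow_pos_of_pos (by positivity) _
  have hlamn : lam ^ (k + 2) = m0 / ν := by
    rw [hlam, Real.rpow_inv_natCast_pow (by positivity) (by omega)]
  set M := PM lam s L with hM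
  have hdet : M.det = m0 / ν * L.det := by rw [hM, det_PM hs0.ne', hlamn]
  have hdet' : |M.det| = m0 / ν := by
    rw [hdet, abs_mul, hL, mul_one, abs_of_pos (by positivity)]
  have hM0 : M.det ≠ 0 := by
    rw [← abs_pos, hdet']; positivity
  -- the main inequality
  have key : ∀ p : Fin (k + 2) → ℤ, p ≠ 0 → 0 < rho2 (M.mulVec (zr p)) ∧
      m0 ≤ |Real.sqrt (Cq (M.mulVec (zr p)) * Sq (M.mulVec (zr p))) - β * Sq (M.mulVec (zr p))| *
        nm2 (M.mulVec (zr p)) := by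
    intro p hp
    set y := M.mulVec (zr p) with hy
    set l := L.mulVec (zr p) with hl
    have y0 : y 0 = lam * (s * (l 0 + l (Fin.succ 0) / 2)) := PM_zero _ _ _ _
    have y1 : y (Fin.succ 0) = lam * (s⁻¹ * l (Fin.succ 0)) := PM_one _ _ _ _
    have y2 : ∀ i : Fin k, y i.succ.succ = lam * l i.succ.succ := fun i => PM_succ _ _ _ _ _
    have a1 := h1 p hp
    have a2 := h2 p hp
    rw [Fin.prod_univ_succ, Fin.prod_univ_succ] at a1
    rw [Fin.prod_univ_succ] at a2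
    set Q : ℝ := ∏ i : Fin k, l i.succ.succ with hQ
    rw [← hl] at a1 a2
    have hl1 : l (Fin.succ 0) ≠ 0 := by
      intro h0
      rw [h0] at a1
      simp only [zero_mul, mul_zero, abs_zero] at a1
      linarith
    have hy1 : y (Fin.succ 0) ≠ 0 := by
      rw [y1]; exact mul_ne_zero hlam0.ne' (mul_ne_zero (inv_ne_zero hs0.ne') hl1)
    have hrho : 0 < rho2 y := by
      unfold rho2
      have : 0 < y (Fin.succ 0) ^ 2 := by positivity
      have := sq_nonneg (y 0)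
      linarith
    refine ⟨hrho, ?_⟩
    have hprod : ∏ i : Fin k, |y i.succ.succ| = lam ^ k * |Q| := by
      simp only [y2]
      rw [hQ, abs_prod, ← Fin.prod_const, ← prod_mul_distrib]
      exact prod_congr rfl fun i _ => by rw [abs_mul, abs_of_pos hlam0]
    have hCS : Real.sqrt (Cq y * Sq y) = |y 0 * y (Fin.succ 0)| / rho2 y := by
      have : Cq y * Sq y = (y 0 * y (Fin.succ 0) / rho2 y) ^ 2 := by
        unfold Cq Sq
        field_simp
      rw [this, Real.sqrt_sq_eq_abs, abs_div, abs_of_pos hrho]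
    have hmain : |Real.sqrt (Cq y * Sq y) - β * Sq y| * nm2 y =
        |(|y 0 * y (Fin.succ 0)|) - β * y (Fin.succ 0) ^ 2| * (lam ^ k * |Q|) := by
      unfold nm2
      rw [hprod, hCS]
      unfold Sq
      have : |y 0 * y (Fin.succ 0)| / rho2 y - β * (y (Fin.succ 0) ^ 2 / rho2 y) =
        (|y 0 * y (Fin.succ 0)| - β * y (Fin.succ 0) ^ 2) / rho2 y := by ring
      rw [this, abs_div, abs_of_pos hrho]
      field_simp
    rw [hmain]
    have hb : β * y (Fin.succ 0) ^ 2 = lam ^ 2 * (l (Fin.succ 0) ^ 2 / 2) := by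
      rw [y1]
      have : β = s ^ 2 / 2 := by linarith
      rw [this]; field_simp
    have hyy : y 0 * y (Fin.succ 0) = lam ^ 2 * ((l 0 + l (Fin.succ 0) / 2) * l (Fin.succ 0)) := by
      rw [y0, y1]; field_simp
    have hfin : ∀ t : ℝ, ν ≤ |t * Q| → m0 ≤ |lam ^ 2 * t| * (lam ^ k * |Q|) := by
      intro t ht
      have e1 : |lam ^ 2 * t| * (lam ^ k * |Q|) = lam ^ (k + 2) * |t * Q| := by
        rw [abs_mul, abs_mul, abs_of_pos (pow_pos hlam0 2)]; ring
      rw [e1, hlamn, div_mul_eq_mul_div, le_div_iff₀ hν]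
      exact mul_le_mul_of_nonneg_left ht hm0.le
    rcases le_or_gt 0 (y 0 * y (Fin.succ 0)) with h | h
    · rw [abs_of_nonneg h, hb, hyy]
      have e : lam ^ 2 * ((l 0 + l (Fin.succ 0) / 2) * l (Fin.succ 0)) - lam ^ 2 * (l (Fin.succ 0) ^ 2 / 2) =
        lam ^ 2 * (l 0 * l (Fin.succ 0)) := by ring
      rw [e]
      exact hfin _ (by rw [mul_assoc]; exact a1)
    · rw [abs_of_neg h, hb, hyy]
      have e : -(lam ^ 2 * ((l 0 + l (Fin.succ 0) / 2) * l (Fin.succ 0))) - lam ^ 2 * (l (Fin.succ 0) ^ 2 / 2) =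
        -(lam ^ 2 * ((l 0 + l (Fin.succ 0)) * l (Fin.succ 0))) := by ring
      rw [e, abs_neg]
      exact hfin _ (by rw [mul_assoc]; exact a2)
  -- a uniform lower bound
  have hg1 : ∀ y : Fin (k + 2) → ℝ, 0 < rho2 y → |Real.sqrt (Cq y * Sq y) - β * Sq y| ≤ 1 + β := by
    intro y hy
    have h3 := Cq_nonneg y
    have h4 := Sq_nonneg y
    have h5 : Cq y + Sq y = 1 := by
      unfold Cq Sq
      rw [← add_div]
      exact div_self hy.ne'
    have h6 : Cq y * Sq y ≤ 1 := by nlinarith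
    have h7 : Real.sqrt (Cq y * Sq y) ≤ 1 := by
      rw [Real.sqrt_le_left (by norm_num)]; simpa using h6
    have h8 := Real.sqrt_nonneg (Cq y * Sq y)
    have h9 : β * Sq y ≤ β := by nlinarith
    have h10 : 0 ≤ β * Sq y := by positivity
    rw [abs_le]
    constructor <;> linarith
  have hlow : ∀ p : Fin (k + 2) → ℤ, p ≠ 0 → m0 / (1 + β) ≤ nm2 (M.mulVec (zr p)) := by
    intro p hp
    obtain ⟨k1, k2⟩ := key p hp
    rw [div_le_iff₀ (by linarith)]
    refine k2.trans ?_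
    rw [mul_comm]
    exact mul_le_mul_of_nonneg_left (hg1 _ k1) (nm2_nonneg _)
  have hfin := lp_bound2 D hB M hM0 (ν := m0 / (1 + β)) (by positivity) hlow (by
    intro p hp
    obtain ⟨k1, k2⟩ := key p hp
    have hnd := Nd_of_nm2 (show 0 < m0 / (1 + β) by positivity) (hlow p hp)
    rw [xo_eq]
    exact hA _ _ _ (Cq_nonneg _) (Sq_nonneg _) (Cq_add_Sq hnd)
      (lt_of_lt_of_le (show 0 < m0 / (1 + β) by positivity) (hlow p hp)) k2)
  rw [hdet'] at hfin
  have : c 0 0 * ν ≤ m0 / ν * HS2 D c * ν := mul_le_mul_of_nonneg_right hfin hν.le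
  calc c 0 0 * ν ≤ m0 / ν * HS2 D c * ν := this
    _ = m0 * HS2 D c := by field_simp

end

end Pool.Agent.Helper22.Opu
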