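import Pool.Agent.Helper22.Opu.Fin
import Pool.Agent.Helper22.Opu.Pair

/-!
# The bound for pairs in terms of the data
-/

set_option autoImplicit false

open Finset

namespace Pool.Agent.Helper22.Opu

open Pool.Agent.Helper22.Opp

/-- final statement in terms of the data -/
theorem final {k D : ℕ} {d : Dat} {l : List Sg} (ok : d.ok (k + 2)) (hs : sgsOk (k + 2) d.W d.gs d.s1 l)
    (p1 : ph1 d.p1 d.N1 d.W d.D (k + 2) d.w0 d.s1 = true) (okE : d.okE (k + 2) (lastS d.s1 l))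
    (okC : d.celOk (k + 2)) (han : 0 < d.an) {tb qt : List (List ℤ)} {rA rB : List (List (ℕ × ℕ))} {eA eB : ℕ}
    (hc : connChk (D + 1) tb qt rA rB = true)
    (hA : (elN eA d.AsA).map (fun F => F.map nrm) = (accF (k + 2) [] 0 rA).map (fun F => F.map nrm))
    (hB : (elN eB d.AsB).map (fun F => F.map nrm) = (accF (k + 2) [] 0 rB).map (fun F => F.map nrm))
    {c00 S : ℤ} (h00 : tz tb 0 0 = c00) (hS : pA (D + 1) tb qt 0 0 = S)
    (L : Matrix (Fin (k + 2)) (Fin (k + 2)) ℝ) (hL : |L.det| = 1) {ν : ℝ} (hν : 0 < ν)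
    (h1 : ∀ p : Fin (k + 2) → ℤ, p ≠ 0 → ν ≤ |∏ i, L.mulVec (zr p) i|)
    (h2 : ∀ p : Fin (k + 2) → ℤ, p ≠ 0 →
      ν ≤ |(L.mulVec (zr p) 0 + L.mulVec (zr p) (Fin.succ 0)) * ∏ i : Fin (k + 1), L.mulVec (zr p) i.succ|) :
    (c00 : ℝ) * ν ≤ (d.mn : ℝ) / d.md * S := by
  obtain ⟨s1, s2⟩ := signs (D := D) ok hs p1 okE okC hc hA hB
  obtain ⟨-, c2, -, c4, c5, -⟩ := okC
  have hβ : (0 : ℝ) < (d.an : ℝ) / d.ad := by
    have h3 : (0 : ℝ) < d.an := by exact_mod_cast han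
    have h4 : (0 : ℝ) < d.ad := by exact_mod_cast c2
    positivity
  have hm : (0 : ℝ) < (d.mn : ℝ) / d.md := by
    have h3 : (0 : ℝ) < d.mn := by exact_mod_cast c4
    have h4 : (0 : ℝ) < d.md := by exact_mod_cast c5
    positivity
  have h := pair_bound (D := D) (c := cfz tb) hβ hm s1 s2 L hL hν h1 h2
  rw [HS2_eq hc, hS] at h
  have h0 : cfz tb 0 0 = (c00 : ℝ) := by unfold cfz; rw [h00]
  rw [h0] at h
  exact h

end Pool.Agent.Helper22.Opu
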