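import Pool.Agent.Helper22.Opu.E5D

/-!
# Dimension 5: the cheap tests
-/

set_option autoImplicit false
set_option maxRecDepth 100000

namespace Pool.Agent.Helper22.Opu.E5

/-- the list of segments -/
def sg : List Sg := [g1, g2, g3, g4, g5, g6, g7, g8, g9, g10]

theorem ok : d.ok 5 := by
  unfold Dat.ok
  decide +kernel

theorem okC : d.celOk 5 := by
  unfold Dat.celOk
  decide +kernel

theorem h1 : ph1 d.p1 d.N1 d.W d.D 5 d.w0 d.s1 = true := by decide +kernel

theorem okE : d.okE 5 (lastS d.s1 sg) := by
  unfold Dat.okE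
  decide +kernel

theorem cc : connChk (7 + 1) tb qt rA rB = true := by decide +kernel

theorem hA : (elN 2 d.AsA).map (fun F => F.map Opp.nrm) = (accF 5 [] 0 rA).map (fun F => F.map Opp.nrm) := by
  decide +kernel

theorem hB : (elN 2 d.AsB).map (fun F => F.map Opp.nrm) = (accF 5 [] 0 rB).map (fun F => F.map Opp.nrm) := by
  decide +kernel

theorem h00 : tz tb 0 0 = 1259124136 := by decide +kernel

theorem hS : pA (7 + 1) tb qt 0 0 = 1000022764 := by decide +kernel

end Pool.Agent.Helper22.Opu.E5
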