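import Pool.Agent.Helper22.Opu.E6D

/-!
# Dimension 6: segments of the computation
-/

set_option autoImplicit false
set_option maxRecDepth 100000

namespace Pool.Agent.Helper22.Opu.E6

theorem k6 : sgOk 6 d.W d.gs so5 g6 := by
  unfold sgOk
  exact ⟨by decide +kernel, by decide +kernel⟩

theorem k7 : sgOk 6 d.W d.gs so6 g7 := by
  unfold sgOk
  exact ⟨by decide +kernel, by decide +kernel⟩

end Pool.Agent.Helper22.Opu.E6
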