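import Pool.Agent.Helper22.Opu.E6T
import Pool.Agent.Helper22.Opu.E6S1
import Pool.Agent.Helper22.Opu.E6S2
import Pool.Agent.Helper22.Opu.E6S3
import Pool.Agent.Helper22.Opu.E6S4
import Pool.Agent.Helper22.Opu.E6S5
import Pool.Agent.Helper22.Opu.E6S6
import Pool.Agent.Helper22.Opu.Fin2

/-!
# Dimension 6: the bound for pairs
-/

set_option autoImplicit false
set_option maxRecDepth 100000

namespace Pool.Agent.Helper22.Opu.E6

theorem hs : sgsOk 6 d.W d.gs d.s1 sg := ⟨k1, k2, k3, k4, k5, k6, k7, k8, k9, k10, k11, k12, k13, k14, trivial⟩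

theorem bound (L : Matrix (Fin 6) (Fin 6) ℝ) (hL : |L.det| = 1) {ν : ℝ} (hν : 0 < ν)
    (h1' : ∀ p : Fin 6 → ℤ, p ≠ 0 → ν ≤ |∏ i, L.mulVec (Opp.zr p) i|)
    (h2' : ∀ p : Fin 6 → ℤ, p ≠ 0 →
      ν ≤ |(L.mulVec (Opp.zr p) 0 + L.mulVec (Opp.zr p) (Fin.succ 0)) * ∏ i : Fin 5, L.mulVec (Opp.zr p) i.succ|) :
    ((2324383831108 : ℤ) : ℝ) * ν ≤ (d.mn : ℝ) / d.md * ((999981001942 : ℤ) : ℝ) :=
  final (k := 4) (D := 9) (l := sg) ok hs h1 okE okC (by decide) cc hA hB h00 hS L hL hν h1' h2'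

end Pool.Agent.Helper22.Opu.E6
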