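import Pool.Agent.Helper22.Opu.E6D

/-!
# Dimension 6: the cheap tests
-/

set_option autoImplicit false
set_option maxRecDepth 100000

namespace Pool.Agent.Helper22.Opu.E6

/-- the list of segments -/
def sg : List Sg := [g1, g2, g3, g4, g5, g6, g7, g8, g9, g10, g11, g12, g13, g14]

theorem ok : d.ok 6 := by
  unfold Dat.ok
  decide +kernel

theorem okC : d.celOk 6 := by
  unfold Dat.celOk
  decide +kernel

theorem h1 : ph1 d.p1 d.N1 d.W d.D 6 d.w0 d.s1 = true := by decide +kernel

theorem okE : d.okE 6 (lastS d.s1 sg) := by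
  unfold Dat.okE
  decide +kernel

theorem cc : connChk (9 + 1) tb qt rA rB = true := by decide +kernel

theorem hA : (elN 3 d.AsA).map (fun F => F.map Opp.nrm) = (accF 6 [] 0 rA).map (fun F => F.map Opp.nrm) := by
  decide +kernel

theorem hB : (elN 3 d.AsB).map (fun F => F.map Opp.nrm) = (accF 6 [] 0 rB).map (fun F => F.map Opp.nrm) := by
  decide +kernel

theorem h00 : tz tb 0 0 = 2324383831108 := by decide +kernel

theorem hS : pA (9 + 1) tb qt 0 0 = 999981001942 := by decide +kernel

end Pool.Agent.Helper22.Opu.E6
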