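import Pool.Agent.Helper22.Opu.Step

/-!
# The computation (natural numbers only)
-/

set_option autoImplicit false

namespace Pool.Agent.Helper22.Opu

open Pool.Agent.Helper22.Opp

/-- scalar product -/
def dotR (t v : List ℕ) : ℕ :=
  List.rec (motive := fun _ => List ℕ → ℕ) (fun _ => 0)
    (fun a _ ih v => List.rec (motive := fun _ => ℕ) 0 (fun b vs _ => Nat.add (Nat.mul a b) (ih vs)) v) t v

/-- sum -/
def sumR (v : List ℕ) : ℕ := List.rec (motive := fun _ => ℕ) 0 (fun a _ ih => Nat.add a ih) v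

/-- padded sum of lists -/
def addN : List ℕ → List ℕ → List ℕ
  | [], G => G
  | F, [] => F
  | c :: cs, d :: ds => (c + d) :: addN cs ds

/-- `a + 2 ^ s * b` -/
def addS (s : ℕ) (a b : List ℕ) : List ℕ := addN a (b.map fun t => 2 ^ s * t)

/-- packing of lists -/
def packL (s : ℕ) : List (List ℕ) → List ℕ
  | [] => []
  | F :: Fs => addS s F (packL s Fs)

/-- packing of numbers -/
def pk (s : ℕ) : List ℕ → ℕ
  | [] => 0
  | a :: as => a + 2 ^ s * pk s as

/-- the mask -/
def msk (s : ℕ) : ℕ → ℕ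
  | 0 => 0
  | n + 1 => 2 ^ (s - 1) + 2 ^ s * msk s n

/-- a list of pairs is forced -/
def forceP {α : Type} : List (ℕ × ℕ) → (List (ℕ × ℕ) → α) → α
  | [], f => f []
  | c :: cs, f => force c.1 fun a => force c.2 fun b => forceP cs fun cs' => f ((a, b) :: cs')

theorem forceP_eq {α : Type} : ∀ (l : List (ℕ × ℕ)) (f : List (ℕ × ℕ) → α), forceP l f = f l
  | [], _ => rfl
  | a :: as, f => by
    rw [forceP, force_eq, force_eq, forceP_eq as]

/-- first parts -/
def fsL (F : List (ℕ × ℕ)) : List ℕ := F.map fun p => p.1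

/-- second parts -/
def snL (F : List (ℕ × ℕ)) : List ℕ := F.map fun p => p.2

/-- the four functionals of the test on a cell, `a = 2 H` -/
def b0 (a : ℕ) (F : List (ℕ × ℕ)) : List (ℕ × ℕ) := (scl (24 * a ^ 4) F).map nrm
def b1 (a : ℕ) (F F1 : List (ℕ × ℕ)) : List (ℕ × ℕ) :=
  (addL (scl (24 * a ^ 4) F) (scl (8 * a ^ 3) F1)).map nrm
def b2 (a : ℕ) (F F1 F2 : List (ℕ × ℕ)) : List (ℕ × ℕ) :=
  (addL (addL (scl (24 * a ^ 4) F) (scl (16 * a ^ 3) F1)) (scl (4 * a ^ 2) F2)).map nrm
def b3 (a : ℕ) (F F1 F2 F3 : List (ℕ × ℕ)) : List (ℕ × ℕ) :=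
  (addL (addL (scl (24 * a ^ 4) F) (scl (24 * a ^ 3) F1)) (addL (scl (12 * a ^ 2) F2) (scl (4 * a) F3))).map nrm

/-- all entries at most `Cm`, length at most `L` -/
def bndL (Cm L : ℕ) (F : List ℕ) : Bool := Nat.ble F.length L && F.all fun c => Nat.ble c Cm

/-- all entries at most `Cm`, length at most `L` -/
def bndP (Cm L : ℕ) (F : List (ℕ × ℕ)) : Bool :=
  Nat.ble F.length L && F.all fun c => Nat.ble c.1 Cm && Nat.ble c.2 Cm

/-- preparation of a list of functionals -/
def prepK {α : Type} (s M a Cm L : ℕ) : List (List (ℕ × ℕ)) → (List ℕ → List ℕ → List ℕ → Option α) → Option α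
  | [], k => k [] [] []
  | F :: Fs, k => prepK s M a Cm L Fs fun P N R =>
    forceP F fun F0 => forceP (der2 M F0) fun F1 => forceP (der2 M F1) fun F2 => forceP (der2 M F2) fun F3 =>
    forceL (absL (der2 M F3)) fun R4 =>
    forceP (b0 a F0) fun E0 => forceP (b1 a F0 F1) fun E1 => forceP (b2 a F0 F1 F2) fun E2 =>
    forceP (b3 a F0 F1 F2 F3) fun E3 =>
    cond (bndP Cm L E0 && bndP Cm L E1 && bndP Cm L E2 && bndP Cm L E3 && bndL Cm L R4)
      (forceL (addS s (fsL E0) (addS s (fsL E1) (addS s (fsL E2) (addS s (fsL E3) P)))) fun P' =>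
       forceL (addS s (snL E0) (addS s (snL E1) (addS s (snL E2) (addS s (snL E3) N)))) fun N' =>
       forceL (addS s R4 (addS s R4 (addS s R4 (addS s R4 R)))) fun R' => k P' N' R') none

/-- a group of functionals with a window of weights -/
structure Grp where
  Fs : List (List (ℕ × ℕ))
  lo : ℕ
  hi : ℕ

/-- a prepared group -/
structure PG where
  P : List ℕ
  N : List ℕ
  R : List ℕ
  ms : ℕ
  lo : ℕ
  hi : ℕ

/-- preparation of a list of groups -/
def prepG {α : Type} (s M a Cm L : ℕ) : List Grp → (List PG → Option α) → Option α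
  | [], k => k []
  | g :: gs, k => prepG s M a Cm L gs fun Gs => prepK s M a Cm L g.Fs fun P N R =>
    force (msk s (4 * g.Fs.length)) fun ms => force g.lo fun lo => force g.hi fun hi =>
    k (⟨P, N, R, ms, lo, hi⟩ :: Gs)

/-- the test for a group -/
def tst (wu wl' : ℕ) (zl zu ze : List ℕ) (g : PG) : Bool :=
  Nat.blt wu g.lo || (Nat.blt g.hi wl' ||
    force (dotR g.P zl + g.ms - (dotR g.N zu + dotR g.R ze)) fun D => Nat.beq (Nat.land D g.ms) g.ms)

/-- auxiliary number for the crude bounds -/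
def hornT (R : ℕ) : ℕ → List ℕ → ℕ
  | acc, [] => acc
  | acc, v :: vs => hornT R (acc * R + v) vs

/-- crude bounds from the number `T` -/
def crL (R T : ℕ) : List ℕ → List ℕ
  | [] => []
  | _ :: vs => 2 * (T / R ^ vs.length + 1) :: crL R T vs

/-- the rows of a step -/
def rowsK {α : Type} (den : ℕ) : List (List ℕ × List ℕ) → List ℕ → List ℕ → List ℕ →
    (List ℕ → List ℕ → Option α) → Option α
  | [], _, _, _, k => k [] []
  | r :: rs, zl, zu, zc, k => force (dotR r.2 zc) fun e => force (dotR r.1 zl) fun p => force (dotR r.1 zu) fun q =>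
    cond (Nat.ble e p) (force ((p - e) / den) fun a => force ((q + e) / den + 1) fun b =>
      rowsK den rs zl zu zc fun as bs => k (a :: as) (b :: bs)) none

/-- one column -/
def colK {α : Type} (den W R Rz : ℕ) (rws : List (List ℕ × List ℕ)) (wl wu : ℕ) (a b : List ℕ)
    (k : List ℕ → List ℕ → List ℕ → List ℕ → Option α) : Option α :=
  forceL (zLo W wl Rz a) fun zl => forceL (zUp W wu Rz b) fun zu =>
  force (hornT R 0 b) fun T => forceL (crL R T b) fun bc => forceL (zUp W wu Rz bc) fun zc =>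
  rowsK den rws zl zu zc fun a' b' => k zl zu a' b'

/-- all columns -/
def colsK {α : Type} (den W R Rz : ℕ) (rws : List (List ℕ × List ℕ)) (wl wu : ℕ) : List (List ℕ × List ℕ) →
    (List (List ℕ × List ℕ) → Option α) → Option α
  | [], k => k []
  | c :: cs, k => colK den W R Rz rws wl wu c.1 c.2 fun _ _ a b =>
    colsK den W R Rz rws wl wu cs fun cs' => k ((a, b) :: cs')

/-- parameters of a segment -/
structure Par where
  H : ℕ
  den : ℕ
  W : ℕ
  R : ℕ
  Rz : ℕ
  rws : List (List ℕ × List ℕ)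

/-- first phase: `N` steps without tests -/
def run1 (p : Par) (N : ℕ) : List (List ℕ × List ℕ) → ℕ → ℕ → Option St :=
  Nat.rec (fun cs wl wu => some ⟨cs, wl, wu⟩)
    (fun _ ih cs wl wu => colsK p.den p.W p.R p.Rz p.rws wl wu cs fun cs' =>
      force (wLo p.H wl) fun wl' => force (wUp p.H wu) fun wu' => ih cs' wl' wu') N

/-- bounds on a cell from the bounds at the end -/
def endV (H : ℕ) (b : List ℕ) : List ℕ := b.map fun x => x + (x / H + 1)

/-- second phase: `N` steps with tests -/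
def run2 (p : Par) (Bh Cm : ℕ) (Gs : List PG) (N : ℕ) : List ℕ → List ℕ → ℕ → ℕ →
    Option (List ℕ × List ℕ × ℕ × ℕ) :=
  Nat.rec (fun a b wl wu => some (a, b, wl, wu))
    (fun _ ih a b wl wu => colK p.den p.W p.R p.Rz p.rws wl wu a b fun zl zu a' b' =>
      force (wLo p.H wl) fun wl' => force (wUp p.H wu) fun wu' =>
      forceL (zUp p.W wu p.Rz (endV p.H b')) fun ze =>
      cond (Nat.ble (Cm * (sumR zl + (sumR zu + sumR ze)) + 1) Bh && Gs.all fun g => tst wu wl' zl zu ze g)
        (ih a' b' wl' wu') none) N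

/-- a whole segment -/
def seg (p : Par) (s M Cm : ℕ) (gs : List Grp) (N : ℕ) (a b : List ℕ) (wl wu : ℕ) :
    Option (List ℕ × List ℕ × ℕ × ℕ) :=
  prepG s M (2 * p.H) Cm (p.Rz * M) gs fun Gs => run2 p (2 ^ (s - 1)) Cm Gs N a b wl wu

/-- unit functional -/
def unitF : ℕ → List (ℕ × ℕ)
  | 0 => [(1, 0)]
  | j + 1 => (0, 0) :: unitF j

/-- the test for the tables: row `j` is the Taylor polynomial of `y_j` with the list for the remainder -/
def rowChk (M H q L : ℕ) (r : List ℕ × List ℕ) (j : ℕ) : Bool :=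
  decide (r.1.map (fun c => (c, 0)) = (tay M H q (unitF j)).map nrm) &&
  decide (r.2 = absL (derI M q (unitF j))) && Nat.ble r.1.length L && Nat.ble r.2.length L

/-- all tests for the parameters -/
def parChk (M q : ℕ) (p : Par) : Bool :=
  Nat.beq p.den (dnm p.H q) && Nat.beq p.rws.length M && Nat.ble 1 p.R && Nat.ble (2 * p.R) p.H &&
  Nat.ble 1 p.W && (List.range M).all fun j => rowChk M p.H q (p.Rz * M) (p.rws.getD j ([], [])) j

end Pool.Agent.Helper22.Opu
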