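import Pool.Agent.Helper22.Opu.Cells

/-!
# Assembly
-/

set_option autoImplicit false

open Finset

namespace Pool.Agent.Helper22.Opu

open Pool.Agent.Helper22.Opp

/-- a state with one column -/
structure S1 where
  a : List ℕ
  b : List ℕ
  wl : ℕ
  wu : ℕ

/-- a segment of the second phase with its final state -/
structure Sg where
  p : Par
  q : ℕ
  s : ℕ
  Cm : ℕ
  N : ℕ
  o : S1

/-- all data -/
structure Dat where
  U : ℕ
  an : ℕ
  ad : ℕ
  Gd : ℕ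
  mn : ℕ
  md : ℕ
  AsA : List (List (ℕ × ℕ))
  AsB : List (List (ℕ × ℕ))
  cB : List Cel
  cC : List Cel
  cF : List Cel
  W : ℕ
  D : ℕ
  w0 : ℕ
  N1 : ℕ
  p1 : Par
  q1 : ℕ
  s1 : S1
  T : ℕ
  Rn : ℕ
  rL : List ℕ
  rT : List ℕ

/-- the groups -/
def Dat.gB (d : Dat) : Grp := ⟨d.cB.flatMap (celF d.U d.AsB), 0, d.s1.wu⟩

/-- the groups -/
def Dat.gs (d : Dat) : List Grp :=
  d.gB :: ((d.cC.map fun c => ⟨celF d.U d.AsA c, c.lo, d.s1.wu⟩) ++
    d.cF.map fun c => ⟨celF d.U d.AsA c, c.lo, c.hi⟩)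

/-- the groups which are active in a segment -/
def actG (wu wl : ℕ) (gs : List Grp) : List Grp := gs.filter fun g => Nat.ble g.lo wu && Nat.ble wl g.hi

/-- first phase with all its tests -/
def ph1 (p : Par) (N W D M w0 : ℕ) (s : S1) : Bool :=
  match run1 p N (idCols D M) (W * w0) (W * w0) with
  | some ⟨cols, wl', wu'⟩ => Nat.beq wl' s.wl && (Nat.beq wu' s.wu && mergeChk D cols s.a s.b)
  | none => false

/-- tests of a segment -/
def sgOk (M W : ℕ) (gs : List Grp) (st : S1) (g : Sg) : Prop :=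
  (parChk M g.q g.p = true ∧ g.p.W = W ∧ 0 < g.s ∧ st.wu ≤ g.p.W * g.p.R ^ M) ∧
  seg g.p g.s M g.Cm (actG st.wu g.o.wl gs) g.N st.a st.b st.wl st.wu = some (g.o.a, g.o.b, g.o.wl, g.o.wu)

/-- tests of a chain of segments -/
def sgsOk (M W : ℕ) (gs : List Grp) : S1 → List Sg → Prop
  | _, [] => True
  | st, g :: l => sgOk M W gs st g ∧ sgsOk M W gs g.o l

/-- last state -/
def lastS : S1 → List Sg → S1
  | st, [] => st
  | _, g :: l => lastS g.o l

/-- the cheap tests -/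
def Dat.ok (d : Dat) (M : ℕ) : Prop :=
  parChk M d.q1 d.p1 = true ∧ d.p1.W = d.W ∧ 0 < d.D ∧ 0 < d.w0 ∧ d.w0 ≤ d.p1.R ^ M ∧
  d.s1.a.length = M ∧ d.s1.b.length = M ∧
  0 < d.T ∧ 0 < d.Rn ∧ lowOk d.T M d.Rn d.W d.s1.wl d.rL = true ∧
  (d.gB.Fs.all fun F => lowChk d.T M d.rL 0 0 F) = true ∧
  (d.cC.all fun c => (celF d.U d.AsA c).all fun F => lowChk d.T M d.rL 0 0 F) = true ∧
  (d.cF.all fun c => Nat.blt c.hi d.s1.wl) = true

/-- tests at the end -/
def Dat.okE (d : Dat) (M : ℕ) (e : S1) : Prop :=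
  tailOkU d.T M d.W e.wu d.rT e.a e.b = true ∧
  (d.gB.Fs.all fun F => Nat.beq (tailN d.T M d.rT 0 F) 0) = true ∧
  (d.cC.all fun c => Nat.blt e.wu c.lo) = true ∧ (d.cF.all fun c => Nat.blt e.wu c.lo) = true

noncomputable section

variable {m : ℕ} {y : ℕ → ℝ → ℝ}

lemma sgs_sound (hy : SolU m y) {W : ℕ} {gs : List Grp} {Y : ℝ} : ∀ (l : List Sg) (st : S1) (x : ℝ)
    (_ : sgsOk (m + 1) W gs st l) (_ : Inv1 m W y Y x st.a st.b st.wl st.wu),
    ∃ x', x ≤ x' ∧ Inv1 m W y Y x' (lastS st l).a (lastS st l).b (lastS st l).wl (lastS st l).wu ∧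
      ∀ g ∈ gs, ∀ F ∈ g.Fs, ∀ z, x ≤ z → z < x' → (g.lo : ℝ) ≤ W * E z → W * E z ≤ g.hi →
        0 ≤ evA (zz m y z) 0 F
  | [], st, x, _, hI => ⟨x, le_rfl, hI, fun g _ F _ z h1 h2 => by linarith⟩
  | g :: l, st, x, h, hI => by
    obtain ⟨⟨⟨h1, h2, h3, h4⟩, h5⟩, h6⟩ := h
    have hp := parOK_of_chk h1
    have hW := hp.W
    rw [h2] at hW
    have hW' : (0 : ℝ) < W := by exact_mod_cast hW
    have hH : (0 : ℝ) < g.p.H := by exact_mod_cast hp.H
    have hI' : Inv1 m g.p.W y Y x st.a st.b st.wl st.wu := by rw [h2]; exact hI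
    obtain ⟨j1, j2⟩ := seg_sound hp hy h3 hI' h4 h5
    rw [h2] at j1 j2
    obtain ⟨x', k1, k2, k3⟩ := sgs_sound hy l g.o (x + g.N / g.p.H) h6 j1
    have hx : x ≤ x + g.N / g.p.H := by
      have : (0 : ℝ) ≤ (g.N : ℝ) / g.p.H := by positivity
      linarith
    refine ⟨x', hx.trans k1, k2, ?_⟩
    intro gg hgg F hF z z1 z2 z3 z4
    rcases lt_or_ge z (x + g.N / g.p.H) with h7 | h7
    · refine j2 gg ?_ F hF z z1 h7 z3 z4
      unfold actG
      rw [List.mem_filter]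
      refine ⟨hgg, ?_⟩
      have e1 : W * E z ≤ W * E x := mul_le_mul_of_nonneg_left (E_anti z1) hW'.le
      have e2 : W * E (x + g.N / g.p.H) ≤ W * E z := mul_le_mul_of_nonneg_left (E_anti h7.le) hW'.le
      have e3 : gg.lo ≤ st.wu := by
        have : (gg.lo : ℝ) ≤ st.wu := z3.trans (e1.trans hI.wu)
        exact_mod_cast this
      have e4 : g.o.wl ≤ gg.hi := by
        have : (g.o.wl : ℝ) ≤ gg.hi := j1.wl.trans (e2.trans z4)
        exact_mod_cast this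
      rw [Bool.and_eq_true]
      exact ⟨Nat.ble_eq_true_of_le e3, Nat.ble_eq_true_of_le e4⟩
    · exact k3 gg hgg F hF z h7 z2 z3 z4

/-- the three families of inequalities -/
theorem numeric {k : ℕ} {d : Dat} {l : List Sg} (ok : d.ok (k + 2)) (hs : sgsOk (k + 2) d.W d.gs d.s1 l)
    (p1 : ph1 d.p1 d.N1 d.W d.D (k + 2) d.w0 d.s1 = true) (okE : d.okE (k + 2) (lastS d.s1 l)) :
    0 < d.W ∧
    (∀ F ∈ d.gB.Fs, ∀ x, 0 ≤ evA (zz (k + 1) (K (k := k)) x) 0 F) ∧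
    (∀ c ∈ d.cC, ∀ F ∈ celF d.U d.AsA c, ∀ x, (c.lo : ℝ) ≤ d.W * E x →
      0 ≤ evA (zz (k + 1) (K (k := k)) x) 0 F) ∧
    (∀ c ∈ d.cF, ∀ F ∈ celF d.U d.AsA c, ∀ x, (c.lo : ℝ) ≤ d.W * E x → d.W * E x ≤ c.hi →
      0 ≤ evA (zz (k + 1) (K (k := k)) x) 0 F) := by
  obtain ⟨o1, o2, o3, o4, o5, o6, o7, o8, o9, o10, o11, o12, o13⟩ := ok
  obtain ⟨q1, q2, q3, q4⟩ := okE
  have hy := sol_K k
  have hp := parOK_of_chk (m := k + 1) o1
  have hW := hp.W
  rw [o2] at hW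
  have hW' : (0 : ℝ) < d.W := by exact_mod_cast hW
  have hw0' : (0 : ℝ) < d.w0 := by exact_mod_cast o4
  -- start
  set x0 : ℝ := -Real.log (4 * d.w0) with hx0
  have hE0 : E x0 = d.w0 := by
    unfold E
    rw [hx0, neg_neg, Real.exp_log (by positivity)]; ring
  have I0 := inv_init (W := d.W) hy o3 hE0
  set x1 : ℝ := x0 + d.N1 / d.p1.H with hx1
  have hE1 : E x0 ≤ (d.p1.R : ℝ) ^ (k + 1 + 1) := by
    rw [hE0]; exact_mod_cast o5
  have J1 : Inv1 (k + 1) d.W (K (k := k)) (K (k := k) 0 x1 / d.D) x1 d.s1.a d.s1.b d.s1.wl d.s1.wu := by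
    unfold ph1 at p1
    split at p1
    · rename_i cols wl' wu' hrun
      rw [Bool.and_eq_true, Bool.and_eq_true] at p1
      obtain ⟨r1, r2, r3⟩ := p1
      have r1 := Nat.eq_of_beq_eq_true r1
      have r2 := Nat.eq_of_beq_eq_true r2
      have I1 := run1_sound hp hy d.N1 x0 _ _ _ _ (by rw [o2]; exact I0) hE1 hrun
      simp only at I1
      rw [o2] at I1
      have := merge_sound hy I1 o3 (a := d.s1.a) (b := d.s1.b) o6 o7 r3
      rw [inv1_iff] at this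
      rw [r1, r2] at this
      exact this
    · exact absurd p1 (by simp)
  set Y : ℝ := K (k := k) 0 x1 / d.D with hY
  have hD' : (0 : ℝ) < d.D := by exact_mod_cast o3
  have hY0 : 0 < Y := div_pos (hy.pos _ (Nat.zero_le _) _) hD'
  obtain ⟨xe, f1, f2, f3⟩ := sgs_sound hy l d.s1 x1 hs J1
  set e := lastS d.s1 l with he
  have wE : ∀ x, x1 ≤ x → d.W * E x ≤ d.s1.wu := fun x hx =>
    (mul_le_mul_of_nonneg_left (E_anti hx) hW'.le).trans J1.wu
  have wE1 : ∀ x, x ≤ x1 → (d.s1.wl : ℝ) ≤ d.W * E x := fun x hx =>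
    J1.wl.trans (mul_le_mul_of_nonneg_left (E_anti hx) hW'.le)
  have wEe : ∀ x, xe ≤ x → d.W * E x ≤ e.wu := fun x hx =>
    (mul_le_mul_of_nonneg_left (E_anti hx) hW'.le).trans f2.wu
  rw [List.all_eq_true] at o11 o12 o13 q2 q3 q4
  refine ⟨hW, ?_, ?_, ?_⟩
  · intro F hF x
    rcases le_or_gt x x1 with h | h
    · exact low_region hy o8 hW o9 J1.wl o10 (ham_K k) (o11 F hF) h
    · rcases lt_or_ge x xe with h2 | h2
      · refine f3 d.gB (by simp [Dat.gs]) F hF x h.le h2 ?_ ?_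
        · have : (d.gB.lo : ℝ) = 0 := by simp [Dat.gB]
          rw [this]; exact (mul_pos hW' (E_pos x)).le
        · exact wE x h.le
      · exact tail_region (by omega) hy o8 hW hY0 f2 q1 (Nat.eq_of_beq_eq_true (q2 F hF)) h2
  · intro c hc F hF x hx
    have h12 := o12 c hc
    rw [List.all_eq_true] at h12
    rcases le_or_gt x x1 with h | h
    · exact low_region hy o8 hW o9 J1.wl o10 (ham_K k) (h12 F hF) h
    · rcases lt_or_ge x xe with h2 | h2
      · refine f3 ⟨celF d.U d.AsA c, c.lo, d.s1.wu⟩ ?_ F hF x h.le h2 hx (wE x h.le)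
        unfold Dat.gs
        rw [List.mem_cons, List.mem_append]
        exact Or.inr (Or.inl (List.mem_map.2 ⟨c, hc, rfl⟩))
      · exfalso
        have h3 : e.wu < c.lo := Nat.le_of_ble_eq_true (q3 c hc)
        have h4 : (e.wu : ℝ) < c.lo := by exact_mod_cast h3
        have := wEe x h2
        linarith
  · intro c hc F hF x hx hx'
    rcases le_or_gt x x1 with h | h
    · exfalso
      have h3 : c.hi < d.s1.wl := Nat.le_of_ble_eq_true (o13 c hc)
      have h4 : (c.hi : ℝ) < d.s1.wl := by exact_mod_cast h3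
      have := wE1 x h
      linarith
    · rcases lt_or_ge x xe with h2 | h2
      · refine f3 ⟨celF d.U d.AsA c, c.lo, c.hi⟩ ?_ F hF x h.le h2 hx hx'
        unfold Dat.gs
        rw [List.mem_cons, List.mem_append]
        exact Or.inr (Or.inr (List.mem_map.2 ⟨c, hc, rfl⟩))
      · exfalso
        have h3 : e.wu < c.lo := Nat.le_of_ble_eq_true (q4 c hc)
        have h4 : (e.wu : ℝ) < c.lo := by exact_mod_cast h3
        have := wEe x h2
        linarith

/-- the tests for the cells -/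
def Dat.celOk (d : Dat) (n : ℕ) : Prop :=
  0 < d.U ∧ 0 < d.ad ∧ 0 < d.Gd ∧ 0 < d.mn ∧ 0 < d.md ∧
  chainOk d.U 0 d.cB = true ∧ chainOk d.U 0 d.cC = true ∧ chainOk d.U 0 d.cF = true ∧
  (d.cF.all fun c => gamOk d.U d.an d.ad d.Gd c && (thrOk n d.W d.Gd d.mn d.md c && parOk d.cC c)) = true

/-- the sign conditions for the averages -/
theorem signs {k D : ℕ} {d : Dat} {l : List Sg} (ok : d.ok (k + 2)) (hs : sgsOk (k + 2) d.W d.gs d.s1 l)
    (p1 : ph1 d.p1 d.N1 d.W d.D (k + 2) d.w0 d.s1 = true) (okE : d.okE (k + 2) (lastS d.s1 l))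
    (okC : d.celOk (k + 2)) {tb qt : List (List ℤ)} {rA rB : List (List (ℕ × ℕ))} {eA eB : ℕ}
    (hc : connChk (D + 1) tb qt rA rB = true)
    (hA : (elN eA d.AsA).map (fun F => F.map nrm) = (accF (k + 2) [] 0 rA).map (fun F => F.map nrm))
    (hB : (elN eB d.AsB).map (fun F => F.map nrm) = (accF (k + 2) [] 0 rB).map (fun F => F.map nrm)) :
    (∀ C S : ℝ, 0 ≤ C → 0 ≤ S → C + S = 1 → ∀ x, 0 ≤ HB2 k D (cfz tb) C S x) ∧
    (∀ C S P : ℝ, 0 ≤ C → 0 ≤ S → C + S = 1 → 0 < P →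
      (d.mn : ℝ) / d.md ≤ |Real.sqrt (C * S) - (d.an : ℝ) / d.ad * S| * P →
      HA2 k D (cfz tb) C S (-Real.log (Real.pi ^ (k + 2) * P ^ 2)) ≤ 0) := by
  obtain ⟨hW, nB, nC, nF⟩ := numeric ok hs p1 okE
  obtain ⟨c1, c2, c3, c4, c5, c6, c7, c8, c9⟩ := okC
  have hU' : (0 : ℝ) < d.U := by exact_mod_cast c1
  rw [List.all_eq_true] at c9
  have hrange : ∀ C S : ℝ, 0 ≤ C → 0 ≤ S → C + S = 1 → ((0 : ℕ) : ℝ) ≤ d.U * C ∧ d.U * C ≤ d.U := by
    intro C S hC hS hCS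
    refine ⟨by push_cast; positivity, ?_⟩
    have : C ≤ 1 := by linarith
    nlinarith
  constructor
  · intro C S hC hS hCS x
    rw [(connect2 hc hA hB hCS x).2]
    obtain ⟨r1, r2⟩ := hrange C S hC hS hCS
    obtain ⟨c, hcm, h0, h1⟩ := exists_cell r2 c6 r1 c1
    obtain ⟨h01, h1U⟩ := (chain_le c6).2 c hcm
    refine cell_nonneg c1 h01 h1U (fun F hF => nB F ?_ x) hCS h0 h1
    unfold Dat.gB
    simp only [List.mem_flatMap]
    exact ⟨c, hcm, hF⟩
  · intro C S P hC hS hCS hP hm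
    rw [(connect2 hc hA hB hCS _).1]
    set x := -Real.log (Real.pi ^ (k + 2) * P ^ 2) with hx
    have hEx : E x = Real.pi ^ (k + 2) * P ^ 2 / 4 := by
      unfold E
      rw [hx, neg_neg, Real.exp_log (by have := Real.pi_pos; positivity)]
    obtain ⟨r1, r2⟩ := hrange C S hC hS hCS
    obtain ⟨c, hcm, h0, h1⟩ := exists_cell r2 c8 r1 c1
    obtain ⟨h01, h1U⟩ := (chain_le c8).2 c hcm
    have h9 := c9 c hcm
    rw [Bool.and_eq_true, Bool.and_eq_true] at h9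
    obtain ⟨g1, g2, g3⟩ := h9
    have hg := gam_sound c1 c2 c3 h01 h1U g1 hC hS hCS h0 h1
    have ht := thr_sound c3 c4 c5 g2 hP.le hg hm
    rw [← hEx] at ht
    have key : 0 ≤ hevF (zz (k + 1) (K (k := k)) x) S C d.AsA := by
      rcases le_or_gt (d.W * E x) c.hi with h2 | h2
      · exact cell_nonneg c1 h01 h1U (fun F hF => nF c hcm F hF x ht h2) hCS h0 h1
      · unfold parOk at g3
        rw [Bool.and_eq_true, Bool.and_eq_true, Bool.and_eq_true] at g3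
        obtain ⟨b1, b2, b3, b4⟩ := g3
        have b1 : c.J < d.cC.length := Nat.le_of_ble_eq_true b1
        have b2 := Nat.le_of_ble_eq_true b2
        have b3 := Nat.le_of_ble_eq_true b3
        have b4 := Nat.le_of_ble_eq_true b4
        have hmem := getD_mem d.cC ⟨0, 0, 0, 0, 0, 0⟩ b1
        set cc := d.cC.getD c.J ⟨0, 0, 0, 0, 0, 0⟩ with hcc
        obtain ⟨k01, k1U⟩ := (chain_le c7).2 cc hmem
        refine cell_nonneg c1 k01 k1U (fun F hF => nC cc hmem F hF x ?_) hCS ?_ ?_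
        · have : (cc.lo : ℝ) ≤ c.hi := by exact_mod_cast b4
          linarith
        · have : (cc.c0 : ℝ) ≤ c.c0 := by exact_mod_cast b2
          linarith
        · have : (c.c1 : ℝ) ≤ cc.c1 := by exact_mod_cast b3
          linarith
    linarith

end

end Pool.Agent.Helper22.Opu
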