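import Pool.Agent.Helper22.Opu.LP
import Pool.Agent.Helper22.Opu.Base

/-!
# Forms in two angular variables with functionals as coefficients
-/

set_option autoImplicit false

open Finset

namespace Pool.Agent.Helper22.Opu

open Pool.Agent.Helper22.Opp

/-! ### operations -/

/-- sum of two forms -/
def addF : List (List (ℕ × ℕ)) → List (List (ℕ × ℕ)) → List (List (ℕ × ℕ))
  | [], G => G
  | F, [] => F
  | c :: cs, d :: ds => addL c d :: addF cs ds

/-- multiplication by the sum of the variables -/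
def elF : List (ℕ × ℕ) → List (List (ℕ × ℕ)) → List (List (ℕ × ℕ))
  | prev, [] => [prev]
  | prev, A :: l => addL A prev :: elF A l

/-- repeated multiplication -/
def elN : ℕ → List (List (ℕ × ℕ)) → List (List (ℕ × ℕ))
  | 0, l => l
  | n + 1, l => elF [] (elN n l)

/-- the moments as functionals -/
def lG (M : ℕ) : ℕ → List (ℕ × ℕ)
  | 0 => [(1, 0)]
  | j + 1 => (addL (der2 M (lG M j)) (smulP (j, 0) (lG M j))).map nrm

/-- a row of coefficients times the moment -/
def rowF (M k : ℕ) (r : List (ℕ × ℕ)) : List (List (ℕ × ℕ)) := r.map fun c => smulP c (lG M k)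

/-- the sum of all rows, lifted to the same degree -/
def accF (M : ℕ) : List (List (ℕ × ℕ)) → ℕ → List (List (ℕ × ℕ)) → List (List (ℕ × ℕ))
  | A, _, [] => A
  | A, k, r :: rs => accF M (addF (elF [] A) (rowF M k r)) (k + 1) rs

/-- the row of degree `k` has `k + 1` entries -/
def rowsOk : ℕ → List (List (ℕ × ℕ)) → Bool
  | _, [] => true
  | k, r :: rs => Nat.beq r.length (k + 1) && rowsOk (k + 1) rs

/-- multiplication of a form with natural coefficients by `a τ + b t` -/
def mulC (a b : ℕ) : ℕ → List ℕ → List ℕ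
  | prev, [] => [b * prev]
  | prev, c :: l => (a * c + b * prev) :: mulC a b c l

/-- coefficients of `(s0 τ + s1 t) ^ j` -/
def eC0 (s0 s1 : ℕ) : ℕ → List ℕ
  | 0 => [1]
  | j + 1 => mulC s0 s1 0 (eC0 s0 s1 j)

/-- coefficients of `(c0 τ + c1 t) ^ i (s0 τ + s1 t) ^ j` -/
def eC (c0 c1 s0 s1 : ℕ) : ℕ → ℕ → List ℕ
  | 0, j => eC0 s0 s1 j
  | i + 1, j => mulC c0 c1 0 (eC c0 c1 s0 s1 i j)

/-- a functional times a form -/
def smE (E : List ℕ) (A : List (ℕ × ℕ)) : List (List (ℕ × ℕ)) := E.map fun e => smulP (e, 0) A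

/-- restriction to a cell -/
def cellL (c0 c1 s0 s1 : ℕ) : ℕ → List (List (ℕ × ℕ)) → List (List (ℕ × ℕ))
  | i, [] => List.replicate i []
  | i, A :: As => addF (smE (eC c0 c1 s0 s1 i As.length) A) (cellL c0 c1 s0 s1 (i + 1) As)

noncomputable section

/-- value of a form: the entry `i` multiplies `C ^ i S ^ (len - 1 - i)` -/
def hevF (Z : ℕ → ℝ) (S C : ℝ) : List (List (ℕ × ℕ)) → ℝ
  | [] => 0
  | F :: l => evA Z 0 F * S ^ l.length + C * hevF Z S C l

/-- value of a form with coefficients given by pairs -/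
def hv (S C : ℝ) : List (ℕ × ℕ) → ℝ
  | [] => 0
  | c :: l => ((c.1 : ℝ) - c.2) * S ^ l.length + C * hv S C l

/-- value of a form with natural coefficients -/
def hevN (τ t : ℝ) : List ℕ → ℝ
  | [] => 0
  | c :: l => (c : ℝ) * τ ^ l.length + t * hevN τ t l

variable {Z : ℕ → ℝ} {S C : ℝ}

lemma length_addF : ∀ {X Y : List (List (ℕ × ℕ))} (_ : X.length = Y.length), (addF X Y).length = X.length
  | [], Y, h => by simpa [addF] using h.symm
  | c :: cs, [], h => by simp at h
  | c :: cs, d :: ds, h => by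
    simp only [List.length_cons, Nat.add_right_cancel_iff] at h
    simp only [addF, List.length_cons, length_addF h]

lemma hevF_addF : ∀ {X Y : List (List (ℕ × ℕ))} (_ : X.length = Y.length),
    hevF Z S C (addF X Y) = hevF Z S C X + hevF Z S C Y
  | [], Y, h => by
    have : Y = [] := List.length_eq_zero_iff.1 h.symm
    subst this
    simp [addF, hevF]
  | c :: cs, [], h => by simp at h
  | c :: cs, d :: ds, h => by
    simp only [List.length_cons, Nat.add_right_cancel_iff] at h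
    simp only [addF, hevF, hevF_addF h, length_addF h, evA_addL]
    rw [← h]; ring

lemma length_elF : ∀ (l : List (List (ℕ × ℕ))) (prev : List (ℕ × ℕ)), (elF prev l).length = l.length + 1
  | [], _ => rfl
  | A :: l, prev => by simp only [elF, List.length_cons, length_elF l A]

lemma hevF_elF : ∀ (l : List (List (ℕ × ℕ))) (prev : List (ℕ × ℕ)),
    hevF Z S C (elF prev l) = (S + C) * hevF Z S C l + evA Z 0 prev * S ^ l.length
  | [], prev => by simp [elF, hevF]
  | A :: l, prev => by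
    simp only [elF, hevF, hevF_elF l A, length_elF, evA_addL, List.length_cons, pow_succ]
    ring

lemma hevF_elF' (h : C + S = 1) (l : List (List (ℕ × ℕ))) : hevF Z S C (elF [] l) = hevF Z S C l := by
  rw [hevF_elF]
  have : S + C = 1 := by linarith
  rw [this]
  simp [evA]

lemma hevF_elN (h : C + S = 1) : ∀ (n : ℕ) (l : List (List (ℕ × ℕ))), hevF Z S C (elN n l) = hevF Z S C l
  | 0, _ => rfl
  | n + 1, l => by rw [elN, hevF_elF' h, hevF_elN h n l]

lemma hevF_nrm : ∀ (l : List (List (ℕ × ℕ))), hevF Z S C (l.map fun F => F.map nrm) = hevF Z S C l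
  | [] => rfl
  | F :: l => by
    simp only [List.map_cons, hevF, List.length_map, evA_nrm, hevF_nrm l]

lemma hevF_map_smulP (A : List (ℕ × ℕ)) : ∀ (r : List (ℕ × ℕ)),
    hevF Z S C (r.map fun c => smulP c A) = evA Z 0 A * hv S C r
  | [] => by simp [hevF, hv]
  | c :: r => by
    simp only [List.map_cons, hevF, hv, List.length_map, evA_smulP, hevF_map_smulP A r]
    ring

lemma evA_lG {k : ℕ} : ∀ (j : ℕ) (x : ℝ), evA (zz (k + 1) (K (k := k)) x) 0 (lG (k + 2) j) = G k j x
  | 0, x => by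
    rw [G_zero, lG]
    simp only [evA]
    unfold zz
    rw [zv_small _ _ (show 0 < k + 1 + 1 by omega)]
    push_cast; ring
  | j + 1, x => by
    have h1 := hasDerivAt_ev (sol_K k) (lG (k + 2) j) x
    have h2 : (fun x => evA (zz (k + 1) (K (k := k)) x) 0 (lG (k + 2) j)) = G k j := funext fun x => evA_lG j x
    rw [h2] at h1
    have h3 := h1.unique (hasDerivAt_G k j x)
    rw [show k + 1 + 1 = k + 2 from rfl] at h3
    rw [lG, evA_nrm, evA_addL, evA_smulP, evA_lG j x]
    push_cast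
    linarith

/-- value of the rows -/
def vS (k : ℕ) (S C x : ℝ) : ℕ → List (List (ℕ × ℕ)) → ℝ
  | _, [] => 0
  | j, r :: rs => G k j x * hv S C r + vS k S C x (j + 1) rs

lemma hevF_accF {k : ℕ} (h : C + S = 1) (x : ℝ) : ∀ (rs : List (List (ℕ × ℕ))) (A : List (List (ℕ × ℕ))) (j : ℕ)
    (_ : A.length = j) (_ : rowsOk j rs = true),
    hevF (zz (k + 1) (K (k := k)) x) S C (accF (k + 2) A j rs) =
      hevF (zz (k + 1) (K (k := k)) x) S C A + vS k S C x j rs
  | [], A, j, _, _ => by simp [accF, vS]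
  | r :: rs, A, j, hA, hr => by
    rw [rowsOk, Bool.and_eq_true] at hr
    have hl : r.length = j + 1 := Nat.eq_of_beq_eq_true hr.1
    have hle : (elF [] A).length = (rowF (k + 2) j r).length := by
      rw [length_elF, hA]; unfold rowF; rw [List.length_map, hl]
    rw [accF, hevF_accF h x rs _ (j + 1) (by rw [length_addF hle, length_elF, hA]) hr.2, hevF_addF hle,
      hevF_elF' h]
    unfold rowF
    rw [hevF_map_smulP, evA_lG, vS]
    ring

/-- entries of a row -/
def cv (r : List (ℕ × ℕ)) (i : ℕ) : ℝ := ((r.getD i (0, 0)).1 : ℝ) - (r.getD i (0, 0)).2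

lemma hv_eq : ∀ (r : List (ℕ × ℕ)), hv S C r = ∑ i ∈ range r.length, cv r i * (C ^ i * S ^ (r.length - 1 - i))
  | [] => by simp [hv]
  | c :: l => by
    rw [hv, hv_eq l, List.length_cons, sum_range_succ', mul_sum]
    simp only [pow_zero, one_mul, Nat.add_sub_cancel, Nat.sub_zero]
    rw [add_comm]
    congr 1
    refine sum_congr rfl fun i hi => ?_
    rw [mem_range] at hi
    have e1 : cv (c :: l) (i + 1) = cv l i := by simp [cv]
    rw [e1, show l.length - (i + 1) = l.length - 1 - i by omega, pow_succ]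
    ring

lemma vS_eq {k : ℕ} {x : ℝ} : ∀ (rs : List (List (ℕ × ℕ))) (j : ℕ) (_ : rowsOk j rs = true),
    vS k S C x j rs = ∑ l ∈ range rs.length, ∑ i ∈ range (j + l + 1),
      cv (rs.getD l []) i * (C ^ i * S ^ (j + l - i)) * G k (j + l) x
  | [], j, _ => by simp [vS]
  | r :: rs, j, hr => by
    rw [rowsOk, Bool.and_eq_true] at hr
    have hl : r.length = j + 1 := Nat.eq_of_beq_eq_true hr.1
    rw [vS, vS_eq rs (j + 1) hr.2, List.length_cons, sum_range_succ', add_comm, hv_eq, hl]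
    congr 1
    · refine sum_congr rfl fun l _ => ?_
      rw [show j + (l + 1) = j + 1 + l by omega]
      simp
    · rw [mul_sum]
      simp only [Nat.add_zero, List.getD_cons_zero, Nat.add_sub_cancel]
      refine sum_congr rfl fun i _ => ?_
      ring

/-! ### restriction to a cell -/

lemma length_mulC (a b : ℕ) : ∀ (l : List ℕ) (prev : ℕ), (mulC a b prev l).length = l.length + 1
  | [], _ => rfl
  | c :: l, prev => by simp only [mulC, List.length_cons, length_mulC a b l c]

lemma hevN_mulC (τ t : ℝ) (a b : ℕ) : ∀ (l : List ℕ) (prev : ℕ),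
    hevN τ t (mulC a b prev l) = (a * τ + b * t) * hevN τ t l + b * prev * τ ^ l.length
  | [], prev => by simp [mulC, hevN]
  | c :: l, prev => by
    simp only [mulC, hevN, hevN_mulC τ t a b l c, length_mulC, List.length_cons, pow_succ]
    push_cast; ring

lemma length_eC0 (s0 s1 : ℕ) : ∀ j : ℕ, (eC0 s0 s1 j).length = j + 1
  | 0 => by simp [eC0]
  | j + 1 => by rw [eC0, length_mulC, length_eC0 s0 s1 j]

lemma length_eC (c0 c1 s0 s1 : ℕ) : ∀ (i j : ℕ), (eC c0 c1 s0 s1 i j).length = i + j + 1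
  | 0, j => by rw [eC, length_eC0]; omega
  | i + 1, j => by rw [eC, length_mulC, length_eC c0 c1 s0 s1 i j]; omega

lemma hevN_eC0 (τ t : ℝ) (s0 s1 : ℕ) : ∀ j : ℕ, hevN τ t (eC0 s0 s1 j) = (s0 * τ + s1 * t) ^ j
  | 0 => by simp [eC0, hevN]
  | j + 1 => by rw [eC0, hevN_mulC, hevN_eC0 τ t s0 s1 j]; push_cast; ring

lemma hevN_eC (τ t : ℝ) (c0 c1 s0 s1 : ℕ) : ∀ (i j : ℕ), hevN τ t (eC c0 c1 s0 s1 i j) =
    (c0 * τ + c1 * t) ^ i * (s0 * τ + s1 * t) ^ j
  | 0, j => by rw [eC, hevN_eC0, pow_zero, one_mul]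
  | i + 1, j => by rw [eC, hevN_mulC, hevN_eC τ t c0 c1 s0 s1 i j]; push_cast; ring

lemma hevF_smE (τ t : ℝ) (A : List (ℕ × ℕ)) : ∀ (E : List ℕ), hevF Z τ t (smE E A) = evA Z 0 A * hevN τ t E
  | [] => by simp [smE, hevF, hevN]
  | e :: E => by
    have ih := hevF_smE τ t A E
    unfold smE at ih ⊢
    rw [List.map_cons, hevF, hevN, ih, evA_smulP, List.length_map]
    push_cast; ring

lemma hevF_replicate (τ t : ℝ) : ∀ i : ℕ, hevF Z τ t (List.replicate i []) = 0
  | 0 => rfl
  | i + 1 => by rw [List.replicate_succ, hevF, hevF_replicate τ t i]; simp [evA]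

lemma length_cellL (c0 c1 s0 s1 : ℕ) : ∀ (As : List (List (ℕ × ℕ))) (i : ℕ),
    (cellL c0 c1 s0 s1 i As).length = i + As.length
  | [], i => by simp [cellL]
  | A :: As, i => by
    have ih := length_cellL c0 c1 s0 s1 As (i + 1)
    have h1 : (smE (eC c0 c1 s0 s1 i As.length) A).length = (cellL c0 c1 s0 s1 (i + 1) As).length := by
      unfold smE; rw [List.length_map, length_eC, ih]; omega
    rw [cellL, length_addF h1, h1, ih, List.length_cons]; omega

lemma hevF_cellL (τ t : ℝ) (c0 c1 s0 s1 : ℕ) : ∀ (As : List (List (ℕ × ℕ))) (i : ℕ),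
    hevF Z τ t (cellL c0 c1 s0 s1 i As) =
      (c0 * τ + c1 * t) ^ i * hevF Z (s0 * τ + s1 * t) (c0 * τ + c1 * t) As
  | [], i => by simp [cellL, hevF_replicate, hevF]
  | A :: As, i => by
    have h1 : (smE (eC c0 c1 s0 s1 i As.length) A).length = (cellL c0 c1 s0 s1 (i + 1) As).length := by
      unfold smE; rw [List.length_map, length_eC, length_cellL]; omega
    rw [cellL, hevF_addF h1, hevF_cellL τ t c0 c1 s0 s1 As (i + 1), hevF_smE, hevN_eC, hevF]
    ring

lemma hevF_nonneg {τ t : ℝ} (hτ : 0 ≤ τ) (ht : 0 ≤ t) : ∀ (l : List (List (ℕ × ℕ)))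
    (_ : ∀ F ∈ l, 0 ≤ evA Z 0 F), 0 ≤ hevF Z τ t l
  | [], _ => le_rfl
  | F :: l, h => by
    rw [hevF]
    have h1 := h F (by simp)
    have h2 := hevF_nonneg hτ ht l fun G hG => h G (by simp [hG])
    positivity

lemma hevF_hom (U : ℝ) : ∀ (l : List (List (ℕ × ℕ))),
    U * hevF Z (U * S) (U * C) l = U ^ l.length * hevF Z S C l
  | [] => by simp [hevF]
  | F :: l => by
    have ih := hevF_hom U l
    rw [hevF, hevF, List.length_cons]
    have e : U * (U * C * hevF Z (U * S) (U * C) l) = U * C * (U * hevF Z (U * S) (U * C) l) := by ring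
    rw [mul_add, e, ih, mul_pow]
    ring

/-- nonnegativity on a cell -/
lemma cell_nonneg {U c0 c1 : ℕ} (hU : 0 < U) (h01 : c0 < c1) (h1U : c1 ≤ U) {As : List (List (ℕ × ℕ))}
    (hF : ∀ F ∈ cellL c0 c1 (U - c0) (U - c1) 0 As, 0 ≤ evA Z 0 F)
    (hCS : C + S = 1) (h0 : (c0 : ℝ) ≤ U * C) (h1 : U * C ≤ c1) : 0 ≤ hevF Z S C As := by
  have hU' : (0 : ℝ) < U := by exact_mod_cast hU
  have hd : (0 : ℝ) < (c1 : ℝ) - c0 := by
    have : (c0 : ℝ) < c1 := by exact_mod_cast h01
    linarith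
  set τ : ℝ := (c1 - U * C) / (c1 - c0) with hτ
  set t : ℝ := (U * C - c0) / (c1 - c0) with ht
  have hτ0 : 0 ≤ τ := div_nonneg (by linarith) hd.le
  have ht0 : 0 ≤ t := div_nonneg (by linarith) hd.le
  have hτt : τ + t = 1 := by rw [hτ, ht, ← add_div, div_eq_one_iff_eq hd.ne']; ring
  have e1 : (c0 : ℝ) * τ + c1 * t = U * C := by
    rw [hτ, ht]; field_simp; ring
  have e2 : (((U - c0 : ℕ) : ℝ)) * τ + ((U - c1 : ℕ) : ℝ) * t = U * S := by
    rw [Nat.cast_sub (by omega), Nat.cast_sub h1U]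
    have : ((U : ℝ) - c0) * τ + ((U : ℝ) - c1) * t = U * (τ + t) - (c0 * τ + c1 * t) := by ring
    rw [this, hτt, e1]
    have : S = 1 - C := by linarith
    rw [this]; ring
  have h2 := hevF_nonneg (Z := Z) hτ0 ht0 _ hF
  rw [hevF_cellL, e1, e2, pow_zero, one_mul] at h2
  have h3 := hevF_hom (Z := Z) (S := S) (C := C) U As
  have h4 : 0 ≤ (U : ℝ) ^ As.length * hevF Z S C As := by
    rw [← h3]; exact mul_nonneg hU'.le h2
  exact (mul_nonneg_iff_of_pos_left (pow_pos hU' _)).1 h4

end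

end Pool.Agent.Helper22.Opu
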