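import Mathlib

/-!
# Irreducibility of three polynomials
-/

set_option autoImplicit false

open Polynomial Finset

namespace Pool.Agent.Helper22.Opu.Norm

lemma prod_coeff {R : Type*} [CommSemiring R] {f g p : R[X]} (h : f * g = p) (k : ℕ) :
    ∑ i ∈ range (k + 1), f.coeff i * g.coeff (k - i) = p.coeff k := by
  rw [← h, coeff_mul, Finset.Nat.sum_antidiagonal_eq_sum_range_succ_mk]

lemma coeff_top {R : Type*} [Semiring R] {f : R[X]} (hf : f.Monic) {d : ℕ} (hd : f.natDegree = d) : f.coeff d = 1 := by
  rw [← hd]; exact hf.coeff_natDegree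

lemma coeff_big {R : Type*} [Semiring R] {f : R[X]} {d : ℕ} (hd : f.natDegree = d) (k : ℕ) (hk : d < k) :
    f.coeff k = 0 := coeff_eq_zero_of_natDegree_lt (by omega)

theorem irr4 : Irreducible (X ^ 4 + X ^ 3 + X ^ 2 + X + 1 : (ZMod 2)[X]) := by
  set p : (ZMod 2)[X] := X ^ 4 + X ^ 3 + X ^ 2 + X + 1 with hp
  have hm : p.Monic := by rw [hp]; monicity!
  have hd : p.natDegree = 4 := by rw [hp]; compute_degree!
  rw [hm.irreducible_iff_natDegree']
  refine ⟨fun h => by rw [h] at hd; simp at hd, fun f g hf hg hfg hmem => ?_⟩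
  rw [hd, Finset.mem_Ioc] at hmem
  have hsum : f.natDegree + g.natDegree = 4 := by rw [← hf.natDegree_mul hg, hfg, hd]
  have c0 := prod_coeff hfg 0
  have c1 := prod_coeff hfg 1
  have c2 := prod_coeff hfg 2
  have c3 := prod_coeff hfg 3
  simp only [sum_range_succ, sum_range_zero, zero_add, Nat.sub_zero, Nat.sub_self, Nat.reduceSub, hp,
    coeff_add, coeff_X_pow, coeff_X, coeff_one] at c0 c1 c2 c3
  have hcase : g.natDegree = 1 ∨ g.natDegree = 2 := by omega
  rcases hcase with h | h
  · have h' : f.natDegree = 3 := by omega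
    rw [coeff_top hf h', coeff_big h 3 (by norm_num), coeff_big h 2 (by norm_num), coeff_top hg h] at c3
    rw [coeff_big h 2 (by norm_num), coeff_top hg h] at c2
    rw [coeff_top hg h] at c1
    revert c0 c1 c2 c3
    generalize f.coeff 0 = a0
    generalize f.coeff 1 = a1
    generalize f.coeff 2 = a2
    generalize g.coeff 0 = b0
    revert a0 a1 a2 b0
    decide
  · have h' : f.natDegree = 2 := by omega
    rw [coeff_big h' 3 (by norm_num), coeff_top hf h', coeff_big h 3 (by norm_num), coeff_top hg h] at c3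
    rw [coeff_top hf h', coeff_top hg h] at c2
    revert c0 c1 c2 c3
    generalize f.coeff 0 = a0
    generalize f.coeff 1 = a1
    generalize g.coeff 0 = b0
    generalize g.coeff 1 = b1
    revert a0 a1 b0 b1
    decide

theorem irr5 : Irreducible (X ^ 5 + X ^ 4 + X ^ 2 + X + 1 : (ZMod 2)[X]) := by
  set p : (ZMod 2)[X] := X ^ 5 + X ^ 4 + X ^ 2 + X + 1 with hp
  have hm : p.Monic := by rw [hp]; monicity!
  have hd : p.natDegree = 5 := by rw [hp]; compute_degree!
  rw [hm.irreducible_iff_natDegree']
  refine ⟨fun h => by rw [h] at hd; simp at hd, fun f g hf hg hfg hmem => ?_⟩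
  rw [hd, Finset.mem_Ioc] at hmem
  have hsum : f.natDegree + g.natDegree = 5 := by rw [← hf.natDegree_mul hg, hfg, hd]
  have c0 := prod_coeff hfg 0
  have c1 := prod_coeff hfg 1
  have c2 := prod_coeff hfg 2
  have c3 := prod_coeff hfg 3
  have c4 := prod_coeff hfg 4
  simp only [sum_range_succ, sum_range_zero, zero_add, Nat.sub_zero, Nat.sub_self, Nat.reduceSub, hp,
    coeff_add, coeff_X_pow, coeff_X, coeff_one] at c0 c1 c2 c3 c4
  have hcase : g.natDegree = 1 ∨ g.natDegree = 2 := by omega
  rcases hcase with h | h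
  · have h' : f.natDegree = 4 := by omega
    rw [coeff_top hf h', coeff_big h 4 (by norm_num), coeff_big h 3 (by norm_num), coeff_big h 2 (by norm_num), coeff_top hg h] at c4
    rw [coeff_big h 3 (by norm_num), coeff_big h 2 (by norm_num), coeff_top hg h] at c3
    rw [coeff_big h 2 (by norm_num), coeff_top hg h] at c2
    rw [coeff_top hg h] at c1
    revert c0 c1 c2 c3 c4
    generalize f.coeff 0 = a0
    generalize f.coeff 1 = a1
    generalize f.coeff 2 = a2
    generalize f.coeff 3 = a3
    generalize g.coeff 0 = b0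
    revert a0 a1 a2 a3 b0
    decide
  · have h' : f.natDegree = 3 := by omega
    rw [coeff_big h' 4 (by norm_num), coeff_top hf h', coeff_big h 4 (by norm_num), coeff_big h 3 (by norm_num), coeff_top hg h] at c4
    rw [coeff_top hf h', coeff_big h 3 (by norm_num), coeff_top hg h] at c3
    rw [coeff_top hg h] at c2
    revert c0 c1 c2 c3 c4
    generalize f.coeff 0 = a0
    generalize f.coeff 1 = a1
    generalize f.coeff 2 = a2
    generalize g.coeff 0 = b0
    generalize g.coeff 1 = b1
    revert a0 a1 a2 b0 b1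
    decide

theorem irr6 : Irreducible (X ^ 6 + X ^ 5 + X ^ 4 + X ^ 2 + 1 : (ZMod 2)[X]) := by
  set p : (ZMod 2)[X] := X ^ 6 + X ^ 5 + X ^ 4 + X ^ 2 + 1 with hp
  have hm : p.Monic := by rw [hp]; monicity!
  have hd : p.natDegree = 6 := by rw [hp]; compute_degree!
  rw [hm.irreducible_iff_natDegree']
  refine ⟨fun h => by rw [h] at hd; simp at hd, fun f g hf hg hfg hmem => ?_⟩
  rw [hd, Finset.mem_Ioc] at hmem
  have hsum : f.natDegree + g.natDegree = 6 := by rw [← hf.natDegree_mul hg, hfg, hd]
  have c0 := prod_coeff hfg 0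
  have c1 := prod_coeff hfg 1
  have c2 := prod_coeff hfg 2
  have c3 := prod_coeff hfg 3
  have c4 := prod_coeff hfg 4
  have c5 := prod_coeff hfg 5
  simp only [sum_range_succ, sum_range_zero, zero_add, Nat.sub_zero, Nat.sub_self, Nat.reduceSub, hp,
    coeff_add, coeff_X_pow, coeff_X, coeff_one] at c0 c1 c2 c3 c4 c5
  have hcase : g.natDegree = 1 ∨ g.natDegree = 2 ∨ g.natDegree = 3 := by omega
  rcases hcase with h | h | h
  · have h' : f.natDegree = 5 := by omega
    rw [coeff_top hf h', coeff_big h 5 (by norm_num), coeff_big h 4 (by norm_num), coeff_big h 3 (by norm_num), coeff_big h 2 (by norm_num), coeff_top hg h] at c5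
    rw [coeff_big h 4 (by norm_num), coeff_big h 3 (by norm_num), coeff_big h 2 (by norm_num), coeff_top hg h] at c4
    rw [coeff_big h 3 (by norm_num), coeff_big h 2 (by norm_num), coeff_top hg h] at c3
    rw [coeff_big h 2 (by norm_num), coeff_top hg h] at c2
    rw [coeff_top hg h] at c1
    revert c0 c1 c2 c3 c4 c5
    generalize f.coeff 0 = a0
    generalize f.coeff 1 = a1
    generalize f.coeff 2 = a2
    generalize f.coeff 3 = a3
    generalize f.coeff 4 = a4
    generalize g.coeff 0 = b0
    revert a0 a1 a2 a3 a4 b0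
    decide
  · have h' : f.natDegree = 4 := by omega
    rw [coeff_big h' 5 (by norm_num), coeff_top hf h', coeff_big h 5 (by norm_num), coeff_big h 4 (by norm_num), coeff_big h 3 (by norm_num), coeff_top hg h] at c5
    rw [coeff_top hf h', coeff_big h 4 (by norm_num), coeff_big h 3 (by norm_num), coeff_top hg h] at c4
    rw [coeff_big h 3 (by norm_num), coeff_top hg h] at c3
    rw [coeff_top hg h] at c2
    revert c0 c1 c2 c3 c4 c5
    generalize f.coeff 0 = a0
    generalize f.coeff 1 = a1
    generalize f.coeff 2 = a2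
    generalize f.coeff 3 = a3
    generalize g.coeff 0 = b0
    generalize g.coeff 1 = b1
    revert a0 a1 a2 a3 b0 b1
    decide
  · have h' : f.natDegree = 3 := by omega
    rw [coeff_big h' 5 (by norm_num), coeff_big h' 4 (by norm_num), coeff_top hf h', coeff_big h 5 (by norm_num), coeff_big h 4 (by norm_num), coeff_top hg h] at c5
    rw [coeff_big h' 4 (by norm_num), coeff_top hf h', coeff_big h 4 (by norm_num), coeff_top hg h] at c4
    rw [coeff_top hf h', coeff_top hg h] at c3
    revert c0 c1 c2 c3 c4 c5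
    generalize f.coeff 0 = a0
    generalize f.coeff 1 = a1
    generalize f.coeff 2 = a2
    generalize g.coeff 0 = b0
    generalize g.coeff 1 = b1
    generalize g.coeff 2 = b2
    revert a0 a1 a2 b0 b1 b2
    decide

/-- the polynomial of discriminant 725 -/
noncomputable def f4 : ℤ[X] := X ^ 4 - X ^ 3 - 3 * X ^ 2 + X + 1

/-- the polynomial of discriminant 14641 -/
noncomputable def f5 : ℤ[X] := X ^ 5 + X ^ 4 - 4 * X ^ 3 - 3 * X ^ 2 + 3 * X + 1

/-- the polynomial of discriminant 300125 -/
noncomputable def f6 : ℤ[X] := X ^ 6 - X ^ 5 - 7 * X ^ 4 + 2 * X ^ 3 + 7 * X ^ 2 - 2 * X - 1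

lemma monic4 : f4.Monic := by unfold f4; monicity!
lemma monic5 : f5.Monic := by unfold f5; monicity!
lemma monic6 : f6.Monic := by unfold f6; monicity!
lemma deg4 : f4.natDegree = 4 := by unfold f4; compute_degree!
lemma deg5 : f5.natDegree = 5 := by unfold f5; compute_degree!
lemma deg6 : f6.natDegree = 6 := by unfold f6; compute_degree!

lemma two0 : (2 : (ZMod 2)[X]) = 0 := by
  have : (2 : (ZMod 2)[X]) = C 2 := (map_ofNat C 2).symm
  rw [this, show (2 : ZMod 2) = 0 by decide, C_0]

lemma irrZ4 : Irreducible f4 := by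
  refine monic4.irreducible_of_irreducible_map (Int.castRingHom (ZMod 2)) _ ?_
  have : f4.map (Int.castRingHom (ZMod 2)) = X ^ 4 + X ^ 3 + X ^ 2 + X + 1 := by
    unfold f4
    simp only [Polynomial.map_add, Polynomial.map_sub, Polynomial.map_mul, Polynomial.map_pow, map_X, Polynomial.map_one,
      Polynomial.map_ofNat]
    linear_combination (-(X : (ZMod 2)[X]) ^ 3 - 2 * X ^ 2) * two0
  rw [this]; exact irr4

lemma irrZ5 : Irreducible f5 := by
  refine monic5.irreducible_of_irreducible_map (Int.castRingHom (ZMod 2)) _ ?_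
  have : f5.map (Int.castRingHom (ZMod 2)) = X ^ 5 + X ^ 4 + X ^ 2 + X + 1 := by
    unfold f5
    simp only [Polynomial.map_add, Polynomial.map_sub, Polynomial.map_mul, Polynomial.map_pow, map_X, Polynomial.map_one,
      Polynomial.map_ofNat]
    linear_combination (-2 * (X : (ZMod 2)[X]) ^ 3 - 2 * X ^ 2 + X) * two0
  rw [this]; exact irr5

lemma irrZ6 : Irreducible f6 := by
  refine monic6.irreducible_of_irreducible_map (Int.castRingHom (ZMod 2)) _ ?_
  have : f6.map (Int.castRingHom (ZMod 2)) = X ^ 6 + X ^ 5 + X ^ 4 + X ^ 2 + 1 := by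
    unfold f6
    simp only [Polynomial.map_add, Polynomial.map_sub, Polynomial.map_mul, Polynomial.map_pow, map_X, Polynomial.map_one,
      Polynomial.map_ofNat]
    linear_combination (-(X : (ZMod 2)[X]) ^ 5 - 4 * X ^ 4 + X ^ 3 + 3 * X ^ 2 - X - 1) * two0
  rw [this]; exact irr6

end Pool.Agent.Helper22.Opu.Norm
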