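import Pool.Agent.Helper22.Opp.Jint

/-!
# Averages of Gaussians over the subgroup with two equal entries

`I q j x = ∫_{ℝ^k} exp (∑ q_i s_i - (j / 2) (x + ∑ s_i) - ∑ e^{s_i} - e^{-(x + ∑ s_i) / 2}) ds`.
-/

set_option autoImplicit false

open MeasureTheory Real Finset Filter Topology

namespace Pool.Agent.Helper22.Opu

open Pool.Agent.Helper22.Opp

noncomputable section

variable {k : ℕ}

/-- the phase -/
def ph (q : Fin k → ℝ) (j x : ℝ) (s : Fin k → ℝ) : ℝ :=
  ∑ i, q i * s i - j / 2 * (x + ∑ i, s i) - ∑ i, Real.exp (s i) - Real.exp (-(x + ∑ i, s i) / 2)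

/-- the integral -/
def I (q : Fin k → ℝ) (j x : ℝ) : ℝ := ∫ s : Fin k → ℝ, Real.exp (ph q j x s)

lemma continuous_ph (q : Fin k → ℝ) (j x : ℝ) : Continuous (ph q j x) := by
  unfold ph; fun_prop

lemma continuous_ph' (q : Fin k → ℝ) (j : ℝ) (s : Fin k → ℝ) : Continuous (fun x => ph q j x s) := by
  unfold ph; fun_prop

/-- dominating function -/
def dom (q : Fin k → ℝ) (j : ℝ) (N : ℕ) (x : ℝ) (s : Fin k → ℝ) : ℝ :=
  (N.factorial : ℝ) * Real.exp ((N / 2 - j / 2) * x) *
    ∏ i, Real.exp ((q i - j / 2 + N / 2) * s i - Real.exp (s i))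

lemma exp_ph_le (q : Fin k → ℝ) (j : ℝ) (N : ℕ) (x : ℝ) (s : Fin k → ℝ) :
    Real.exp (ph q j x s) ≤ dom q j N x s := by
  unfold ph dom
  have h := exp_neg_le N (-(x + ∑ i, s i) / 2)
  have e1 : Real.exp ((N / 2 - j / 2) * x) * ∏ i, Real.exp ((q i - j / 2 + N / 2) * s i - Real.exp (s i)) =
      Real.exp (∑ i, q i * s i - j / 2 * (x + ∑ i, s i) - ∑ i, Real.exp (s i)) *
        Real.exp (-(N * (-(x + ∑ i, s i) / 2))) := by
    rw [← Real.exp_sum, ← Real.exp_add, ← Real.exp_add]
    congr 1
    have : ∑ i, ((q i - j / 2 + N / 2) * s i - Real.exp (s i)) =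
        ∑ i, q i * s i - j / 2 * ∑ i, s i + N / 2 * ∑ i, s i - ∑ i, Real.exp (s i) := by
      rw [mul_sum, mul_sum, ← sum_sub_distrib, ← sum_add_distrib, ← sum_sub_distrib]
      exact sum_congr rfl fun i _ => by ring
    rw [this]; ring
  rw [mul_assoc, e1]
  have e2 : Real.exp (∑ i, q i * s i - j / 2 * (x + ∑ i, s i) - ∑ i, Real.exp (s i) - Real.exp (-(x + ∑ i, s i) / 2)) =
      Real.exp (∑ i, q i * s i - j / 2 * (x + ∑ i, s i) - ∑ i, Real.exp (s i)) *
        Real.exp (-Real.exp (-(x + ∑ i, s i) / 2)) := by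
    rw [← Real.exp_add]; congr 1
  rw [e2]
  have p1 := Real.exp_pos (∑ i, q i * s i - j / 2 * (x + ∑ i, s i) - ∑ i, Real.exp (s i))
  calc _ ≤ Real.exp (∑ i, q i * s i - j / 2 * (x + ∑ i, s i) - ∑ i, Real.exp (s i)) *
        ((N.factorial : ℝ) * Real.exp (-(N * (-(x + ∑ i, s i) / 2)))) := mul_le_mul_of_nonneg_left h p1.le
    _ = _ := by ring

lemma integrable_dom (q : Fin k → ℝ) (j : ℝ) (N : ℕ) (x : ℝ) (hN : ∀ i, 1 ≤ q i - j / 2 + N / 2) :
    Integrable (dom q j N x) := by
  unfold dom
  exact (Integrable.fintype_prod (fun i => one_dim_integrable (hN i))).const_mul _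

lemma exists_N' (q : Fin k → ℝ) (j : ℝ) : ∃ N : ℕ, (∀ i, 1 ≤ q i - j / 2 + N / 2) ∧ 0 ≤ (N : ℝ) / 2 - j / 2 := by
  obtain ⟨N, hN⟩ := exists_nat_ge (2 * (∑ i, |q i| + 1 + |j|))
  refine ⟨N, fun i => ?_, ?_⟩
  · have h1 : |q i| ≤ ∑ i, |q i| := single_le_sum (f := fun i => |q i|) (fun j _ => abs_nonneg _) (mem_univ i)
    have h2 := neg_abs_le (q i)
    have h3 := le_abs_self j
    have h4 := abs_nonneg j
    linarith
  · have h0 : 0 ≤ ∑ i, |q i| := sum_nonneg fun _ _ => abs_nonneg _
    have h3 := le_abs_self j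
    have h4 := abs_nonneg j
    linarith

lemma integrable_ph (q : Fin k → ℝ) (j x : ℝ) : Integrable (fun s => Real.exp (ph q j x s)) := by
  obtain ⟨N, hN, _⟩ := exists_N' q j
  refine (integrable_dom q j N x hN).mono' (Real.continuous_exp.comp (continuous_ph q j x)).aestronglyMeasurable ?_
  refine Filter.Eventually.of_forall fun s => ?_
  rw [Real.norm_of_nonneg (Real.exp_pos _).le]
  exact exp_ph_le q j N x s

lemma I_pos (q : Fin k → ℝ) (j x : ℝ) : 0 < I q j x := by
  unfold I
  rw [integral_pos_iff_support_of_nonneg (fun s => (Real.exp_pos _).le) (integrable_ph q j x)]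
  have : (Function.support fun s => Real.exp (ph q j x s)) = Set.univ := by
    ext s; simp [Real.exp_ne_zero]
  rw [this]
  exact Measure.measure_univ_pos.2 (NeZero.ne _)

/-- multiplication by `e^{-(x + ∑ s) / 2}` raises `j` -/
lemma ph_succ (q : Fin k → ℝ) (j x : ℝ) (s : Fin k → ℝ) :
    Real.exp (ph q j x s) * Real.exp (-(x + ∑ i, s i) / 2) = Real.exp (ph q (j + 1) x s) := by
  rw [← Real.exp_add]
  congr 1
  unfold ph
  ring

lemma hasDerivAt_I (q : Fin k → ℝ) (j x : ℝ) :
    HasDerivAt (I q j) (-(j / 2) * I q j x + 1 / 2 * I q (j + 1) x) x := by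
  obtain ⟨N, hN, hNj⟩ := exists_N' q j
  obtain ⟨N', hN', hNj'⟩ := exists_N' q (j + 1)
  have key := hasDerivAt_integral_of_dominated_loc_of_deriv_le (μ := (volume : Measure (Fin k → ℝ)))
    (F := fun x s => Real.exp (ph q j x s))
    (F' := fun x s => -(j / 2) * Real.exp (ph q j x s) + 1 / 2 * Real.exp (ph q (j + 1) x s))
    (bound := fun s => |j / 2| * dom q j N (x + 1) s + 1 / 2 * dom q (j + 1) N' (x + 1) s)
    (x₀ := x) (s := Metric.ball x 1) (Metric.ball_mem_nhds x one_pos)
    (Filter.Eventually.of_forall fun y =>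
      (Real.continuous_exp.comp (continuous_ph q j y)).aestronglyMeasurable)
    (integrable_ph q j x)
    (((Real.continuous_exp.comp (continuous_ph _ _ x)).aestronglyMeasurable.const_mul _).add
      ((Real.continuous_exp.comp (continuous_ph _ _ x)).aestronglyMeasurable.const_mul _))
    (Filter.Eventually.of_forall fun s y hy => by
      rw [Metric.mem_ball, Real.dist_eq, abs_lt] at hy
      have hmono : ∀ (j : ℝ) (N : ℕ), 0 ≤ (N : ℝ) / 2 - j / 2 → dom q j N y s ≤ dom q j N (x + 1) s := by
        intro j N hn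
        unfold dom
        have : Real.exp ((N / 2 - j / 2) * y) ≤ Real.exp ((N / 2 - j / 2) * (x + 1)) :=
          Real.exp_le_exp.2 (mul_le_mul_of_nonneg_left (by linarith) hn)
        have h0 : 0 ≤ ∏ i, Real.exp ((q i - j / 2 + N / 2) * s i - Real.exp (s i)) :=
          prod_nonneg fun i _ => (Real.exp_pos _).le
        exact mul_le_mul_of_nonneg_right (mul_le_mul_of_nonneg_left this (Nat.cast_nonneg _)) h0
      refine (norm_add_le _ _).trans ?_
      rw [norm_mul, norm_mul, norm_neg, Real.norm_of_nonneg (Real.exp_pos _).le,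
        Real.norm_of_nonneg (Real.exp_pos _).le, Real.norm_eq_abs, Real.norm_of_nonneg (by norm_num : (0 : ℝ) ≤ 1 / 2)]
      refine add_le_add (mul_le_mul_of_nonneg_left ?_ (abs_nonneg _)) (mul_le_mul_of_nonneg_left ?_ (by norm_num))
      · exact (exp_ph_le _ _ N y s).trans (hmono j N hNj)
      · exact (exp_ph_le _ _ N' y s).trans (hmono (j + 1) N' hNj'))
    (((integrable_dom _ _ N _ hN).const_mul _).add ((integrable_dom _ _ N' _ hN').const_mul _))
    (Filter.Eventually.of_forall fun s y _ => by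
      have h1 : HasDerivAt (fun y : ℝ => ph q j y s) (-(j / 2) + 1 / 2 * Real.exp (-(y + ∑ i, s i) / 2)) y := by
        unfold ph
        have h2 : HasDerivAt (fun y : ℝ => Real.exp (-(y + ∑ i, s i) / 2))
            (Real.exp (-(y + ∑ i, s i) / 2) * (-1 / 2)) y := by
          have h3 : HasDerivAt (fun y : ℝ => -(y + ∑ i, s i) / 2) (-1 / 2) y := by
            have := ((hasDerivAt_id y).add_const (∑ i, s i)).neg.div_const 2
            simpa using this
          exact h3.exp
        have h4 : HasDerivAt (fun y : ℝ => j / 2 * (y + ∑ i, s i)) (j / 2) y := by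
          have := ((hasDerivAt_id y).add_const (∑ i, s i)).const_mul (j / 2)
          simpa using this
        have h5 := (((hasDerivAt_const y (∑ i, q i * s i)).sub h4).sub_const (∑ i, Real.exp (s i))).sub h2
        refine h5.congr_deriv ?_
        ring
      have h5 := h1.exp
      refine h5.congr_deriv ?_
      rw [← ph_succ]; ring)
  have h := key.2
  rw [integral_add ((integrable_ph q j x).const_mul _) ((integrable_ph q (j + 1) x).const_mul _),
    integral_const_mul, integral_const_mul] at h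
  exact h

lemma exp_add_single [DecidableEq (Fin k)] (q : Fin k → ℝ) (l : Fin k) (j x : ℝ) (s : Fin k → ℝ) :
    Real.exp (ph q j x s) * Real.exp (s l) =
      Real.exp (ph (fun i => q i + (if i = l then 1 else 0)) j x s) := by
  rw [← Real.exp_add]
  congr 1
  unfold ph
  have : ∑ i, (q i + (if i = l then (1 : ℝ) else 0)) * s i = ∑ i, q i * s i + s l := by
    simp only [add_mul, sum_add_distrib, ite_mul, one_mul, zero_mul, sum_ite_eq', mem_univ, if_true]
  rw [this]; ring

/-- integration by parts in the direction `l` -/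
lemma I_add_single (q : Fin k → ℝ) (l : Fin k) (j x : ℝ) :
    I (fun i => q i + (if i = l then 1 else 0)) j x =
      (q l - j / 2) * I q j x + 1 / 2 * I q (j + 1) x := by
  classical
  set f : (Fin k → ℝ) → ℝ := fun s => Real.exp (ph q j x s) with hf
  set f' : (Fin k → ℝ) → ℝ := fun s => Real.exp (ph q j x s) *
    (q l - j / 2 - Real.exp (s l) + 1 / 2 * Real.exp (-(x + ∑ i, s i) / 2)) with hf'
  have e2 : ∀ s, f' s = (q l - j / 2) * Real.exp (ph q j x s)
      - Real.exp (ph (fun i => q i + (if i = l then 1 else 0)) j x s)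
      + 1 / 2 * Real.exp (ph q (j + 1) x s) := by
    intro s
    rw [hf']
    simp only
    rw [← ph_succ]
    have := exp_add_single q l j x s
    rw [← this]; ring
  have hfe : f' = fun s => (q l - j / 2) * Real.exp (ph q j x s)
      - Real.exp (ph (fun i => q i + (if i = l then 1 else 0)) j x s)
      + 1 / 2 * Real.exp (ph q (j + 1) x s) := funext e2
  have hi' : Integrable f' := by
    rw [hfe]
    exact (((integrable_ph q j x).const_mul _).sub (integrable_ph _ j x)).add
      ((integrable_ph _ _ x).const_mul _)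
  have hd : ∀ s : Fin k → ℝ, HasLineDerivAt ℝ f (f' s) s (Pi.single l 1) := by
    intro s
    unfold HasLineDerivAt
    have hc : ∀ i, HasDerivAt (fun t : ℝ => (s + t • (Pi.single l (1 : ℝ) : Fin k → ℝ)) i)
        (if i = l then 1 else 0) 0 := by
      intro i
      by_cases h : i = l
      · subst h
        simpa using (hasDerivAt_id (0 : ℝ)).const_add (s i)
      · simp only [Pi.add_apply, Pi.smul_apply, Pi.single_eq_of_ne h, smul_zero, add_zero, if_neg h]
        exact hasDerivAt_const _ _
    have h0 : s + (0 : ℝ) • (Pi.single l (1 : ℝ) : Fin k → ℝ) = s := by simp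
    have hsum : HasDerivAt (fun t : ℝ => ∑ i, (s + t • (Pi.single l (1 : ℝ) : Fin k → ℝ)) i) 1 0 := by
      have := HasDerivAt.fun_sum (u := univ) (fun i _ => hc i)
      simpa using this
    have hq : HasDerivAt (fun t : ℝ => ∑ i, q i * (s + t • (Pi.single l (1 : ℝ) : Fin k → ℝ)) i) (q l) 0 := by
      have := HasDerivAt.fun_sum (u := univ) (fun i _ => (hc i).const_mul (q i))
      simpa using this
    have he : HasDerivAt (fun t : ℝ => ∑ i, Real.exp ((s + t • (Pi.single l (1 : ℝ) : Fin k → ℝ)) i))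
        (Real.exp (s l)) 0 := by
      have := HasDerivAt.fun_sum (u := univ) (fun i _ => (hc i).exp)
      simp only [h0] at this
      simpa using this
    have hxs : HasDerivAt (fun t : ℝ => x + ∑ i, (s + t • (Pi.single l (1 : ℝ) : Fin k → ℝ)) i) 1 0 :=
      hsum.const_add x
    have hj : HasDerivAt (fun t : ℝ => j / 2 * (x + ∑ i, (s + t • (Pi.single l (1 : ℝ) : Fin k → ℝ)) i)) (j / 2) 0 := by
      have := hxs.const_mul (j / 2)
      simpa using this
    have hl : HasDerivAt (fun t : ℝ => Real.exp (-(x + ∑ i, (s + t • (Pi.single l (1 : ℝ) : Fin k → ℝ)) i) / 2))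
        (Real.exp (-(x + ∑ i, s i) / 2) * (-1 / 2)) 0 := by
      have := (hxs.neg.div_const 2).exp
      simp only [Pi.neg_apply, h0] at this
      exact this
    have hph : HasDerivAt (fun t : ℝ => ph q j x (s + t • (Pi.single l (1 : ℝ) : Fin k → ℝ)))
        (q l - j / 2 - Real.exp (s l) - Real.exp (-(x + ∑ i, s i) / 2) * (-1 / 2)) 0 :=
      ((hq.sub hj).sub he).sub hl
    have := hph.exp
    simp only [h0] at this
    rw [hf, hf']
    refine HasDerivAt.congr_deriv this ?_
    simp only
    ring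
  have key := integral_bilinear_hasLineDerivAt_right_eq_neg_left_of_integrable
    (μ := (volume : Measure (Fin k → ℝ)))
    (f := f) (f' := f') (g := fun _ => (1 : ℝ)) (g' := fun _ => (0 : ℝ)) (v := Pi.single l 1)
    (B := ContinuousLinearMap.mul ℝ ℝ)
    (by simpa using hi') (by simp) (by simpa using integrable_ph q j x)
    (fun s _ => hd s) (fun s _ => by
      unfold HasLineDerivAt
      exact hasDerivAt_const _ _)
  simp only [ContinuousLinearMap.mul_apply', mul_zero, integral_zero, mul_one] at key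
  have h3 : ∫ s, f' s = (q l - j / 2) * I q j x - I (fun i => q i + (if i = l then 1 else 0)) j x
      + 1 / 2 * I q (j + 1) x := by
    have i1 := (integrable_ph q j x).const_mul (q l - j / 2)
    have i2 := integrable_ph (fun i => q i + (if i = l then 1 else 0)) j x
    have i3 := (integrable_ph q (j + 1) x).const_mul (1 / 2)
    rw [hfe]
    have h4 := integral_add (i1.sub i2) i3
    have h5 := integral_sub i1 i2
    simp only [Pi.sub_apply] at h4
    rw [h4, h5, integral_const_mul, integral_const_mul]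
    rfl
  linarith

/-- relation between all exponents one and `j = 2` -/
lemma I_ones (j x : ℝ) : I (fun _ : Fin k => (1 : ℝ)) (j + 2) x = Real.exp (-x) * I (fun _ : Fin k => (0 : ℝ)) j x := by
  unfold I
  rw [← integral_const_mul]
  congr 1
  funext s
  rw [← Real.exp_add]
  congr 1
  unfold ph
  simp only [one_mul, zero_mul, sum_const_zero]
  ring

end

end Pool.Agent.Helper22.Opu
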