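import Pool.Agent.Helper22.Opu.Latt

/-!
# The linear programming bound, averaged over the subgroup
-/

set_option autoImplicit false

open MeasureTheory Real Finset Filter Topology

namespace Pool.Agent.Helper22.Opu

open Pool.Agent.Helper22.Opp

noncomputable section

variable {k : ℕ}

/-- nonzero lattice points -/
def pt2 (M : Matrix (Fin (k + 2)) (Fin (k + 2)) ℝ) (p : {p : Fin (k + 2) → ℤ // p ≠ 0}) :
    Fin (k + 2) → ℝ := M.mulVec (zr p.1)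

lemma gq_sum_le2 {M : Matrix (Fin (k + 2)) (Fin (k + 2)) ℝ} {ρ : ℝ} (hρ : 0 < ρ) (h : Unif2 M ρ)
    (τ : Fin k → ℝ) (s : Finset {p : Fin (k + 2) → ℤ // p ≠ 0}) :
    ∑ p ∈ s, gq (act2 τ (pt2 M p)) ≤ packC (k + 2) ρ (π / 4) := by
  unfold gq
  refine pack hρ (by positivity) (fun p => act2 τ (pt2 M p)) (fun p p' hpp => ?_) s
  exact h.sep τ p.1 p'.1 (fun h => hpp (Subtype.ext h))

/-- averaging for a lattice -/
lemma avg_lattice2 {M : Matrix (Fin (k + 2)) (Fin (k + 2)) ℝ} {ρ : ℝ} (hρ : 0 < ρ) (h : Unif2 M ρ)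
    {F : (Fin (k + 2) → ℝ) → ℝ} (hF : Continuous F) {C0 : ℝ} (hC0 : 0 ≤ C0)
    (hb : ∀ y, |F y| ≤ C0 * Real.exp (-(π / 2 * ∑ i, y i ^ 2)))
    (h5 : ∀ p, ∫ τ : Fin k → ℝ, F (act2 τ (pt2 M p)) ≤ 0) :
    ∃ C : ℝ, 0 ≤ C ∧ ∀ ε : ℝ, 0 < ε → ε ≤ 1 →
      Integrable (fun τ : Fin k → ℝ => wt ε τ * ∑' p, F (act2 τ (pt2 M p))) ∧
      ∫ τ : Fin k → ℝ, wt ε τ * ∑' p, F (act2 τ (pt2 M p)) ≤ ε * (C * ∫ τ : Fin k → ℝ, wt ε τ) := by
  have hπ := Real.pi_pos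
  set ν : ℝ := ρ ^ (k + 2) with hν
  have hν0 : 0 < ν := by positivity
  set Cψ : ℝ := Real.exp ((2 * ((k + 1 : ℕ) : ℝ) * (((k + 1 : ℕ) : ℝ) + 1)) ^ 2 / π +
        2 * ((k + 1 : ℕ) : ℝ) * |Real.log (ν / 2)|) with hCψ
  have hCψ1 : 1 ≤ Cψ := Real.one_le_exp (by positivity)
  set C1 : ℝ := C0 * Cψ with hC1
  have hC10 : 0 ≤ C1 := mul_nonneg hC0 (by positivity)
  set C2 : ℝ := packC (k + 2) ρ (π / 4) with hC2
  have hprod : ∀ p : {p : Fin (k + 2) → ℤ // p ≠ 0}, ν ≤ nm2 (pt2 M p) := fun p =>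
    h.nm2 hρ p.1 p.2
  have h1 : ∀ y, |F y| ≤ C1 * gq y := by
    intro y
    refine (hb y).trans ?_
    have h0 : 0 ≤ ∑ i, y i ^ 2 := sum_nonneg fun _ _ => sq_nonneg _
    have h2 : Real.exp (-(π / 2 * ∑ i, y i ^ 2)) ≤ gq y := Real.exp_le_exp.2 (by nlinarith)
    calc C0 * Real.exp (-(π / 2 * ∑ i, y i ^ 2)) ≤ C0 * gq y := mul_le_mul_of_nonneg_left h2 hC0
      _ = C0 * 1 * gq y := by ring
      _ ≤ C0 * Cψ * gq y := by
          have := gq_pos y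
          gcongr
  have h2 : ∀ p (τ : Fin k → ℝ), |F (act2 τ (pt2 M p))| * Real.exp (2 * ∑ i, |τ i - ctr2 (pt2 M p) i|) ≤
      C1 * gq (act2 τ (pt2 M p)) := by
    intro p τ
    have e1 := exp_ctr_le hν0 (hprod p) τ
    have e2 := hb (act2 τ (pt2 M p))
    calc |F (act2 τ (pt2 M p))| * Real.exp (2 * ∑ i, |τ i - ctr2 (pt2 M p) i|)
        ≤ (C0 * Real.exp (-(π / 2 * ∑ i, (act2 τ (pt2 M p)) i ^ 2))) *
          (Cψ * Real.exp (π / 4 * ∑ i, (act2 τ (pt2 M p)) i ^ 2)) :=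
          mul_le_mul e2 e1 (Real.exp_pos _).le (by positivity)
      _ = C1 * (Real.exp (-(π / 2 * ∑ i, (act2 τ (pt2 M p)) i ^ 2)) *
          Real.exp (π / 4 * ∑ i, (act2 τ (pt2 M p)) i ^ 2)) := by rw [hC1]; ring
      _ = C1 * gq (act2 τ (pt2 M p)) := by
          rw [← Real.exp_add]; unfold gq; congr 2; ring
  have h6 : ∀ p, Nd (pt2 M p) := fun p => Nd_of_nm2 hν0 (hprod p)
  refine ⟨C1 * C2, mul_nonneg hC10 (packC_nonneg _ hρ), fun ε hε hε1 => ⟨?_, ?_⟩⟩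
  · exact integrable_wt_tsum' (A := fun p τ => act2 τ (pt2 M p)) (fun p => continuous_act2 _) hF hC10 h1
      (gq_sum_le2 hρ h) hε
  · have := avg_le' (A := fun p τ => act2 τ (pt2 M p)) (fun p => continuous_act2 _)
      (ct := fun p => ctr2 (pt2 M p)) hF hC10 h1 h2 (gq_sum_le2 hρ h)
      (fun p => integrable_gq_act2 (h6 p)) h5 hε hε1
    rw [mul_assoc]
    exact this

/-- the test function -/
def fF2 (d : ℕ) (c : ℕ → ℕ → ℝ) (y : Fin (k + 2) → ℝ) : ℝ :=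
  ∑ a ∈ range (d + 1), ∑ b ∈ range (d + 1), c a b * FA (Aab a b) y

/-- its transform -/
def fG2 (d : ℕ) (c : ℕ → ℕ → ℝ) (y : Fin (k + 2) → ℝ) : ℝ :=
  ∑ a ∈ range (d + 1), ∑ b ∈ range (d + 1), c a b * FB (Aab a b) y

/-- primal average -/
def HA2 (k d : ℕ) (c : ℕ → ℕ → ℝ) (C S x : ℝ) : ℝ :=
  ∑ a ∈ range (d + 1), ∑ b ∈ range (d + 1), c a b * ∑ i ∈ range (a + 1), ∑ j ∈ range (b + 1),
    (qP a).coeff i * (qP b).coeff j * (2 ^ (i + j) * C ^ i * S ^ j) * G k (i + j) x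

/-- dual average -/
def HB2 (k d : ℕ) (c : ℕ → ℕ → ℝ) (C S x : ℝ) : ℝ :=
  ∑ a ∈ range (d + 1), ∑ b ∈ range (d + 1), c a b * (2 ^ (a + b) * C ^ a * S ^ b * G k (a + b) x)

/-- value of the test function at the origin -/
def HS2 (d : ℕ) (c : ℕ → ℕ → ℝ) : ℝ :=
  ∑ a ∈ range (d + 1), ∑ b ∈ range (d + 1), c a b * ((qP a).coeff 0 * (qP b).coeff 0)

variable (d : ℕ)

lemma continuous_fF2 (c : ℕ → ℕ → ℝ) : Continuous (fF2 (k := k) d c) := by
  unfold fF2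
  exact continuous_finsetSum _ fun a _ => continuous_finsetSum _ fun b _ => continuous_const.mul (continuous_FA _)

lemma continuous_fG2 (c : ℕ → ℕ → ℝ) : Continuous (fG2 (k := k) d c) := by
  unfold fG2
  exact continuous_finsetSum _ fun a _ => continuous_finsetSum _ fun b _ => continuous_const.mul (continuous_FB _)

/-- bound for the test functions -/
def bF2 (k d : ℕ) (c : ℕ → ℕ → ℝ) : ℝ :=
  ∑ a ∈ range (d + 1), ∑ b ∈ range (d + 1), |c a b| * bcA (Aab a b : Fin (k + 2) → ℕ)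

lemma bF2_nonneg (c : ℕ → ℕ → ℝ) : 0 ≤ bF2 k d c :=
  sum_nonneg fun _ _ => sum_nonneg fun _ _ => mul_nonneg (abs_nonneg _) (bcA_nonneg _)

lemma fF2_bound (c : ℕ → ℕ → ℝ) (y : Fin (k + 2) → ℝ) :
    |fF2 d c y| ≤ bF2 k d c * Real.exp (-(π / 2 * ∑ i, y i ^ 2)) := by
  unfold fF2 bF2
  rw [sum_mul]
  refine (abs_sum_le_sum_abs _ _).trans (sum_le_sum fun a _ => ?_)
  rw [sum_mul]
  refine (abs_sum_le_sum_abs _ _).trans (sum_le_sum fun b _ => ?_)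
  rw [abs_mul, mul_assoc]
  exact mul_le_mul_of_nonneg_left (FA_bound _ _) (abs_nonneg _)

lemma fG2_bound (c : ℕ → ℕ → ℝ) (y : Fin (k + 2) → ℝ) :
    |fG2 d c y| ≤ bF2 k d c * Real.exp (-(π / 2 * ∑ i, y i ^ 2)) := by
  unfold fG2 bF2
  rw [sum_mul]
  refine (abs_sum_le_sum_abs _ _).trans (sum_le_sum fun a _ => ?_)
  rw [sum_mul]
  refine (abs_sum_le_sum_abs _ _).trans (sum_le_sum fun b _ => ?_)
  rw [abs_mul, mul_assoc]
  exact mul_le_mul_of_nonneg_left (FB_bound _ _) (abs_nonneg _)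

lemma integral_fF2_act2 {y : Fin (k + 2) → ℝ} (hy : Nd y) (c : ℕ → ℕ → ℝ) :
    ∫ τ : Fin k → ℝ, fF2 d c (act2 τ y) = (2 ^ k)⁻¹ * HA2 k d c (Cq y) (Sq y) (xo y) := by
  unfold fF2 HA2
  rw [integral_finsetSum _ fun a _ => integrable_finsetSum _ fun b _ => (integrable_FA_act2 hy a b).const_mul _,
    mul_sum]
  refine sum_congr rfl fun a _ => ?_
  rw [integral_finsetSum _ fun b _ => (integrable_FA_act2 hy a b).const_mul _, mul_sum]
  refine sum_congr rfl fun b _ => ?_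
  rw [integral_const_mul, integral_FA_act2 hy]
  ring

lemma integral_fG2_act2 {y : Fin (k + 2) → ℝ} (hy : Nd y) (c : ℕ → ℕ → ℝ) :
    ∫ τ : Fin k → ℝ, fG2 d c (act2 τ y) = (2 ^ k)⁻¹ * HB2 k d c (Cq y) (Sq y) (xo y) := by
  unfold fG2 HB2
  rw [integral_finsetSum _ fun a _ => integrable_finsetSum _ fun b _ => (integrable_FB_act2 hy a b).const_mul _,
    mul_sum]
  refine sum_congr rfl fun a _ => ?_
  rw [integral_finsetSum _ fun b _ => (integrable_FB_act2 hy a b).const_mul _, mul_sum]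
  refine sum_congr rfl fun b _ => ?_
  rw [integral_const_mul, integral_FB_act2 hy]
  ring

lemma FA_ab_zero (a b : ℕ) : FA (Aab a b) (0 : Fin (k + 2) → ℝ) = (qP a).coeff 0 * (qP b).coeff 0 := by
  unfold FA hf ga
  rw [Fin.prod_univ_succ, Fin.prod_univ_succ]
  unfold Aab
  simp only [Fin.cons_zero, Fin.cons_succ, Pi.zero_apply]
  have : ∀ t : ℝ, (qP 0).eval t = 1 := fun t => by simp [qP]
  simp [this, Polynomial.coeff_zero_eq_eval_zero]

lemma fF2_zero (c : ℕ → ℕ → ℝ) : fF2 d c (0 : Fin (k + 2) → ℝ) = HS2 d c := by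
  unfold fF2 HS2
  refine sum_congr rfl fun a _ => sum_congr rfl fun b _ => ?_
  rw [FA_ab_zero]

lemma FB_ab_zero (a b : ℕ) : FB (Aab a b) (0 : Fin (k + 2) → ℝ) = if a = 0 ∧ b = 0 then 1 else 0 := by
  unfold FB hg ga
  rw [Fin.prod_univ_succ, Fin.prod_univ_succ]
  unfold Aab
  simp only [Fin.cons_zero, Fin.cons_succ, Pi.zero_apply]
  by_cases ha : a = 0
  · by_cases hb : b = 0
    · simp [ha, hb]
    · simp [hb]
  · simp [ha]

lemma fG2_zero (c : ℕ → ℕ → ℝ) : fG2 d c (0 : Fin (k + 2) → ℝ) = c 0 0 := by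
  unfold fG2
  rw [sum_eq_single_of_mem 0 (by simp), sum_eq_single_of_mem 0 (by simp)]
  · rw [FB_ab_zero]; simp
  · intro b _ hb0
    rw [FB_ab_zero]; simp [hb0]
  · intro a _ ha0
    refine sum_eq_zero fun b _ => ?_
    rw [FB_ab_zero]; simp [ha0]

lemma summable_of_unif2 {M : Matrix (Fin (k + 2)) (Fin (k + 2)) ℝ} {ρ : ℝ} (hρ : 0 < ρ) (h : Unif2 M ρ)
    (τ : Fin k → ℝ) {F : (Fin (k + 2) → ℝ) → ℝ} {C0 : ℝ}
    (hb : ∀ y, |F y| ≤ C0 * Real.exp (-(π / 2 * ∑ i, y i ^ 2))) :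
    Summable (fun p : Fin (k + 2) → ℤ => F (act2 τ (M.mulVec (zr p)))) :=
  ((pack_summable (c := π / 2) hρ (by positivity) (fun p : Fin (k + 2) → ℤ => act2 τ (M.mulVec (zr p)))
    (h.sep τ)).mul_left C0).of_norm_bounded fun p => by rw [Real.norm_eq_abs]; exact hb _

lemma act2_zero_vec (τ : Fin k → ℝ) : act2 τ (0 : Fin (k + 2) → ℝ) = 0 := act_zero _

/-- **The linear programming bound averaged over the subgroup.** -/
theorem lp_bound2 {c : ℕ → ℕ → ℝ} (hB : ∀ C S : ℝ, 0 ≤ C → 0 ≤ S → C + S = 1 → ∀ x, 0 ≤ HB2 k d c C S x)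
    (M : Matrix (Fin (k + 2)) (Fin (k + 2)) ℝ) (hM : M.det ≠ 0) {ν : ℝ} (hν0 : 0 < ν)
    (hν : ∀ p : Fin (k + 2) → ℤ, p ≠ 0 → ν ≤ nm2 (M.mulVec (zr p)))
    (hA : ∀ p : Fin (k + 2) → ℤ, p ≠ 0 →
      HA2 k d c (Cq (M.mulVec (zr p))) (Sq (M.mulVec (zr p))) (xo (M.mulVec (zr p))) ≤ 0) :
    c 0 0 ≤ |M.det| * HS2 d c := by
  have hπ := Real.pi_pos
  have hdet : 0 < |M.det| := abs_pos.2 hM
  -- the lattice is uniform
  obtain ⟨ρ, hρ, hU⟩ := unif2_of_nm2 hν0 hν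
  obtain ⟨ρ', hρ', hU'⟩ := dual_unif2 hM hρ hU
  set D := (M⁻¹).transpose with hD
  have hne : ∀ (p : {p : Fin (k + 2) → ℤ // p ≠ 0}), Nd (pt2 M p) := fun p =>
    Nd_of_nm2 hν0 (hν p.1 p.2)
  have hne' : ∀ (p : {p : Fin (k + 2) → ℤ // p ≠ 0}), Nd (pt2 D p) := fun p =>
    Nd_of_nm2 (pow_pos hρ' _) (hU'.nm2 hρ' p.1 p.2)
  have hC00 : 0 ≤ bF2 k d c := bF2_nonneg d c
  -- averages
  obtain ⟨C, hC, hav⟩ := avg_lattice2 hρ hU (continuous_fF2 d c) hC00 (fF2_bound d c) (fun p => by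
    rw [integral_fF2_act2 d (hne p)]
    exact mul_nonpos_of_nonneg_of_nonpos (by positivity) (hA p.1 p.2))
  obtain ⟨C', hC', hav'⟩ := avg_lattice2 hρ' hU' (F := fun y => -fG2 d c y) (continuous_fG2 d c).neg hC00
    (fun y => by rw [abs_neg]; exact fG2_bound d c y) (fun p => by
    rw [integral_neg, integral_fG2_act2 d (hne' p)]
    have := hB (Cq (pt2 D p)) (Sq (pt2 D p)) (Cq_nonneg _) (Sq_nonneg _) (Cq_add_Sq (hne' p)) (xo (pt2 D p))
    have h2 : 0 ≤ ((2 : ℝ) ^ k)⁻¹ * HB2 k d c (Cq (pt2 D p)) (Sq (pt2 D p)) (xo (pt2 D p)) :=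
      mul_nonneg (by positivity) this
    linarith)
  -- Poisson
  have hpo : ∀ τ : Fin k → ℝ, ∑' p, fF2 d c (act2 τ (pt2 M p)) + |M.det|⁻¹ * ∑' p, -fG2 d c (act2 (-τ) (pt2 D p)) =
      |M.det|⁻¹ * c 0 0 - HS2 d c := by
    intro τ
    have s1 := summable_of_unif2 hρ hU τ (fF2_bound d c)
    have s2 := summable_of_unif2 hρ' hU' (-τ) (fG2_bound d c)
    have e1 := split_zero s1
    have e2 := split_zero s2
    have e3 : ∑' p : Fin (k + 2) → ℤ, fF2 d c (act2 τ (M.mulVec (zr p))) =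
        |M.det|⁻¹ * ∑' p : Fin (k + 2) → ℤ, fG2 d c (act2 (-τ) (D.mulVec (zr p))) := by
      unfold fF2 fG2
      have sA : ∀ a b : ℕ, Summable (fun p : Fin (k + 2) → ℤ => c a b * FA (Aab a b) (act2 τ (M.mulVec (zr p)))) :=
        fun a b => (summable_of_unif2 hρ hU τ (FA_bound _)).mul_left _
      have sB : ∀ a b : ℕ, Summable (fun p : Fin (k + 2) → ℤ => c a b * FB (Aab a b) (act2 (-τ) (D.mulVec (zr p)))) :=
        fun a b => (summable_of_unif2 hρ' hU' (-τ) (FB_bound _)).mul_left _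
      rw [Summable.tsum_finsetSum (fun a _ => summable_sum fun b _ => sA a b),
        Summable.tsum_finsetSum (fun a _ => summable_sum fun b _ => sB a b), mul_sum]
      refine sum_congr rfl fun a _ => ?_
      rw [Summable.tsum_finsetSum (fun b _ => sA a b), Summable.tsum_finsetSum (fun b _ => sB a b), mul_sum]
      refine sum_congr rfl fun b _ => ?_
      rw [tsum_mul_left, tsum_mul_left, poisson_act2 M hM]
      ring
    rw [e1, e2, zr_zero, Matrix.mulVec_zero, Matrix.mulVec_zero, act2_zero_vec, act2_zero_vec, fF2_zero, fG2_zero] at e3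
    rw [tsum_neg]
    unfold pt2
    linarith
  set δ : ℝ := |M.det|⁻¹ * c 0 0 - HS2 d c with hδ
  -- the inequality for every ε
  have key : ∀ ε : ℝ, 0 < ε → ε ≤ 1 → δ ≤ ε * (C + |M.det|⁻¹ * C') := by
    intro ε hε hε1
    obtain ⟨i1, a1⟩ := hav ε hε hε1
    obtain ⟨i2, a2⟩ := hav' ε hε hε1
    have hW := integral_wt_pos (m := k) hε
    have i3 : Integrable (fun τ : Fin k → ℝ => wt ε τ * ∑' p, -fG2 d c (act2 (-τ) (pt2 D p))) := by
      have := i2.comp_neg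
      simp only [wt_neg] at this
      exact this
    have a3 : ∫ τ : Fin k → ℝ, wt ε τ * ∑' p, -fG2 d c (act2 (-τ) (pt2 D p)) =
        ∫ τ : Fin k → ℝ, wt ε τ * ∑' p, -fG2 d c (act2 τ (pt2 D p)) := by
      rw [← integral_neg_eq_self (fun τ : Fin k → ℝ => wt ε τ * ∑' p, -fG2 d c (act2 τ (pt2 D p)))]
      simp only [wt_neg]
    have e1 : ∫ τ : Fin k → ℝ, (wt ε τ * ∑' p, fF2 d c (act2 τ (pt2 M p)) +
        |M.det|⁻¹ * (wt ε τ * ∑' p, -fG2 d c (act2 (-τ) (pt2 D p)))) = δ * ∫ τ : Fin k → ℝ, wt ε τ := by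
      rw [← integral_const_mul]
      congr 1
      funext τ
      rw [← hpo τ]; ring
    rw [integral_add i1 (i3.const_mul _), integral_const_mul, a3] at e1
    have h4 : |M.det|⁻¹ * ∫ τ : Fin k → ℝ, wt ε τ * ∑' p, -fG2 d c (act2 τ (pt2 D p)) ≤
        |M.det|⁻¹ * (ε * (C' * ∫ τ : Fin k → ℝ, wt ε τ)) :=
      mul_le_mul_of_nonneg_left a2 (by positivity)
    have h5 : δ * ∫ τ : Fin k → ℝ, wt ε τ ≤ (ε * (C + |M.det|⁻¹ * C')) * ∫ τ : Fin k → ℝ, wt ε τ := by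
      rw [← e1]
      calc _ ≤ ε * (C * ∫ τ : Fin k → ℝ, wt ε τ) + |M.det|⁻¹ * (ε * (C' * ∫ τ : Fin k → ℝ, wt ε τ)) :=
            add_le_add a1 h4
        _ = _ := by ring
    exact le_of_mul_le_mul_right h5 hW
  have hδ0 : δ ≤ 0 := by
    by_contra hpos
    push Not at hpos
    set E := C + |M.det|⁻¹ * C' with hE
    have hE0 : 0 ≤ E := add_nonneg hC (mul_nonneg (by positivity) hC')
    have h1 := key (min 1 (δ / (2 * (E + 1)))) (lt_min one_pos (by positivity)) (min_le_left _ _)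
    have h2 : min 1 (δ / (2 * (E + 1))) * E ≤ (δ / (2 * (E + 1))) * (E + 1) :=
      mul_le_mul (min_le_right _ _) (by linarith) hE0 (by positivity)
    have h3 : (δ / (2 * (E + 1))) * (E + 1) = δ / 2 := by field_simp
    linarith
  have h6 : |M.det|⁻¹ * c 0 0 ≤ HS2 d c := by linarith
  rwa [inv_mul_le_iff₀ hdet] at h6

end

end Pool.Agent.Helper22.Opu
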