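import Pool.Agent.Helper22.Opu.Orb

/-!
# Uniform bounds over the subgroup
-/

set_option autoImplicit false

open MeasureTheory Real Finset Filter Topology

namespace Pool.Agent.Helper22.Opu

open Pool.Agent.Helper22.Opp

noncomputable section

variable {k : ℕ}

/-- the norm attached to the subgroup -/
def nm2 (y : Fin (k + 2) → ℝ) : ℝ := rho2 y * ∏ i : Fin k, |y i.succ.succ|

lemma rho2_nonneg (y : Fin (k + 2) → ℝ) : 0 ≤ rho2 y := by unfold rho2; positivity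

lemma nm2_nonneg (y : Fin (k + 2) → ℝ) : 0 ≤ nm2 y :=
  mul_nonneg (rho2_nonneg y) (prod_nonneg fun _ _ => abs_nonneg _)

lemma Nd_of_nm2 {y : Fin (k + 2) → ℝ} {ν : ℝ} (hν : 0 < ν) (h : ν ≤ nm2 y) : Nd y := by
  constructor
  · rcases (rho2_nonneg y).lt_or_eq with h1 | h1
    · exact h1
    · exfalso
      unfold nm2 at h
      rw [← h1, zero_mul] at h
      linarith
  · intro i hi
    unfold nm2 at h
    rw [prod_eq_zero (mem_univ i) (by rw [hi, abs_zero]), mul_zero] at h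
    linarith

lemma rho2_act2 (τ : Fin k → ℝ) (y : Fin (k + 2) → ℝ) : rho2 (act2 τ y) = Real.exp (-(∑ i, τ i)) * rho2 y := by
  unfold rho2
  rw [act2_zero, act2_one]
  have e : Real.exp (-(∑ i, τ i)) = Real.exp (-(∑ i, τ i) / 2) ^ 2 := by
    rw [← Real.exp_nat_mul]; congr 1; push_cast; ring
  rw [e]; ring

lemma nm2_act2 (τ : Fin k → ℝ) (y : Fin (k + 2) → ℝ) : nm2 (act2 τ y) = nm2 y := by
  unfold nm2
  rw [rho2_act2]
  have h : ∏ i : Fin k, |act2 τ y i.succ.succ| = Real.exp (∑ i, τ i) * ∏ i : Fin k, |y i.succ.succ| := by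
    rw [Real.exp_sum, ← prod_mul_distrib]
    refine prod_congr rfl fun i _ => ?_
    rw [act2_succ, abs_mul, abs_of_pos (Real.exp_pos _)]
  rw [h, Real.exp_neg]
  have := Real.exp_pos (∑ i, τ i)
  field_simp

lemma xo_eq {y : Fin (k + 2) → ℝ} : xo y = -Real.log (π ^ (k + 2) * nm2 y ^ 2) := by
  unfold xo nm2
  congr 3
  rw [mul_pow, ← prod_pow]
  congr 1
  exact prod_congr rfl fun i _ => (sq_abs _).symm

/-- the vector with equal first entries -/
def tld (r : ℝ) (y : Fin (k + 2) → ℝ) : Fin (k + 2) → ℝ := Fin.cons r (Fin.cons r fun i => y i.succ.succ)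

lemma tld_zero (r : ℝ) (y : Fin (k + 2) → ℝ) : tld r y 0 = r := rfl
lemma tld_one (r : ℝ) (y : Fin (k + 2) → ℝ) : tld r y (Fin.succ 0) = r := rfl
lemma tld_succ (r : ℝ) (y : Fin (k + 2) → ℝ) (i : Fin k) : tld r y i.succ.succ = y i.succ.succ := rfl

lemma prod_tld (r : ℝ) (hr : 0 ≤ r) (y : Fin (k + 2) → ℝ) :
    |∏ i, tld r y i| = r ^ 2 * ∏ i : Fin k, |y i.succ.succ| := by
  rw [Fin.prod_univ_succ, Fin.prod_univ_succ]
  simp only [tld_zero, tld_one, tld_succ]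
  rw [abs_mul, abs_mul, abs_prod, abs_of_nonneg hr]
  ring

lemma norm_act2_le (τ : Fin k → ℝ) (τ' : Fin (k + 1) → ℝ) (hτ : ∀ i : Fin k, τ' i.succ = τ i)
    (y : Fin (k + 2) → ℝ) : ‖act2 τ y‖ ≤ ‖act τ' (tld (Real.sqrt (rho2 y)) y)‖ := by
  set r := Real.sqrt (rho2 y) with hr
  have hr0 : 0 ≤ r := Real.sqrt_nonneg _
  have h0 : |y 0| ≤ r := by
    rw [hr]; apply Real.abs_le_sqrt; unfold rho2; nlinarith [sq_nonneg (y (Fin.succ 0))]
  have h1 : |y (Fin.succ 0)| ≤ r := by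
    rw [hr]; apply Real.abs_le_sqrt; unfold rho2; nlinarith [sq_nonneg (y 0)]
  set Z := act τ' (tld r y) with hZ
  have hZ0 : Z 0 = Real.exp (-(τ' 0) - ∑ i, τ i) * r := by
    rw [hZ]; unfold act
    rw [ex_zero, tld_zero, Fin.sum_univ_succ]
    congr 2
    simp only [hτ]; ring
  have hZ1 : Z (Fin.succ 0) = Real.exp (τ' 0) * r := by
    rw [hZ]; unfold act
    rw [ex_succ, tld_one]
  have hmid : Real.exp (-(∑ i, τ i) / 2) * r ≤ ‖Z‖ := by
    have a0 := norm_le_pi_norm Z 0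
    have a1 := norm_le_pi_norm Z (Fin.succ 0)
    rw [hZ0, Real.norm_eq_abs, abs_of_nonneg (mul_nonneg (Real.exp_pos _).le hr0)] at a0
    rw [hZ1, Real.norm_eq_abs, abs_of_nonneg (mul_nonneg (Real.exp_pos _).le hr0)] at a1
    by_cases hc : -(∑ i, τ i) / 2 ≤ τ' 0
    · exact (mul_le_mul_of_nonneg_right (Real.exp_le_exp.2 hc) hr0).trans a1
    · push Not at hc
      refine (mul_le_mul_of_nonneg_right (Real.exp_le_exp.2 ?_) hr0).trans a0
      linarith
  rw [pi_norm_le_iff_of_nonneg (norm_nonneg _)]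
  intro i
  refine Fin.cases ?_ (fun j => ?_) i
  · rw [act2_zero, Real.norm_eq_abs, abs_mul, abs_of_pos (Real.exp_pos _)]
    exact (mul_le_mul_of_nonneg_left h0 (Real.exp_pos _).le).trans hmid
  · refine Fin.cases ?_ (fun l => ?_) j
    · rw [act2_one, Real.norm_eq_abs, abs_mul, abs_of_pos (Real.exp_pos _)]
      exact (mul_le_mul_of_nonneg_left h1 (Real.exp_pos _).le).trans hmid
    · have a := norm_le_pi_norm Z l.succ.succ
      have e : Z l.succ.succ = act2 τ y l.succ.succ := by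
        rw [hZ, act2_succ]; unfold act
        rw [ex_succ, hτ, tld_succ]
      rw [e] at a
      exact a

/-- uniform lower bound for the sup norm -/
def Unif2 (M : Matrix (Fin (k + 2)) (Fin (k + 2)) ℝ) (ρ : ℝ) : Prop :=
  ∀ (τ : Fin k → ℝ) (p : Fin (k + 2) → ℤ), p ≠ 0 → ρ ≤ ‖act2 τ (M.mulVec (zr p))‖

lemma act2_sub (τ : Fin k → ℝ) (y z : Fin (k + 2) → ℝ) : act2 τ (y - z) = act2 τ y - act2 τ z := act_sub _ _ _

lemma Unif2.sep {M : Matrix (Fin (k + 2)) (Fin (k + 2)) ℝ} {ρ : ℝ} (h : Unif2 M ρ) (τ : Fin k → ℝ)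
    (p p' : Fin (k + 2) → ℤ) (hp : p ≠ p') :
    ρ ≤ ‖act2 τ (M.mulVec (zr p)) - act2 τ (M.mulVec (zr p'))‖ := by
  rw [← act2_sub, ← Matrix.mulVec_sub, zr_sub]
  exact h τ _ (sub_ne_zero.2 hp)

lemma Unif2.nm2 {M : Matrix (Fin (k + 2)) (Fin (k + 2)) ℝ} {ρ : ℝ} (hρ : 0 < ρ) (h : Unif2 M ρ)
    (p : Fin (k + 2) → ℤ) (hp : p ≠ 0) : ρ ^ (k + 2) ≤ nm2 (M.mulVec (zr p)) := by
  set y := M.mulVec (zr p) with hy
  have h1 := prod_ge_of_norm (m := k + 1) (y := tld (Real.sqrt (rho2 y)) y) hρ (fun τ' =>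
    (h (fun i => τ' i.succ) p hp).trans (norm_act2_le _ τ' (fun _ => rfl) y))
  rw [prod_tld _ (Real.sqrt_nonneg _), Real.sq_sqrt (rho2_nonneg y)] at h1
  exact h1

lemma nm2_le_norm (y : Fin (k + 2) → ℝ) : nm2 y ≤ 2 * ‖y‖ ^ (k + 2) := by
  unfold nm2 rho2
  have h0 : y 0 ^ 2 ≤ ‖y‖ ^ 2 := by
    have := norm_le_pi_norm y 0
    rw [Real.norm_eq_abs] at this
    rw [← sq_abs (y 0)]
    exact pow_le_pow_left₀ (abs_nonneg _) this 2
  have h1 : y (Fin.succ 0) ^ 2 ≤ ‖y‖ ^ 2 := by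
    have := norm_le_pi_norm y (Fin.succ 0)
    rw [Real.norm_eq_abs] at this
    rw [← sq_abs (y (Fin.succ 0))]
    exact pow_le_pow_left₀ (abs_nonneg _) this 2
  have h2 : ∏ i : Fin k, |y i.succ.succ| ≤ ‖y‖ ^ k := by
    calc ∏ i : Fin k, |y i.succ.succ| ≤ ∏ _i : Fin k, ‖y‖ :=
          prod_le_prod (fun _ _ => abs_nonneg _) fun i _ => norm_le_pi_norm y i.succ.succ
      _ = _ := by simp
  have h3 : 0 ≤ ∏ i : Fin k, |y i.succ.succ| := prod_nonneg fun _ _ => abs_nonneg _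
  calc (y 0 ^ 2 + y (Fin.succ 0) ^ 2) * ∏ i : Fin k, |y i.succ.succ| ≤ (2 * ‖y‖ ^ 2) * ‖y‖ ^ k :=
        mul_le_mul (by linarith) h2 h3 (by positivity)
    _ = _ := by ring

lemma unif2_of_nm2 {M : Matrix (Fin (k + 2)) (Fin (k + 2)) ℝ} {ν : ℝ} (hν : 0 < ν)
    (h : ∀ p : Fin (k + 2) → ℤ, p ≠ 0 → ν ≤ nm2 (M.mulVec (zr p))) :
    ∃ ρ : ℝ, 0 < ρ ∧ Unif2 M ρ := by
  refine ⟨min (ν / 2) 1, lt_min (by linarith) one_pos, fun τ p hp => ?_⟩
  set ρ := min (ν / 2) 1 with hρ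
  have hρ0 : 0 < ρ := lt_min (by linarith) one_pos
  by_contra hlt
  push Not at hlt
  have h1 := nm2_le_norm (act2 τ (M.mulVec (zr p)))
  rw [nm2_act2] at h1
  have h2 := h p hp
  have h3 : ‖act2 τ (M.mulVec (zr p))‖ ^ (k + 2) < ρ ^ (k + 2) :=
    pow_lt_pow_left₀ hlt (norm_nonneg _) (by omega)
  have h4 : ρ ^ (k + 2) ≤ ρ := pow_le_of_le_one hρ0.le (min_le_right _ _) (by omega)
  have h5 : ρ ≤ ν / 2 := min_le_left _ _
  linarith

/-- Poisson summation for the translates of a lattice -/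
lemma poisson_act2 (M : Matrix (Fin (k + 2)) (Fin (k + 2)) ℝ) (hM : M.det ≠ 0) (A : Fin (k + 2) → ℕ)
    (τ : Fin k → ℝ) :
    ∑' p : Fin (k + 2) → ℤ, FA A (act2 τ (M.mulVec (zr p))) =
      |M.det|⁻¹ * ∑' q : Fin (k + 2) → ℤ, FB A (act2 (-τ) ((M⁻¹).transpose.mulVec (zr q))) := by
  have h := poisson_act M hM A (lft τ)
  rw [← lft_neg] at h
  exact h

/-- the dual lattice also stays away from `0` under the subgroup -/
lemma dual_unif2 {M : Matrix (Fin (k + 2)) (Fin (k + 2)) ℝ} (hM : M.det ≠ 0) {ρ : ℝ} (hρ : 0 < ρ)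
    (h : Unif2 M ρ) : ∃ ρ' : ℝ, 0 < ρ' ∧ Unif2 (M⁻¹).transpose ρ' := by
  set D := (M⁻¹).transpose with hD
  set C := |M.det| * packC (k + 2) ρ π with hC
  have hC0 : 0 ≤ C := mul_nonneg (abs_nonneg _) (packC_nonneg _ hρ)
  have hdet : 0 < |M.det| := abs_pos.2 hM
  -- uniform bound for the dual theta function
  have hb : ∀ τ : Fin k → ℝ, ∑' q : Fin (k + 2) → ℤ, Real.exp (-(π * ∑ i, act2 τ (D.mulVec (zr q)) i ^ 2)) ≤ C := by
    intro τ
    have h1 := poisson_act2 M hM (fun _ => 0) (-τ)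
    simp only [FA_false, FB_false, neg_neg] at h1
    have h2 := pack_tsum (c := π) hρ Real.pi_pos (fun p : Fin (k + 2) → ℤ => act2 (-τ) (M.mulVec (zr p)))
      (h.sep (-τ))
    rw [h1] at h2
    rw [inv_mul_le_iff₀ hdet] at h2
    exact h2
  have hDdet : D.det ≠ 0 := by
    rw [hD, Matrix.det_transpose, Matrix.det_nonsing_inv, Ring.inverse_eq_inv']
    exact inv_ne_zero hM
  obtain ⟨N, hN⟩ := exists_nat_gt (C * Real.exp π)
  have hN0 : (0 : ℝ) < N := lt_of_le_of_lt (by positivity) hN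
  have hm1 : (0 : ℝ) < (k : ℝ) + 2 := by positivity
  refine ⟨1 / (N * (k + 2)), by positivity, fun τ q hk => ?_⟩
  by_contra hlt
  push Not at hlt
  set y := act2 τ (D.mulVec (zr q)) with hy
  have hsq : ∑ i, y i ^ 2 ≤ 1 / N ^ 2 := by
    have h1 : ∀ i, y i ^ 2 ≤ (1 / (N * (k + 2))) ^ 2 := by
      intro i
      have h2 := (norm_le_pi_norm y i).trans hlt.le
      rw [Real.norm_eq_abs] at h2
      exact sq_le_sq' (by linarith [neg_abs_le (y i)]) (by linarith [le_abs_self (y i)])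
    calc ∑ i, y i ^ 2 ≤ ∑ _i : Fin (k + 2), (1 / (N * (k + 2) : ℝ)) ^ 2 := sum_le_sum fun i _ => h1 i
      _ = (1 / N ^ 2) * (1 / (k + 2)) := by
          simp only [sum_const, card_univ, Fintype.card_fin, nsmul_eq_mul]
          push_cast
          field_simp
      _ ≤ (1 / N ^ 2) * 1 := by
          refine mul_le_mul_of_nonneg_left ?_ (by positivity)
          rw [div_le_one hm1]
          have : (0 : ℝ) ≤ k := Nat.cast_nonneg k
          linarith
      _ = _ := mul_one _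
  -- multiples
  have hinj : Function.Injective (fun j : ℕ => (fun i => (j : ℤ) * q i : Fin (k + 2) → ℤ)) := by
    intro j j' hjj
    obtain ⟨i, hi⟩ := Function.ne_iff.1 hk
    have := congrFun hjj i
    simp only at this
    have h3 := mul_right_cancel₀ hi this
    exact_mod_cast h3
  -- summability of the dual theta series
  have hS : Summable (fun q : Fin (k + 2) → ℤ => Real.exp (-(π * ∑ i, act2 τ (D.mulVec (zr q)) i ^ 2))) := by
    obtain ⟨b, hb0, hb⟩ := quad_lower (BM (lft τ) D) (by rw [BM_det]; exact hDdet)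
    refine (pack_summable (c := π * b) one_pos (by positivity) zr zr_sep).of_nonneg_of_le
      (fun _ => (Real.exp_pos _).le) fun q => ?_
    apply Real.exp_le_exp.2
    have := hb (zr q)
    rw [BM_mulVec] at this
    have hπ := Real.pi_pos
    unfold act2
    nlinarith
  have h4 : ∑ j ∈ range N, Real.exp (-(π * ∑ i, act2 τ (D.mulVec (zr (fun i => (j : ℤ) * q i))) i ^ 2)) ≤ C := by
    have h5 := hS.sum_le_tsum ((range N).map ⟨_, hinj⟩) (fun _ _ => (Real.exp_pos _).le)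
    rw [sum_map] at h5
    exact h5.trans (hb τ)
  have h6 : ∀ j ∈ range N, Real.exp (-π) ≤
      Real.exp (-(π * ∑ i, act2 τ (D.mulVec (zr (fun i => (j : ℤ) * q i))) i ^ 2)) := by
    intro j hj
    rw [mem_range] at hj
    apply Real.exp_le_exp.2
    have h7 : zr (fun i => (j : ℤ) * q i) = (j : ℝ) • zr q := by
      funext i; simp [zr]
    have h7' : act2 τ (D.mulVec (zr (fun i => (j : ℤ) * q i))) = (j : ℝ) • y := by
      rw [h7, Matrix.mulVec_smul, hy]; unfold act2; rw [act_smul]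
    rw [h7']
    have h8 : ∑ i, ((j : ℝ) • y) i ^ 2 = j ^ 2 * ∑ i, y i ^ 2 := by
      rw [mul_sum]
      exact sum_congr rfl fun i _ => by simp only [Pi.smul_apply, smul_eq_mul]; ring
    rw [h8]
    have h9 : (j : ℝ) ≤ N := by exact_mod_cast hj.le
    have h10 : (j : ℝ) ^ 2 * ∑ i, y i ^ 2 ≤ 1 := by
      calc (j : ℝ) ^ 2 * ∑ i, y i ^ 2 ≤ N ^ 2 * (1 / N ^ 2) := by
            refine mul_le_mul (pow_le_pow_left₀ (Nat.cast_nonneg _) h9 2) hsq
              (sum_nonneg fun _ _ => sq_nonneg _) (by positivity)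
        _ = 1 := by field_simp
    nlinarith [Real.pi_pos]
  have h11 := (sum_le_sum h6).trans h4
  rw [sum_const, card_range, nsmul_eq_mul, Real.exp_neg] at h11
  have h12 : (N : ℝ) ≤ C * Real.exp π := by
    have hp := Real.exp_pos π
    rw [← div_eq_mul_inv, div_le_iff₀ hp] at h11
    exact h11
  linarith

/-- centre -/
def ctr2 (y : Fin (k + 2) → ℝ) : Fin k → ℝ := fun i => -Real.log (|y i.succ.succ|)

lemma exp_ctr_le {y : Fin (k + 2) → ℝ} {ν : ℝ} (hν : 0 < ν) (h : ν ≤ nm2 y) (τ : Fin k → ℝ) :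
    Real.exp (2 * ∑ i, |τ i - ctr2 y i|) ≤
      Real.exp ((2 * ((k + 1 : ℕ) : ℝ) * (((k + 1 : ℕ) : ℝ) + 1)) ^ 2 / π +
        2 * ((k + 1 : ℕ) : ℝ) * |Real.log (ν / 2)|) *
      Real.exp (π / 4 * ∑ i, act2 τ y i ^ 2) := by
  have hNd := Nd_of_nm2 hν h
  set z := act2 τ y with hz
  set r := Real.sqrt (rho2 z / 2) with hr
  have hr0 : 0 ≤ r := Real.sqrt_nonneg _
  have hr2 : r ^ 2 = rho2 z / 2 := Real.sq_sqrt (div_nonneg (rho2_nonneg z) (by norm_num))
  have hz2 : ν ≤ nm2 z := by rw [hz, nm2_act2]; exact h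
  have hp : ν / 2 ≤ |∏ i, tld r z i| := by
    rw [prod_tld r hr0, hr2]
    unfold nm2 at hz2
    linarith
  have e1 := exp_psi_le (m := k + 1) (y := tld r z) (half_pos hν) hp
  have e2 : ∑ i, tld r z i ^ 2 = ∑ i, z i ^ 2 := by
    rw [Fin.sum_univ_succ, Fin.sum_univ_succ, Fin.sum_univ_succ (fun i => z i ^ 2),
      Fin.sum_univ_succ (fun i : Fin (k + 1) => z i.succ ^ 2)]
    simp only [tld_zero, tld_one, tld_succ]
    rw [hr2]; unfold rho2; ring
  rw [e2] at e1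
  refine le_trans (Real.exp_le_exp.2 ?_) e1
  have e3 : ∑ i, |τ i - ctr2 y i| ≤ psi (tld r z) := by
    unfold psi
    rw [Fin.sum_univ_succ]
    have h0 := abs_nonneg (Real.log (|tld r z (Fin.succ 0)|))
    have : ∑ i, |τ i - ctr2 y i| = ∑ i : Fin k, |Real.log (|tld r z i.succ.succ|)| := by
      refine sum_congr rfl fun i _ => ?_
      rw [tld_succ, hz, act2_succ, abs_mul, abs_of_pos (Real.exp_pos _),
        Real.log_mul (Real.exp_pos _).ne' (abs_pos.2 (hNd.2 i)).ne', Real.log_exp]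
      unfold ctr2
      congr 1; ring
    rw [this]
    linarith
  linarith

end

end Pool.Agent.Helper22.Opu
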