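import Mathlib

/-!
# Norm forms of totally real fields of degrees 4, 5, 6
-/

set_option autoImplicit false

open Polynomial Finset

namespace Pool.Agent.Helper22.Opu.Norm

lemma eq_zero_of_root {f P : ℤ[X]} (hm : f.Monic) (hirr : Irreducible f) {θ : ℝ} (h : aeval θ f = 0)
    (hP : aeval θ P = 0) (hd : P.degree < f.degree) : P = 0 := by
  have hint : IsIntegral ℤ θ := ⟨f, hm, by rwa [aeval_def] at h⟩
  have h1 : minpoly ℤ θ ∣ f := minpoly.isIntegrallyClosed_dvd hint h
  have h2 : minpoly ℤ θ ∣ P := minpoly.isIntegrallyClosed_dvd hint hP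
  have h3 : ¬ IsUnit (minpoly ℤ θ) := minpoly.not_isUnit ℤ θ
  obtain ⟨r, hr⟩ := h1
  have h4 : IsUnit r := (hirr.isUnit_or_isUnit hr).resolve_left h3
  have h5 : f ∣ P := by
    rw [hr]
    obtain ⟨u, hu⟩ := h4
    rw [← hu]
    exact (Units.mul_right_dvd).2 h2
  by_contra hne
  exact absurd (hm.not_dvd_of_degree_lt hne hd) (not_not.2 h5)

/-- the norm form takes nonzero integral values -/
theorem norm_form {n : ℕ} {f : ℤ[X]} (hm : f.Monic) (hdeg : f.natDegree = n) (hirr : Irreducible f)
    {θ : Fin n → ℝ} (hinj : Function.Injective θ) (hroot : ∀ i, aeval (θ i) f = 0) (p : Fin n → ℤ) (hp : p ≠ 0) :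
    1 ≤ |∏ i, ∑ j, Matrix.vandermonde θ i j * (p j : ℝ)| := by
  classical
  set P : ℤ[X] := ∑ j : Fin n, C (p j) * X ^ (j : ℕ) with hPdef
  have hev : ∀ x : ℝ, aeval x P = ∑ j : Fin n, x ^ (j : ℕ) * (p j : ℝ) := by
    intro x
    rw [hPdef, map_sum]
    refine sum_congr rfl fun j _ => ?_
    simp [mul_comm]
  have hcoeff : ∀ j : Fin n, P.coeff j = p j := by
    intro j
    rw [hPdef, finset_sum_coeff, sum_eq_single j]
    · simp
    · intro i _ hi
      have : (j : ℕ) ≠ i := fun h => hi (Fin.ext h.symm)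
      simp [coeff_X_pow, this]
    · intro h; exact absurd (mem_univ j) h
  have hP0 : P ≠ 0 := by
    intro h
    apply hp
    funext j
    rw [← hcoeff j, h]; simp
  have hn : 0 < n := by
    rcases Nat.eq_zero_or_pos n with h | h
    · subst h; exact absurd (Subsingleton.elim p 0) hp
    · exact h
  have hPd : P.degree < f.degree := by
    rw [degree_eq_natDegree hm.ne_zero, hdeg, hPdef]
    refine (degree_sum_le _ _).trans_lt ?_
    rw [Finset.sup_lt_iff (by exact WithBot.bot_lt_coe n)]
    intro j _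
    refine (degree_C_mul_X_pow_le _ _).trans_lt ?_
    exact_mod_cast j.2
  have hPn : P.natDegree ≤ n := by
    have := natDegree_lt_natDegree hP0 hPd
    rw [hdeg] at this; exact this.le
  -- the roots
  set g : ℝ[X] := f.map (Int.castRingHom ℝ) with hg
  have hgm : g.Monic := hm.map _
  have hgd : g.natDegree = n := by rw [hg, hm.natDegree_map, hdeg]
  have hle : (univ.val.map θ) ≤ g.roots := by
    rw [Multiset.le_iff_subset (Multiset.Nodup.map hinj univ.nodup)]
    intro x hx
    rw [Multiset.mem_map] at hx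
    obtain ⟨i, -, rfl⟩ := hx
    rw [mem_roots hgm.ne_zero, IsRoot, hg, eval_map, ← hroot i, aeval_def]
    rfl
  have hcard : Multiset.card g.roots ≤ Multiset.card (univ.val.map θ) := by
    refine (card_roots' g).trans ?_
    rw [hgd]; simp
  have hroots : g.roots = univ.val.map θ := (Multiset.eq_of_le_of_card_le hle hcard).symm
  have hsplit : g.Splits := by
    rw [splits_iff_card_roots, hroots, hgd]; simp
  have hres := resultant_eq_prod_eval g (P.map (Int.castRingHom ℝ)) n ((natDegree_map_le).trans hPn) hsplit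
  rw [hgm.leadingCoeff, one_pow, one_mul, hroots, Multiset.map_map, hg, hm.natDegree_map, resultant_map_map] at hres
  have hprod : ∏ i, ∑ j, Matrix.vandermonde θ i j * (p j : ℝ) = ((resultant f P f.natDegree n : ℤ) : ℝ) := by
    rw [eq_intCast] at hres
    rw [hres]
    rw [Finset.prod]
    congr 1
    refine Multiset.map_congr rfl fun i _ => ?_
    simp only [Function.comp_apply, Matrix.vandermonde_apply]
    rw [← hev (θ i), aeval_def, eval_map]
    rfl
  rw [hprod]
  have hne : (resultant f P f.natDegree n : ℤ) ≠ 0 := by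
    intro h0
    have : ∏ i, ∑ j, Matrix.vandermonde θ i j * (p j : ℝ) = 0 := by rw [hprod, h0]; simp
    obtain ⟨i, -, hi⟩ := prod_eq_zero_iff.1 this
    have h1 : aeval (θ i) P = 0 := by
      rw [hev]
      simpa [Matrix.vandermonde_apply] using hi
    exact hP0 (eq_zero_of_root hm hirr (hroot i) h1 hPd)
  have : (1 : ℤ) ≤ |(resultant f P f.natDegree n : ℤ)| := Int.one_le_abs hne
  exact_mod_cast this

/-- a root between two points with different signs -/
lemma root_between {g : ℝ → ℝ} (hc : Continuous g) {a b : ℝ} (hab : a < b) (h : g a * g b < 0) :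
    ∃ x, a < x ∧ x < b ∧ g x = 0 := by
  rcases mul_neg_iff.1 h with ⟨h1, h2⟩ | ⟨h1, h2⟩
  · obtain ⟨x, hx, hx0⟩ := intermediate_value_Ioo' hab.le hc.continuousOn (show (0 : ℝ) ∈ Set.Ioo (g b) (g a) from ⟨h2, h1⟩)
    exact ⟨x, hx.1, hx.2, hx0⟩
  · obtain ⟨x, hx, hx0⟩ := intermediate_value_Ioo hab.le hc.continuousOn (show (0 : ℝ) ∈ Set.Ioo (g a) (g b) from ⟨h1, h2⟩)
    exact ⟨x, hx.1, hx.2, hx0⟩

end Pool.Agent.Helper22.Opu.Norm
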