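import Pool.Agent.Helper22.Opu.Norm
import Pool.Agent.Helper22.Opu.Irr

/-!
# Explicit systems with small determinant
-/

set_option autoImplicit false

open Polynomial Finset

namespace Pool.Agent.Helper22.Opu.Norm

lemma vand_bound {n : ℕ} {θ : Fin n → ℝ} {lo hi : Fin n → ℚ} (h1 : ∀ i, (lo i : ℝ) < θ i)
    (h2 : ∀ i, θ i < hi i) (h3 : ∀ i j, i < j → hi i ≤ lo j) {B : ℚ}
    (h4 : ∏ i, ∏ j ∈ Ioi i, (hi j - lo i) ≤ B) :
    Function.Injective θ ∧ 0 < (Matrix.vandermonde θ).det ∧ (Matrix.vandermonde θ).det ≤ (B : ℝ) := by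
  have hlt : ∀ i j, i < j → θ i < θ j := by
    intro i j hij
    have h5 : (hi i : ℝ) ≤ lo j := by exact_mod_cast h3 i j hij
    linarith [h1 j, h2 i]
  have hmono : StrictMono θ := fun i j hij => hlt i j hij
  refine ⟨hmono.injective, ?_, ?_⟩
  · rw [Matrix.det_vandermonde]
    exact prod_pos fun i _ => prod_pos fun j hj => sub_pos.2 (hlt i j (mem_Ioi.1 hj))
  · rw [Matrix.det_vandermonde]
    calc ∏ i, ∏ j ∈ Ioi i, (θ j - θ i) ≤ ∏ i, ∏ j ∈ Ioi i, ((hi j : ℝ) - lo i) := by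
          refine prod_le_prod (fun i _ => prod_nonneg fun j hj => (sub_pos.2 (hlt i j (mem_Ioi.1 hj))).le) fun i _ => ?_
          refine prod_le_prod (fun j hj => (sub_pos.2 (hlt i j (mem_Ioi.1 hj))).le) fun j _ => ?_
          linarith [h1 i, h2 j]
      _ = ((∏ i, ∏ j ∈ Ioi i, (hi j - lo i) : ℚ) : ℝ) := by push_cast; rfl
      _ ≤ (B : ℝ) := by exact_mod_cast h4

/-- the existence statement in general form -/
theorem exists_system {n : ℕ} {f : ℤ[X]} (hm : f.Monic) (hdeg : f.natDegree = n) (hirr : Irreducible f)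
    {g : ℝ → ℝ} (hg : Continuous g) (hfg : ∀ x : ℝ, aeval x f = g x) {gq : ℚ → ℚ}
    (hgq : ∀ q : ℚ, g (q : ℝ) = ((gq q : ℚ) : ℝ)) {lo hi : Fin n → ℚ} (h0 : ∀ i, lo i < hi i)
    (hs : ∀ i, gq (lo i) * gq (hi i) < 0) (h3 : ∀ i j, i < j → hi i ≤ lo j) {B : ℚ}
    (h4 : ∏ i, ∏ j ∈ Ioi i, (hi j - lo i) ≤ B) :
    ∃ L : Matrix (Fin n) (Fin n) ℝ, L.det ≠ 0 ∧ |L.det| ≤ (B : ℝ) ∧
      ∀ p : Fin n → ℤ, p ≠ 0 → 1 ≤ |∏ i, ∑ j, L i j * (p j : ℝ)| := by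
  have hex : ∀ i, ∃ x : ℝ, (lo i : ℝ) < x ∧ x < hi i ∧ g x = 0 := by
    intro i
    refine root_between hg (by exact_mod_cast h0 i) ?_
    rw [hgq, hgq]
    exact_mod_cast hs i
  choose θ a1 a2 a3 using hex
  obtain ⟨b1, b2, b3⟩ := vand_bound a1 a2 h3 h4
  refine ⟨Matrix.vandermonde θ, b2.ne', by rw [abs_of_pos b2]; exact b3, fun p hp => ?_⟩
  exact norm_form hm hdeg hirr b1 (fun i => by rw [hfg, a3]) p hp

theorem ex4 : ∃ L : Matrix (Fin 4) (Fin 4) ℝ, L.det ≠ 0 ∧ |L.det| ≤ ((271 / 10 : ℚ) : ℝ) ∧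
    ∀ p : Fin 4 → ℤ, p ≠ 0 → 1 ≤ |∏ i, ∑ j, L i j * (p j : ℝ)| :=
  exists_system monic4 deg4 irrZ4 (g := fun x => x ^ 4 - x ^ 3 - 3 * x ^ 2 + x + 1) (by fun_prop)
    (fun x => by unfold f4; simp only [map_add, map_sub, map_mul, map_pow, aeval_X, map_one, map_ofNat]) (gq := fun x => x ^ 4 - x ^ 3 - 3 * x ^ 2 + x + 1) (fun q => by push_cast; ring)
    (lo := ![-1356 / 1000, -478 / 1000, 737 / 1000, 2095 / 1000])
    (hi := ![-1355 / 1000, -477 / 1000, 738 / 1000, 2096 / 1000])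
    (by decide +kernel) (by decide +kernel) (by decide +kernel) (by decide +kernel)

theorem ex5 : ∃ L : Matrix (Fin 5) (Fin 5) ℝ, L.det ≠ 0 ∧ |L.det| ≤ ((122 : ℚ) : ℝ) ∧
    ∀ p : Fin 5 → ℤ, p ≠ 0 → 1 ≤ |∏ i, ∑ j, L i j * (p j : ℝ)| :=
  exists_system monic5 deg5 irrZ5 (g := fun x => x ^ 5 + x ^ 4 - 4 * x ^ 3 - 3 * x ^ 2 + 3 * x + 1) (by fun_prop)
    (fun x => by unfold f5; simp only [map_add, map_sub, map_mul, map_pow, aeval_X, map_one, map_ofNat]) (gq := fun x => x ^ 5 + x ^ 4 - 4 * x ^ 3 - 3 * x ^ 2 + 3 * x + 1)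
    (fun q => by push_cast; ring)
    (lo := ![-1919 / 1000, -1310 / 1000, -285 / 1000, 830 / 1000, 1682 / 1000])
    (hi := ![-1918 / 1000, -1309 / 1000, -284 / 1000, 831 / 1000, 1683 / 1000])
    (by decide +kernel) (by decide +kernel) (by decide +kernel) (by decide +kernel)

theorem ex6 : ∃ L : Matrix (Fin 6) (Fin 6) ℝ, L.det ≠ 0 ∧ |L.det| ≤ ((550 : ℚ) : ℝ) ∧
    ∀ p : Fin 6 → ℤ, p ≠ 0 → 1 ≤ |∏ i, ∑ j, L i j * (p j : ℝ)| :=
  exists_system monic6 deg6 irrZ6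
    (g := fun x => x ^ 6 - x ^ 5 - 7 * x ^ 4 + 2 * x ^ 3 + 7 * x ^ 2 - 2 * x - 1) (by fun_prop)
    (fun x => by unfold f6; simp only [map_add, map_sub, map_mul, map_pow, aeval_X, map_one, map_ofNat]) (gq := fun x => x ^ 6 - x ^ 5 - 7 * x ^ 4 + 2 * x ^ 3 + 7 * x ^ 2 - 2 * x - 1)
    (fun q => by push_cast; ring)
    (lo := ![-20177 / 10000, -11137 / 10000, -2751 / 10000, 7200 / 10000, 7706 / 10000, 29155 / 10000])
    (hi := ![-20176 / 10000, -11136 / 10000, -2750 / 10000, 7201 / 10000, 7707 / 10000, 29156 / 10000])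
    (by decide +kernel) (by decide +kernel) (by decide +kernel) (by decide +kernel)

end Pool.Agent.Helper22.Opu.Norm
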