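import Pool.Agent.Helper22.Opu.Avg
import Pool.Agent.Helper22.Opu.Base

/-!
# Integrals of the test functions over orbits of the subgroup with two equal entries
-/

set_option autoImplicit false

open MeasureTheory Real Finset Filter Topology

namespace Pool.Agent.Helper22.Opu

open Pool.Agent.Helper22.Opp

noncomputable section

variable {k : ℕ}

/-- parameters of the subgroup -/
def lft (τ : Fin k → ℝ) : Fin (k + 1) → ℝ := Fin.cons (-(∑ i, τ i) / 2) τ

/-- action of the subgroup -/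
def act2 (τ : Fin k → ℝ) (y : Fin (k + 2) → ℝ) : Fin (k + 2) → ℝ := act (lft τ) y

lemma sum_lft (τ : Fin k → ℝ) : ∑ i, lft τ i = (∑ i, τ i) / 2 := by
  rw [Fin.sum_univ_succ]
  simp only [lft, Fin.cons_zero, Fin.cons_succ]
  ring

lemma act2_zero (τ : Fin k → ℝ) (y : Fin (k + 2) → ℝ) : act2 τ y 0 = Real.exp (-(∑ i, τ i) / 2) * y 0 := by
  unfold act2 act
  rw [ex_zero, sum_lft]
  congr 2
  ring

lemma act2_one (τ : Fin k → ℝ) (y : Fin (k + 2) → ℝ) :
    act2 τ y (Fin.succ 0) = Real.exp (-(∑ i, τ i) / 2) * y (Fin.succ 0) := by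
  unfold act2 act
  rw [ex_succ]
  simp [lft]

lemma act2_succ (τ : Fin k → ℝ) (y : Fin (k + 2) → ℝ) (i : Fin k) :
    act2 τ y i.succ.succ = Real.exp (τ i) * y i.succ.succ := by
  unfold act2 act
  rw [ex_succ]
  simp [lft]

lemma continuous_lft : Continuous (lft : (Fin k → ℝ) → Fin (k + 1) → ℝ) := by
  refine continuous_pi fun i => ?_
  refine Fin.cases ?_ (fun j => ?_) i
  · simp only [lft, Fin.cons_zero]; fun_prop
  · simp only [lft, Fin.cons_succ]; fun_prop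

lemma continuous_act2 (y : Fin (k + 2) → ℝ) : Continuous (fun τ : Fin k → ℝ => act2 τ y) :=
  (continuous_act y).comp continuous_lft

lemma lft_neg (τ : Fin k → ℝ) : lft (-τ) = -lft τ := by
  funext i
  refine Fin.cases ?_ (fun j => ?_) i
  · simp [lft, neg_div]
  · simp [lft]

/-- square of the radius in the first two coordinates -/
def rho2 (y : Fin (k + 2) → ℝ) : ℝ := y 0 ^ 2 + y (Fin.succ 0) ^ 2

/-- the first angular variable -/
def Cq (y : Fin (k + 2) → ℝ) : ℝ := y 0 ^ 2 / rho2 y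

/-- the second angular variable -/
def Sq (y : Fin (k + 2) → ℝ) : ℝ := y (Fin.succ 0) ^ 2 / rho2 y

/-- the logarithmic parameter -/
def xo (y : Fin (k + 2) → ℝ) : ℝ := -Real.log (π ^ (k + 2) * (rho2 y ^ 2 * ∏ i : Fin k, y i.succ.succ ^ 2))

/-- nondegenerate points -/
def Nd (y : Fin (k + 2) → ℝ) : Prop := 0 < rho2 y ∧ ∀ i : Fin k, y i.succ.succ ≠ 0

lemma Cq_add_Sq {y : Fin (k + 2) → ℝ} (hy : Nd y) : Cq y + Sq y = 1 := by
  unfold Cq Sq
  rw [← add_div]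
  exact div_self hy.1.ne'

lemma Cq_nonneg (y : Fin (k + 2) → ℝ) : 0 ≤ Cq y := by unfold Cq rho2; positivity
lemma Sq_nonneg (y : Fin (k + 2) → ℝ) : 0 ≤ Sq y := by unfold Sq rho2; positivity

/-- shift -/
def bs2 (y : Fin (k + 2) → ℝ) : Fin k → ℝ := fun i => Real.log (π * y i.succ.succ ^ 2)

/-- the new variables -/
def sv2 (y : Fin (k + 2) → ℝ) (τ : Fin k → ℝ) : Fin k → ℝ := (2 : ℝ) • τ + bs2 y

lemma act2_succ_sq {y : Fin (k + 2) → ℝ} (hy : Nd y) (τ : Fin k → ℝ) (i : Fin k) :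
    π * (act2 τ y i.succ.succ) ^ 2 = Real.exp (sv2 y τ i) := by
  rw [act2_succ]
  unfold sv2 bs2
  simp only [Pi.add_apply, Pi.smul_apply, smul_eq_mul]
  have h0 : 0 < y i.succ.succ ^ 2 := by have := hy.2 i; positivity
  have h1 : 0 < π * y i.succ.succ ^ 2 := mul_pos Real.pi_pos h0
  rw [Real.exp_add, Real.exp_log h1, mul_pow, ← Real.exp_nat_mul]
  push_cast; ring

lemma exp_u {y : Fin (k + 2) → ℝ} (hy : Nd y) (τ : Fin k → ℝ) :
    Real.exp (-(xo y + ∑ i, sv2 y τ i) / 2) = π * rho2 y * Real.exp (-(∑ i, τ i)) := by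
  have h0 : ∀ i : Fin k, 0 < y i.succ.succ ^ 2 := fun i => by have := hy.2 i; positivity
  have hP : 0 < ∏ i : Fin k, y i.succ.succ ^ 2 := prod_pos fun i _ => h0 i
  have hr := hy.1
  have hπ := Real.pi_pos
  have e2 : ∑ i, sv2 y τ i = 2 * ∑ i, τ i + (k * Real.log π + Real.log (∏ i : Fin k, y i.succ.succ ^ 2)) := by
    unfold sv2 bs2
    simp only [Pi.add_apply, Pi.smul_apply, smul_eq_mul]
    rw [sum_add_distrib, ← mul_sum, Real.log_prod (fun i _ => (h0 i).ne')]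
    congr 1
    have : ∀ i : Fin k, Real.log (π * y i.succ.succ ^ 2) = Real.log π + Real.log (y i.succ.succ ^ 2) :=
      fun i => Real.log_mul hπ.ne' (h0 i).ne'
    simp only [this]
    rw [sum_add_distrib]
    simp
  have e3 : xo y = -((k + 2) * Real.log π + (2 * Real.log (rho2 y) + Real.log (∏ i : Fin k, y i.succ.succ ^ 2))) := by
    unfold xo
    rw [Real.log_mul (pow_pos hπ _).ne' (mul_pos (pow_pos hr 2) hP).ne', Real.log_pow,
      Real.log_mul (pow_pos hr 2).ne' hP.ne', Real.log_pow]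
    push_cast
    ring
  have e4 : -(xo y + ∑ i, sv2 y τ i) / 2 = Real.log π + Real.log (rho2 y) + -(∑ i, τ i) := by
    rw [e3, e2]; ring
  rw [e4, Real.exp_add, Real.exp_add, Real.exp_log hπ, Real.exp_log hr]

/-- the two-parameter multi-index -/
def Aab (a b : ℕ) : Fin (k + 2) → ℕ := Fin.cons a (Fin.cons b fun _ => 0)

lemma ga_prod2 {y : Fin (k + 2) → ℝ} (hy : Nd y) (τ : Fin k → ℝ) :
    ∏ i, ga (act2 τ y i) = Real.exp (ph (fun _ : Fin k => (0 : ℝ)) 0 (xo y) (sv2 y τ)) := by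
  unfold ga ph
  rw [← Real.exp_sum, Fin.sum_univ_succ, Fin.sum_univ_succ, exp_u hy]
  simp only [act2_succ_sq hy]
  rw [act2_zero, act2_one]
  congr 1
  simp only [zero_mul, sum_const_zero, sum_neg_distrib, zero_div]
  unfold rho2
  have e : Real.exp (-(∑ i, τ i)) = Real.exp (-(∑ i, τ i) / 2) ^ 2 := by
    rw [← Real.exp_nat_mul]; congr 1; push_cast; ring
  rw [e]
  ring

lemma exp_ph_j (j : ℕ) (x : ℝ) (s : Fin k → ℝ) :
    Real.exp (-(x + ∑ i, s i) / 2) ^ j * Real.exp (ph (fun _ : Fin k => (0 : ℝ)) 0 x s) =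
      Real.exp (ph (fun _ : Fin k => (0 : ℝ)) j x s) := by
  rw [← Real.exp_nat_mul, ← Real.exp_add]
  congr 1
  unfold ph
  simp only [zero_mul, sum_const_zero]
  ring

lemma arg0 {y : Fin (k + 2) → ℝ} (hy : Nd y) (τ : Fin k → ℝ) :
    2 * π * act2 τ y 0 ^ 2 = 2 * Cq y * Real.exp (-(xo y + ∑ i, sv2 y τ i) / 2) := by
  rw [exp_u hy, act2_zero]
  unfold Cq
  have hr := hy.1.ne'
  have e : Real.exp (-(∑ i, τ i)) = Real.exp (-(∑ i, τ i) / 2) ^ 2 := by
    rw [← Real.exp_nat_mul]; congr 1; push_cast; ring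
  rw [e]
  field_simp

lemma arg1 {y : Fin (k + 2) → ℝ} (hy : Nd y) (τ : Fin k → ℝ) :
    2 * π * act2 τ y (Fin.succ 0) ^ 2 = 2 * Sq y * Real.exp (-(xo y + ∑ i, sv2 y τ i) / 2) := by
  rw [exp_u hy, act2_one]
  unfold Sq
  have hr := hy.1.ne'
  have e : Real.exp (-(∑ i, τ i)) = Real.exp (-(∑ i, τ i) / 2) ^ 2 := by
    rw [← Real.exp_nat_mul]; congr 1; push_cast; ring
  rw [e]
  field_simp

lemma FB_act2 {y : Fin (k + 2) → ℝ} (hy : Nd y) (a b : ℕ) (τ : Fin k → ℝ) :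
    FB (Aab a b) (act2 τ y) = 2 ^ (a + b) * Cq y ^ a * Sq y ^ b *
      Real.exp (ph (fun _ : Fin k => (0 : ℝ)) ((a + b : ℕ) : ℝ) (xo y) (sv2 y τ)) := by
  unfold FB hg
  rw [prod_mul_distrib, ga_prod2 hy, ← exp_ph_j]
  have h1 : ∏ i, (2 * π * act2 τ y i ^ 2) ^ (Aab a b i) =
      (2 * Cq y * Real.exp (-(xo y + ∑ i, sv2 y τ i) / 2)) ^ a *
      (2 * Sq y * Real.exp (-(xo y + ∑ i, sv2 y τ i) / 2)) ^ b := by
    rw [Fin.prod_univ_succ, Fin.prod_univ_succ, arg0 hy, arg1 hy]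
    unfold Aab
    simp only [Fin.cons_zero, Fin.cons_succ, pow_zero, prod_const_one, mul_one]
  rw [h1, mul_pow, mul_pow, mul_pow, mul_pow, pow_add, pow_add]
  ring

lemma FA_act2 {y : Fin (k + 2) → ℝ} (hy : Nd y) (a b : ℕ) (τ : Fin k → ℝ) :
    FA (Aab a b) (act2 τ y) = ∑ i ∈ range (a + 1), ∑ j ∈ range (b + 1),
      (qP a).coeff i * (qP b).coeff j * (2 ^ (i + j) * Cq y ^ i * Sq y ^ j) *
      Real.exp (ph (fun _ : Fin k => (0 : ℝ)) ((i + j : ℕ) : ℝ) (xo y) (sv2 y τ)) := by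
  unfold FA hf
  rw [prod_mul_distrib, ga_prod2 hy]
  set U := Real.exp (-(xo y + ∑ i, sv2 y τ i) / 2) with hU
  have h1 : (∏ i, (qP (Aab a b i)).eval (2 * π * act2 τ y i ^ 2)) = (qP a).eval (2 * Cq y * U) * (qP b).eval (2 * Sq y * U) := by
    rw [Fin.prod_univ_succ, Fin.prod_univ_succ, arg0 hy, arg1 hy]
    unfold Aab
    simp only [Fin.cons_zero, Fin.cons_succ]
    have : ∀ t : ℝ, (qP 0).eval t = 1 := fun t => by simp [qP]
    simp only [this, prod_const_one, mul_one]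
    rw [← hU]
  rw [h1, Polynomial.eval_eq_sum_range' (Nat.lt_succ_of_le (natDegree_qP a)),
    Polynomial.eval_eq_sum_range' (Nat.lt_succ_of_le (natDegree_qP b)), sum_mul_sum, sum_mul]
  refine sum_congr rfl fun i _ => ?_
  rw [sum_mul]
  refine sum_congr rfl fun j _ => ?_
  rw [← exp_ph_j, ← hU, mul_pow, mul_pow, mul_pow, mul_pow, pow_add, pow_add]
  ring

lemma cov2 (g : (Fin k → ℝ) → ℝ) (y : Fin (k + 2) → ℝ) :
    ∫ τ : Fin k → ℝ, g (sv2 y τ) = (2 ^ k)⁻¹ * ∫ s, g s := by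
  unfold sv2
  have h := Measure.integral_comp_smul (volume : Measure (Fin k → ℝ)) (fun z => g (z + bs2 y)) (2 : ℝ)
  rw [h, integral_add_right_eq_self]
  simp

lemma cov2_int {g : (Fin k → ℝ) → ℝ} (hg : Integrable g) (y : Fin (k + 2) → ℝ) :
    Integrable (fun τ : Fin k → ℝ => g (sv2 y τ)) := by
  unfold sv2
  exact (hg.comp_add_right (bs2 y)).comp_smul two_ne_zero

lemma integrable_FB_act2 {y : Fin (k + 2) → ℝ} (hy : Nd y) (a b : ℕ) :
    Integrable (fun τ : Fin k → ℝ => FB (Aab a b) (act2 τ y)) := by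
  simp only [FB_act2 hy]
  exact (cov2_int (integrable_ph _ _ (xo y)) y).const_mul _

lemma integral_FB_act2 {y : Fin (k + 2) → ℝ} (hy : Nd y) (a b : ℕ) :
    ∫ τ : Fin k → ℝ, FB (Aab a b) (act2 τ y) =
      (2 ^ k)⁻¹ * (2 ^ (a + b) * Cq y ^ a * Sq y ^ b * G k (a + b) (xo y)) := by
  simp only [FB_act2 hy]
  rw [integral_const_mul, cov2 (fun s => Real.exp (ph (fun _ : Fin k => (0 : ℝ)) ((a + b : ℕ) : ℝ) (xo y) s)) y]
  unfold G I
  ring

lemma integrable_FA_act2 {y : Fin (k + 2) → ℝ} (hy : Nd y) (a b : ℕ) :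
    Integrable (fun τ : Fin k → ℝ => FA (Aab a b) (act2 τ y)) := by
  simp only [FA_act2 hy]
  exact integrable_finsetSum _ fun i _ => integrable_finsetSum _ fun j _ =>
    (cov2_int (integrable_ph _ _ (xo y)) y).const_mul _

lemma integral_FA_act2 {y : Fin (k + 2) → ℝ} (hy : Nd y) (a b : ℕ) :
    ∫ τ : Fin k → ℝ, FA (Aab a b) (act2 τ y) =
      (2 ^ k)⁻¹ * ∑ i ∈ range (a + 1), ∑ j ∈ range (b + 1),
        (qP a).coeff i * (qP b).coeff j * (2 ^ (i + j) * Cq y ^ i * Sq y ^ j) * G k (i + j) (xo y) := by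
  simp only [FA_act2 hy]
  rw [integral_finsetSum _ fun i _ => integrable_finsetSum _ fun j _ =>
    (cov2_int (integrable_ph _ _ (xo y)) y).const_mul _, mul_sum]
  refine sum_congr rfl fun i _ => ?_
  rw [integral_finsetSum _ fun j _ => (cov2_int (integrable_ph _ _ (xo y)) y).const_mul _, mul_sum]
  refine sum_congr rfl fun j _ => ?_
  rw [integral_const_mul, cov2 (fun s => Real.exp (ph (fun _ : Fin k => (0 : ℝ)) ((i + j : ℕ) : ℝ) (xo y) s)) y]
  unfold G I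
  ring

lemma Nd_smul {y : Fin (k + 2) → ℝ} (hy : Nd y) {c : ℝ} (hc : c ≠ 0) : Nd (c • y) := by
  refine ⟨?_, fun i => ?_⟩
  · have h : rho2 (c • y) = c ^ 2 * rho2 y := by
      unfold rho2
      simp only [Pi.smul_apply, smul_eq_mul]; ring
    rw [h]
    have := hy.1
    positivity
  · simp only [Pi.smul_apply, smul_eq_mul]
    exact mul_ne_zero hc (hy.2 i)

lemma integrable_gq_act2 {y : Fin (k + 2) → ℝ} (hy : Nd y) :
    Integrable (fun τ : Fin k → ℝ => gq (act2 τ y)) := by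
  have hy' : Nd ((1 / 2 : ℝ) • y) := Nd_smul hy (by norm_num)
  have h := integrable_FB_act2 hy' 0 0
  refine h.congr (Filter.Eventually.of_forall fun τ => ?_)
  have e0 : (Aab 0 0 : Fin (k + 2) → ℕ) = fun _ => 0 := by
    funext i
    unfold Aab
    refine Fin.cases rfl (fun j => ?_) i
    refine Fin.cases rfl (fun l => ?_) j
    rfl
  simp only
  rw [e0, FB_false]
  unfold gq
  congr 1
  have e1 : act2 τ ((1 / 2 : ℝ) • y) = (1 / 2 : ℝ) • act2 τ y := by
    unfold act2; exact act_smul _ _ _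
  rw [e1]
  simp only [Pi.smul_apply, smul_eq_mul]
  have : ∑ i, (1 / 2 * act2 τ y i) ^ 2 = 1 / 4 * ∑ i, act2 τ y i ^ 2 := by
    rw [mul_sum]; exact sum_congr rfl fun i _ => by ring
  rw [this]; ring

end

end Pool.Agent.Helper22.Opu
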