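import Pool.Agent.Helper22.Opu.Eng

/-!
# Packing several scalar products into one
-/

set_option autoImplicit false

open Finset

namespace Pool.Agent.Helper22.Opu

open Pool.Agent.Helper22.Opp

lemma dotR_eq : ∀ (t v : List ℕ), dotR t v = dot t v
  | [], _ => by simp [dotR, dot]
  | _ :: _, [] => rfl
  | a :: as, b :: bs => by
    change Nat.add (Nat.mul a b) (dotR as bs) = _
    rw [dotR_eq as bs]; rfl

lemma sumR_eq : ∀ v : List ℕ, sumR v = v.sum
  | [] => rfl
  | a :: as => by
    change Nat.add a (sumR as) = _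
    rw [sumR_eq as, List.sum_cons]; rfl

lemma dot_nil (v : List ℕ) : dot [] v = 0 := by simp [dot]

lemma dot_addN : ∀ (F G z : List ℕ), dot (addN F G) z = dot F z + dot G z
  | [], G, z => by simp [addN, dot]
  | c :: cs, [], z => by simp [addN, dot]
  | c :: cs, d :: ds, [] => by simp [addN, dot]
  | c :: cs, d :: ds, v :: vs => by
    rw [addN, dot, dot, dot, dot_addN cs ds vs]; ring

lemma dot_map_mul (k : ℕ) : ∀ (F z : List ℕ), dot (F.map fun t => k * t) z = k * dot F z
  | [], z => by simp [dot]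
  | c :: cs, [] => by simp [dot]
  | c :: cs, v :: vs => by
    rw [List.map_cons, dot, dot, dot_map_mul k cs vs]; ring

lemma dot_addS (s : ℕ) (a b z : List ℕ) : dot (addS s a b) z = dot a z + 2 ^ s * dot b z := by
  unfold addS
  rw [dot_addN, dot_map_mul]

lemma dot_packL (s : ℕ) (z : List ℕ) : ∀ Ls : List (List ℕ), dot (packL s Ls) z = pk s (Ls.map fun F => dot F z)
  | [] => by simp [packL, pk, dot]
  | F :: Fs => by
    rw [packL, dot_addS, dot_packL s z Fs, List.map_cons, pk]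

lemma pk_add {α : Type} (s : ℕ) (f g : α → ℕ) : ∀ l : List α,
    pk s (l.map f) + pk s (l.map g) = pk s (l.map fun a => f a + g a)
  | [] => by simp [pk]
  | a :: as => by
    simp only [List.map_cons, pk]
    rw [← pk_add s f g as]; ring

lemma msk_eq {α : Type} (s : ℕ) : ∀ l : List α, msk s l.length = pk s (l.map fun _ => 2 ^ (s - 1))
  | [] => by simp [pk, msk]
  | a :: as => by
    simp only [List.map_cons, pk, List.length_cons, msk]
    rw [← msk_eq s as]

lemma land_add {s a b P Q : ℕ} (ha : a < 2 ^ s) (hb : b < 2 ^ s) :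
    Nat.land (a + 2 ^ s * P) (b + 2 ^ s * Q) = Nat.land a b + 2 ^ s * Nat.land P Q := by
  have hab : Nat.land a b < 2 ^ s := lt_of_le_of_lt (Nat.and_le_left) ha
  apply Nat.eq_of_testBit_eq
  intro i
  change (((a + 2 ^ s * P) &&& (b + 2 ^ s * Q)) : ℕ).testBit i = ((a &&& b) + 2 ^ s * (P &&& Q)).testBit i
  have hab' : a &&& b < 2 ^ s := hab
  rw [Nat.testBit_and, add_comm a, add_comm b, add_comm (a &&& b), Nat.testBit_two_pow_mul_add _ ha,
    Nat.testBit_two_pow_mul_add _ hb, Nat.testBit_two_pow_mul_add _ hab']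
  split_ifs
  · rw [Nat.testBit_and]
  · rw [Nat.testBit_and]

lemma land_pk {α : Type} {s : ℕ} (hs : 0 < s) (d : α → ℕ) : ∀ (l : List α) (_ : ∀ a ∈ l, d a < 2 ^ s)
    (_ : Nat.land (pk s (l.map d)) (msk s l.length) = msk s l.length), ∀ a ∈ l, 2 ^ (s - 1) ≤ d a
  | [], _, _ => by simp
  | a :: as, hlt, h => by
    have hc : 2 ^ (s - 1) < 2 ^ s := Nat.pow_lt_pow_right (by omega) (by omega)
    have ha : d a < 2 ^ s := hlt a (by simp)
    simp only [List.map_cons, pk, List.length_cons, msk] at h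
    rw [land_add ha hc] at h
    have hab : Nat.land (d a) (2 ^ (s - 1)) < 2 ^ s := lt_of_le_of_lt (Nat.and_le_left) ha
    have h1 : Nat.land (d a) (2 ^ (s - 1)) = 2 ^ (s - 1) := by
      have := congrArg (· % 2 ^ s) h
      simp only [Nat.add_mul_mod_self_left, Nat.mod_eq_of_lt hab, Nat.mod_eq_of_lt hc] at this
      exact this
    have h2 : Nat.land (pk s (as.map d)) (msk s as.length) = msk s as.length := by
      rw [h1] at h
      have := Nat.add_left_cancel h
      exact Nat.eq_of_mul_eq_mul_left (by positivity) this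
    intro b hb
    rcases List.mem_cons.1 hb with rfl | hb
    · have : Nat.land (d b) (2 ^ (s - 1)) ≤ d b := Nat.and_le_left
      omega
    · exact land_pk hs d as (fun c hc => hlt c (List.mem_cons_of_mem _ hc)) h2 b hb

/-- the packed test implies all the inequalities -/
lemma tst_pk {α : Type} {s : ℕ} (hs : 0 < s) (p n : α → ℕ) (l : List α)
    (hp : ∀ a ∈ l, p a < 2 ^ (s - 1)) (hn : ∀ a ∈ l, n a < 2 ^ (s - 1))
    (h : Nat.land (pk s (l.map p) + msk s l.length - pk s (l.map n)) (msk s l.length) = msk s l.length) :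
    ∀ a ∈ l, n a ≤ p a := by
  set c := 2 ^ (s - 1) with hc
  have hcs : 2 ^ s = c + c := by
    rw [hc, ← two_mul, ← pow_succ']; congr 1; omega
  have e1 : pk s (l.map fun a => p a + c - n a) + pk s (l.map n) = pk s (l.map p) + msk s l.length := by
    rw [pk_add, msk_eq s l, pk_add]
    congr 1
    apply List.map_congr_left
    intro a ha
    have := hn a ha
    omega
  have e2 : pk s (l.map p) + msk s l.length - pk s (l.map n) = pk s (l.map fun a => p a + c - n a) := by omega
  rw [e2] at h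
  have h3 := land_pk hs (fun a => p a + c - n a) l (fun a ha => by
    have := hp a ha
    omega) h
  intro a ha
  have h4 := h3 a ha
  have h5 := hn a ha
  omega

lemma dot_le_sum {Cm : ℕ} : ∀ (t z : List ℕ) (_ : ∀ c ∈ t, c ≤ Cm), dot t z ≤ Cm * z.sum
  | [], z, _ => by simp [dot]
  | c :: cs, [], _ => by simp [dot]
  | c :: cs, v :: vs, h => by
    rw [dot, List.sum_cons, mul_add]
    exact Nat.add_le_add (Nat.mul_le_mul_right _ (h c (by simp)))
      (dot_le_sum cs vs fun d hd => h d (List.mem_cons_of_mem _ hd))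

/-- the triples of a functional -/
def triF (M a : ℕ) (F : List (ℕ × ℕ)) : List (List ℕ × List ℕ × List ℕ) :=
  [(fsL (b0 a F), snL (b0 a F), absL (derI M 4 F)),
   (fsL (b1 a F (derI M 1 F)), snL (b1 a F (derI M 1 F)), absL (derI M 4 F)),
   (fsL (b2 a F (derI M 1 F) (derI M 2 F)), snL (b2 a F (derI M 1 F) (derI M 2 F)), absL (derI M 4 F)),
   (fsL (b3 a F (derI M 1 F) (derI M 2 F) (derI M 3 F)),
    snL (b3 a F (derI M 1 F) (derI M 2 F) (derI M 3 F)), absL (derI M 4 F))]

/-- the triples of a list of functionals -/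
def triA (M a : ℕ) : List (List (ℕ × ℕ)) → List (List ℕ × List ℕ × List ℕ)
  | [] => []
  | F :: Fs => triF M a F ++ triA M a Fs

lemma triA_length (M a : ℕ) : ∀ Fs, (triA M a Fs).length = 4 * Fs.length
  | [] => rfl
  | F :: Fs => by
    rw [triA, List.length_append, triA_length M a Fs, List.length_cons]
    simp only [triF, List.length_cons, List.length_nil]
    ring

lemma mem_triA {M a : ℕ} {F : List (ℕ × ℕ)} : ∀ {Fs : List (List (ℕ × ℕ))} (_ : F ∈ Fs), ∀ T ∈ triF M a F,
    T ∈ triA M a Fs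
  | [], h => by simp at h
  | G :: Fs, h => by
    intro T hT
    rw [triA, List.mem_append]
    rcases List.mem_cons.1 h with rfl | h
    · exact Or.inl hT
    · exact Or.inr (mem_triA h T hT)

/-- entries at most `Cm`, length at most `L` -/
def Bnd (Cm L : ℕ) (T : List ℕ × List ℕ × List ℕ) : Prop :=
  ((∀ c ∈ T.1, c ≤ Cm) ∧ (∀ c ∈ T.2.1, c ≤ Cm) ∧ (∀ c ∈ T.2.2, c ≤ Cm)) ∧
  T.2.1.length ≤ L ∧ T.2.2.length ≤ L

lemma bndL_iff {Cm L : ℕ} {F : List ℕ} (h : bndL Cm L F = true) : (∀ c ∈ F, c ≤ Cm) ∧ F.length ≤ L := by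
  unfold bndL at h
  rw [Bool.and_eq_true, List.all_eq_true] at h
  exact ⟨fun c hc => Nat.le_of_ble_eq_true (h.2 c hc), Nat.le_of_ble_eq_true h.1⟩

lemma bndP_iff {Cm L : ℕ} {F : List (ℕ × ℕ)} (h : bndP Cm L F = true) :
    (∀ c ∈ fsL F, c ≤ Cm) ∧ (∀ c ∈ snL F, c ≤ Cm) ∧ (snL F).length ≤ L := by
  unfold bndP at h
  rw [Bool.and_eq_true, List.all_eq_true] at h
  refine ⟨fun c hc => ?_, fun c hc => ?_, ?_⟩
  · unfold fsL at hc
    obtain ⟨p, hp, rfl⟩ := List.mem_map.1 hc
    have := h.2 p hp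
    rw [Bool.and_eq_true] at this
    exact Nat.le_of_ble_eq_true this.1
  · unfold snL at hc
    obtain ⟨p, hp, rfl⟩ := List.mem_map.1 hc
    have := h.2 p hp
    rw [Bool.and_eq_true] at this
    exact Nat.le_of_ble_eq_true this.2
  · unfold snL
    rw [List.length_map]
    exact Nat.le_of_ble_eq_true h.1

lemma prepK_some {α : Type} {s M a Cm L : ℕ} : ∀ (Fs : List (List (ℕ × ℕ)))
    (k : List ℕ → List ℕ → List ℕ → Option α) {o : α} (_ : prepK s M a Cm L Fs k = some o),
    (∀ T ∈ triA M a Fs, Bnd Cm L T) ∧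
    k (packL s ((triA M a Fs).map fun T => T.1)) (packL s ((triA M a Fs).map fun T => T.2.1))
      (packL s ((triA M a Fs).map fun T => T.2.2)) = some o
  | [], k, o, h => by
    refine ⟨by simp [triA], ?_⟩
    simpa [triA, packL, prepK] using h
  | F :: Fs, k, o, h => by
    rw [prepK] at h
    obtain ⟨h1, h2⟩ := prepK_some Fs _ h
    simp only [forceP_eq, forceL_eq] at h2
    rcases hb : (bndP Cm L (b0 a F) && bndP Cm L (b1 a F (der2 M F)) && bndP Cm L (b2 a F (der2 M F) (der2 M (der2 M F))) &&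
      bndP Cm L (b3 a F (der2 M F) (der2 M (der2 M F)) (der2 M (der2 M (der2 M F)))) &&
      bndL Cm L (absL (der2 M (der2 M (der2 M (der2 M F)))))) with _ | _
    · rw [hb] at h2
      simp at h2
    · rw [hb, cond_true] at h2
      simp only [Bool.and_eq_true] at hb
      obtain ⟨⟨⟨⟨g0, g1⟩, g2⟩, g3⟩, g4⟩ := hb
      have q0 := bndP_iff g0
      have q1 := bndP_iff g1
      have q2 := bndP_iff g2
      have q3 := bndP_iff g3
      have q4 := bndL_iff g4
      refine ⟨?_, ?_⟩
      · intro T hT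
        rw [triA, List.mem_append] at hT
        rcases hT with hT | hT
        · simp only [triF, List.mem_cons, List.not_mem_nil, or_false] at hT
          rcases hT with rfl | rfl | rfl | rfl
          · exact ⟨⟨q0.1, q0.2.1, q4.1⟩, q0.2.2, q4.2⟩
          · exact ⟨⟨q1.1, q1.2.1, q4.1⟩, q1.2.2, q4.2⟩
          · exact ⟨⟨q2.1, q2.2.1, q4.1⟩, q2.2.2, q4.2⟩
          · exact ⟨⟨q3.1, q3.2.1, q4.1⟩, q3.2.2, q4.2⟩
        · exact h1 T hT
      · rw [triA]
        simp only [triF, List.cons_append, List.nil_append, List.map_cons, packL]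
        exact h2

/-- the property of a prepared group -/
def PGok (s M a Cm L : ℕ) (Fs : List (List (ℕ × ℕ))) (lo hi : ℕ) (g : PG) : Prop :=
  (∀ T ∈ triA M a Fs, Bnd Cm L T) ∧
  g.P = packL s ((triA M a Fs).map fun T => T.1) ∧ g.N = packL s ((triA M a Fs).map fun T => T.2.1) ∧
  g.R = packL s ((triA M a Fs).map fun T => T.2.2) ∧ g.ms = msk s (triA M a Fs).length ∧
  g.lo = lo ∧ g.hi = hi

lemma prepG_some {α : Type} {s M a Cm L : ℕ} : ∀ (gs : List Grp) (k : List PG → Option α) {o : α}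
    (_ : prepG s M a Cm L gs k = some o), ∃ Gs : List PG, k Gs = some o ∧
      ∀ g ∈ gs, ∃ G ∈ Gs, PGok s M a Cm L g.Fs g.lo g.hi G
  | [], k, o, h => ⟨[], by simpa [prepG] using h, by simp⟩
  | g :: gs, k, o, h => by
    rw [prepG] at h
    obtain ⟨Gs, h1, h2⟩ := prepG_some gs _ h
    obtain ⟨h3, h4⟩ := prepK_some g.Fs _ h1
    simp only [force_eq] at h4
    refine ⟨_, h4, ?_⟩
    intro g' hg'
    rcases List.mem_cons.1 hg' with rfl | hg'
    · exact ⟨_, List.mem_cons_self, h3, rfl, rfl, rfl, by rw [triA_length], rfl, rfl⟩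
    · obtain ⟨G, hG, hG'⟩ := h2 g' hg'
      exact ⟨G, List.mem_cons_of_mem _ hG, hG'⟩

/-- the test in terms of the triples -/
lemma tst_sound {s M a Cm L : ℕ} (hs : 0 < s) {Fs : List (List (ℕ × ℕ))} {lo hi : ℕ} {g : PG}
    (hg : PGok s M a Cm L Fs lo hi g) {wu wl' : ℕ} {zl zu ze : List ℕ}
    (hC : Cm * (sumR zl + (sumR zu + sumR ze)) + 1 ≤ 2 ^ (s - 1)) (hlo : lo ≤ wu) (hhi : wl' ≤ hi)
    (h : tst wu wl' zl zu ze g = true) :
    ∀ T ∈ triA M a Fs, dot T.2.1 zu + dot T.2.2 ze ≤ dot T.1 zl := by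
  obtain ⟨hb, hP, hN, hR, hm, hlo', hhi'⟩ := hg
  unfold tst at h
  rw [Bool.or_eq_true, Bool.or_eq_true] at h
  have h' : Nat.beq (Nat.land (dotR g.P zl + g.ms - (dotR g.N zu + dotR g.R ze)) g.ms) g.ms = true := by
    rcases h with h | h | h
    · exfalso
      have : wu < g.lo := Nat.le_of_ble_eq_true h
      omega
    · exfalso
      have : g.hi < wl' := Nat.le_of_ble_eq_true h
      omega
    · rwa [force_eq] at h
  have h2 := Nat.eq_of_beq_eq_true h'
  rw [dotR_eq, dotR_eq, dotR_eq, hP, hN, hR, hm, dot_packL, dot_packL, dot_packL, List.map_map, List.map_map,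
    List.map_map] at h2
  have e := pk_add s (fun T : List ℕ × List ℕ × List ℕ => dot T.2.1 zu) (fun T => dot T.2.2 ze) (triA M a Fs)
  rw [sumR_eq, sumR_eq, sumR_eq] at hC
  have key := tst_pk hs (fun T : List ℕ × List ℕ × List ℕ => dot T.1 zl)
    (fun T => dot T.2.1 zu + dot T.2.2 ze) (triA M a Fs) (fun T hT => by
      have := dot_le_sum T.1 zl (hb T hT).1.1
      have h5 : Cm * zl.sum ≤ Cm * (zl.sum + (zu.sum + ze.sum)) := Nat.mul_le_mul_left _ (by omega)
      omega) (fun T hT => by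
      have h6 := dot_le_sum T.2.1 zu (hb T hT).1.2.1
      have h7 := dot_le_sum T.2.2 ze (hb T hT).1.2.2
      have h5 : Cm * zu.sum + Cm * ze.sum ≤ Cm * (zl.sum + (zu.sum + ze.sum)) := by
        rw [← mul_add]; exact Nat.mul_le_mul_left _ (by omega)
      omega) (by
      rw [← e]
      exact h2)
  exact key

end Pool.Agent.Helper22.Opu
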