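import Pool.Agent.Helper22.Opu.Packing

/-!
# Soundness of the steps
-/

set_option autoImplicit false

open Finset

namespace Pool.Agent.Helper22.Opu

open Pool.Agent.Helper22.Opp

noncomputable section

lemma dot_le_lnA {Z : ℕ → ℝ} (hZ : ∀ i, 0 ≤ Z i) : ∀ (t zs : List ℕ) (i : ℕ)
    (_ : ∀ k < zs.length, vec zs k ≤ Z (i + k)), (dot t zs : ℝ) ≤ lnA Z i t
  | [], zs, i, _ => by simp [dot, lnA]
  | c :: cs, [], i, _ => by
    simp only [dot, Nat.cast_zero]
    exact lnA_nonneg hZ _ _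
  | c :: cs, v :: vs, i, h => by
    rw [dot, lnA]
    have ih := dot_le_lnA hZ cs vs (i + 1) (fun k hk => by
      have := h (k + 1) (by simpa using hk)
      have e : vec (v :: vs) (k + 1) = vec vs k := by simp [vec]
      rw [e] at this
      rw [show i + 1 + k = i + (k + 1) by omega]
      exact this)
    have h0 := h 0 (by simp)
    have e : vec (v :: vs) 0 = v := by simp [vec]
    rw [e, Nat.add_zero] at h0
    push_cast
    exact add_le_add (mul_le_mul_of_nonneg_left h0 (Nat.cast_nonneg _)) ih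

lemma lnA_le_dot (Z : ℕ → ℝ) : ∀ (t zs : List ℕ) (i : ℕ) (_ : t.length ≤ zs.length)
    (_ : ∀ k < zs.length, Z (i + k) ≤ vec zs k), lnA Z i t ≤ (dot t zs : ℝ)
  | [], zs, i, _, _ => by simp [dot, lnA]
  | c :: cs, [], i, hl, _ => by simp at hl
  | c :: cs, v :: vs, i, hl, h => by
    rw [dot, lnA]
    have ih := lnA_le_dot Z cs vs (i + 1) (by simpa using hl) (fun k hk => by
      have := h (k + 1) (by simpa using hk)
      have e : vec (v :: vs) (k + 1) = vec vs k := by simp [vec]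
      rw [e] at this
      rw [show i + 1 + k = i + (k + 1) by omega]
      exact this)
    have h0 := h 0 (by simp)
    have e : vec (v :: vs) 0 = v := by simp [vec]
    rw [e, Nat.add_zero] at h0
    push_cast
    exact add_le_add (mul_le_mul_of_nonneg_left h0 (Nat.cast_nonneg _)) ih

variable {m : ℕ} {y : ℕ → ℝ → ℝ} {W : ℕ}

/-- lower bounds for the extended sequence -/
lemma zLo_le (hW : 0 < W) {w : ℝ} (hw : 0 ≤ w) {wl : ℕ} (hwl : (wl : ℝ) ≤ W * w) {v : ℕ → ℝ} :
    ∀ (R r : ℕ) (a : List ℕ) (_ : a.length = m + 1) (_ : ∀ j ≤ m, vec a j ≤ w ^ r * v j),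
    ∀ k < (zLo W wl R a).length, vec (zLo W wl R a) k ≤ zv m w v (r * (m + 1) + k)
  | 0, r, a, la, lo, k, hk => by simp [zLo] at hk
  | R + 1, r, a, la, lo, k, hk => by
    have hW' : (0 : ℝ) < W := by exact_mod_cast hW
    rw [zLo] at hk ⊢
    rcases Nat.lt_or_ge k (m + 1) with h | h
    · rw [vec_append_left _ _ (by omega), zv_add, zv_small _ _ h]
      exact lo k (by omega)
    · rw [vec_append_right _ _ (by omega), la]
      have e0 : r * (m + 1) + k = (r + 1) * (m + 1) + (k - (m + 1)) := by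
        have : (r + 1) * (m + 1) = r * (m + 1) + (m + 1) := by ring
        omega
      rw [e0]
      refine zLo_le hW hw hwl R (r + 1) _ (by simpa using la) ?_ _ ?_
      · intro j hj
        rw [vec_map _ _ (by omega)]
        have e1 : ((a.getD j 0 * wl / W : ℕ) : ℝ) ≤ (vec a j * wl) / W := by
          refine (cast_div_le' _ _).trans (le_of_eq ?_)
          unfold vec
          push_cast; ring
        have e2 : (wl : ℝ) / W ≤ w := by
          rw [div_le_iff₀ hW', mul_comm]
          exact hwl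
        calc ((a.getD j 0 * wl / W : ℕ) : ℝ) ≤ (vec a j * wl) / W := e1
          _ = (wl / W) * vec a j := by ring
          _ ≤ w * vec a j := mul_le_mul_of_nonneg_right e2 (vec_nonneg _ _)
          _ ≤ w * (w ^ r * v j) := mul_le_mul_of_nonneg_left (lo j hj) hw
          _ = _ := by ring
      · rw [List.length_append, la] at hk
        omega

/-- upper bounds for the extended sequence -/
lemma zUp_ge (hW : 0 < W) {w : ℝ} (hw : 0 ≤ w) {wu : ℕ} (hwu : W * w ≤ (wu : ℝ)) {v : ℕ → ℝ} :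
    ∀ (R r : ℕ) (b : List ℕ) (_ : b.length = m + 1) (_ : ∀ j ≤ m, w ^ r * v j ≤ vec b j),
    ∀ k < (zUp W wu R b).length, zv m w v (r * (m + 1) + k) ≤ vec (zUp W wu R b) k
  | 0, r, b, lb, up, k, hk => by simp [zUp] at hk
  | R + 1, r, b, lb, up, k, hk => by
    have hW' : (0 : ℝ) < W := by exact_mod_cast hW
    rw [zUp] at hk ⊢
    rcases Nat.lt_or_ge k (m + 1) with h | h
    · rw [vec_append_left _ _ (by omega), zv_add, zv_small _ _ h]
      exact up k (by omega)
    · rw [vec_append_right _ _ (by omega), lb]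
      have e0 : r * (m + 1) + k = (r + 1) * (m + 1) + (k - (m + 1)) := by
        have : (r + 1) * (m + 1) = r * (m + 1) + (m + 1) := by ring
        omega
      rw [e0]
      refine zUp_ge hW hw hwu R (r + 1) _ (by simpa using lb) ?_ _ ?_
      · intro j hj
        rw [vec_map _ _ (by omega)]
        have e1 : (vec b j * wu) / W ≤ ((b.getD j 0 * wu / W + 1 : ℕ) : ℝ) := by
          refine le_trans (le_of_eq ?_) (cast_div_ge' _ _ hW)
          unfold vec
          push_cast; ring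
        have e2 : w ≤ (wu : ℝ) / W := by
          rw [le_div_iff₀ hW', mul_comm]
          exact hwu
        calc w ^ (r + 1) * v j = w * (w ^ r * v j) := by ring
          _ ≤ w * vec b j := mul_le_mul_of_nonneg_left (up j hj) hw
          _ ≤ (wu / W) * vec b j := mul_le_mul_of_nonneg_right e2 (vec_nonneg _ _)
          _ = (vec b j * wu) / W := by ring
          _ ≤ _ := e1
      · rw [List.length_append, lb] at hk
        omega

lemma zLo_le' (hW : 0 < W) {w : ℝ} (hw : 0 ≤ w) {wl : ℕ} (hwl : (wl : ℝ) ≤ W * w) (R : ℕ) {a : List ℕ}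
    (la : a.length = m + 1) : ∀ k < (zLo W wl R a).length, vec (zLo W wl R a) k ≤ zv m w (vec a) (0 + k) := by
  intro k hk
  have := zLo_le (m := m) hW hw hwl (v := vec a) R 0 a la (fun j _ => by simp) k hk
  simpa using this

lemma zUp_ge' (hW : 0 < W) {w : ℝ} (hw : 0 ≤ w) {wu : ℕ} (hwu : W * w ≤ (wu : ℝ)) (R : ℕ) {b : List ℕ}
    (lb : b.length = m + 1) {v : ℕ → ℝ} (hv : ∀ j ≤ m, v j ≤ vec b j) :
    ∀ k < (zUp W wu R b).length, zv m w v (0 + k) ≤ vec (zUp W wu R b) k := by
  intro k hk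
  have := zUp_ge (m := m) hW hw hwu (v := v) R 0 b lb (fun j hj => by simpa using hv j hj) k hk
  simpa using this

/-! ### the crude bounds -/

lemma hornT_eq (R : ℕ) : ∀ (b : List ℕ) (acc : ℕ), (hornT R acc b : ℝ) =
    acc * (R : ℝ) ^ b.length + ∑ i ∈ range b.length, (R : ℝ) ^ (b.length - 1 - i) * vec b i
  | [], acc => by simp [hornT]
  | v :: vs, acc => by
    rw [hornT, hornT_eq R vs, List.length_cons, sum_range_succ']
    have e0 : vec (v :: vs) 0 = v := by simp [vec]
    have e1 : ∀ i, vec (v :: vs) (i + 1) = vec vs i := fun i => by simp [vec]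
    rw [e0]
    simp only [e1]
    have e2 : ∑ i ∈ range vs.length, (R : ℝ) ^ (vs.length + 1 - 1 - (i + 1)) * vec vs i =
        ∑ i ∈ range vs.length, (R : ℝ) ^ (vs.length - 1 - i) * vec vs i := by
      refine sum_congr rfl fun i _ => ?_
      congr 2
      omega
    rw [e2]
    push_cast
    rw [Nat.sub_zero, pow_succ]
    ring

lemma crL_length (R T : ℕ) : ∀ b : List ℕ, (crL R T b).length = b.length
  | [] => rfl
  | _ :: vs => by rw [crL, List.length_cons, List.length_cons, crL_length R T vs]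

lemma crL_ge {R T : ℕ} (hR : 0 < R) : ∀ (b : List ℕ) (j : ℕ) (_ : j < b.length),
    2 * ((T : ℝ) / (R : ℝ) ^ (b.length - 1 - j)) ≤ vec (crL R T b) j
  | [], j, h => by simp at h
  | v :: vs, 0, _ => by
    rw [crL]
    have e0 : vec (2 * (T / R ^ vs.length + 1) :: crL R T vs) 0 = ((2 * (T / R ^ vs.length + 1) : ℕ) : ℝ) := by
      simp [vec]
    rw [e0]
    have := cast_div_ge' T (R ^ vs.length) (by positivity)
    push_cast at this ⊢
    simp only [List.length_cons]
    rw [show vs.length + 1 - 1 - 0 = vs.length by omega]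
    linarith
  | v :: vs, j + 1, h => by
    rw [crL]
    have e1 : vec (2 * (T / R ^ vs.length + 1) :: crL R T vs) (j + 1) = vec (crL R T vs) j := by simp [vec]
    rw [e1]
    have ih := crL_ge (T := T) hR vs j (by simpa using h)
    simp only [List.length_cons]
    rw [show vs.length + 1 - 1 - (j + 1) = vs.length - 1 - j by omega]
    exact ih

lemma cr_le_crL {R : ℕ} (hR : 0 < R) {b : List ℕ} (lb : b.length = m + 1) {j : ℕ} (hj : j ≤ m) :
    cr m R (vec b) j ≤ vec (crL R (hornT R 0 b) b) j := by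
  have h := crL_ge (T := hornT R 0 b) hR b j (by omega)
  rw [hornT_eq, lb] at h
  unfold cr
  simp only [Nat.cast_zero, zero_mul, zero_add] at h
  rw [show m + 1 - 1 - j = m - j by omega] at h
  have e : ∑ i ∈ range (m + 1), (R : ℝ) ^ (m + 1 - 1 - i) * vec b i = ∑ i ∈ range (m + 1), (R : ℝ) ^ (m - i) * vec b i :=
    sum_congr rfl fun i _ => by rw [show m + 1 - 1 - i = m - i by omega]
  rw [e] at h
  exact h

lemma cr_sum {R : ℝ} (s : Finset ℕ) (κ : ℕ → ℝ) (v : ℕ → ℕ → ℝ) (j : ℕ) :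
    cr m R (fun i => ∑ k ∈ s, κ k * v k i) j = ∑ k ∈ s, κ k * cr m R (v k) j := by
  unfold cr
  have : ∑ i ∈ range (m + 1), R ^ (m - i) * ∑ k ∈ s, κ k * v k i =
      ∑ k ∈ s, κ k * ∑ i ∈ range (m + 1), R ^ (m - i) * v k i := by
    simp only [mul_sum]
    rw [sum_comm]
    exact sum_congr rfl fun k _ => sum_congr rfl fun i _ => by ring
  rw [this, sum_div, mul_sum]
  exact sum_congr rfl fun k _ => by ring

lemma cr_mono {R : ℝ} (hR : 0 < R) {v v' : ℕ → ℝ} (h : ∀ i ≤ m, v i ≤ v' i) (j : ℕ) : cr m R v j ≤ cr m R v' j := by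
  unfold cr
  have : ∑ i ∈ range (m + 1), R ^ (m - i) * v i ≤ ∑ i ∈ range (m + 1), R ^ (m - i) * v' i :=
    sum_le_sum fun i hi => mul_le_mul_of_nonneg_left (h i (by rw [mem_range] at hi; omega)) (pow_nonneg hR.le _)
  have h2 := div_le_div_of_nonneg_right this (pow_nonneg hR.le (m - j))
  linarith

/-! ### the rows -/

/-- lower entry of a row -/
def rA (den : ℕ) (zl zc : List ℕ) (r : List ℕ × List ℕ) : ℕ := (dot r.1 zl - dot r.2 zc) / den
/-- upper entry of a row -/
def rB (den : ℕ) (zu zc : List ℕ) (r : List ℕ × List ℕ) : ℕ := (dot r.1 zu + dot r.2 zc) / den + 1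

lemma rowsK_some {α : Type} {den : ℕ} : ∀ (rs : List (List ℕ × List ℕ)) (zl zu zc : List ℕ)
    (k : List ℕ → List ℕ → Option α) {o : α} (_ : rowsK den rs zl zu zc k = some o),
    (∀ r ∈ rs, dot r.2 zc ≤ dot r.1 zl) ∧ k (rs.map (rA den zl zc)) (rs.map (rB den zu zc)) = some o
  | [], zl, zu, zc, k, o, h => ⟨by simp, by simpa [rowsK] using h⟩
  | r :: rs, zl, zu, zc, k, o, h => by
    rw [rowsK, force_eq, force_eq, force_eq, dotR_eq, dotR_eq, dotR_eq] at h
    rcases hb : Nat.ble (dot r.2 zc) (dot r.1 zl) with _ | _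
    · rw [hb] at h; simp at h
    · rw [hb, cond_true, force_eq, force_eq] at h
      obtain ⟨h1, h2⟩ := rowsK_some rs zl zu zc _ h
      refine ⟨?_, ?_⟩
      · intro r' hr'
        rcases List.mem_cons.1 hr' with rfl | hr'
        · exact Nat.le_of_ble_eq_true hb
        · exact h1 r' hr'
      · exact h2

/-- `zc` for a column -/
def zcO (W R Rz wu : ℕ) (b : List ℕ) : List ℕ := zUp W wu Rz (crL R (hornT R 0 b) b)

/-- one column -/
def cA (p : Par) (wl wu : ℕ) (c : List ℕ × List ℕ) : List ℕ :=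
  p.rws.map (rA p.den (zLo p.W wl p.Rz c.1) (zcO p.W p.R p.Rz wu c.2))
def cB (p : Par) (wu : ℕ) (c : List ℕ × List ℕ) : List ℕ :=
  p.rws.map (rB p.den (zUp p.W wu p.Rz c.2) (zcO p.W p.R p.Rz wu c.2))

/-- no truncation in the lower bounds -/
def cOk (p : Par) (wl wu : ℕ) (c : List ℕ × List ℕ) : Prop :=
  ∀ r ∈ p.rws, dot r.2 (zcO p.W p.R p.Rz wu c.2) ≤ dot r.1 (zLo p.W wl p.Rz c.1)

lemma colK_some {α : Type} {p : Par} {wl wu : ℕ} {a b : List ℕ}
    {k : List ℕ → List ℕ → List ℕ → List ℕ → Option α} {o : α}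
    (h : colK p.den p.W p.R p.Rz p.rws wl wu a b k = some o) :
    cOk p wl wu (a, b) ∧ k (zLo p.W wl p.Rz a) (zUp p.W wu p.Rz b) (cA p wl wu (a, b)) (cB p wu (a, b)) = some o := by
  unfold colK at h
  rw [forceL_eq, forceL_eq, force_eq, forceL_eq, forceL_eq] at h
  exact rowsK_some _ _ _ _ _ h

lemma colsK_some {α : Type} {p : Par} {wl wu : ℕ} : ∀ (cs : List (List ℕ × List ℕ))
    (k : List (List ℕ × List ℕ) → Option α) {o : α}
    (_ : colsK p.den p.W p.R p.Rz p.rws wl wu cs k = some o),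
    (∀ c ∈ cs, cOk p wl wu c) ∧ k (cs.map fun c => (cA p wl wu c, cB p wu c)) = some o
  | [], k, o, h => ⟨by simp, by simpa [colsK] using h⟩
  | c :: cs, k, o, h => by
    rw [colsK] at h
    obtain ⟨h1, h2⟩ := colK_some h
    obtain ⟨h3, h4⟩ := colsK_some cs _ h2
    refine ⟨?_, h4⟩
    intro c' hc'
    rcases List.mem_cons.1 hc' with rfl | hc'
    · exact h1
    · exact h3 c' hc'

/-! ### parameters -/

/-- the parameters are valid -/
structure ParOK (m q : ℕ) (p : Par) : Prop where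
  den : p.den = dnm p.H q
  len : p.rws.length = m + 1
  R : 1 ≤ p.R
  RH : 2 * p.R ≤ p.H
  W : 0 < p.W
  t : ∀ j ≤ m, ∀ Z : ℕ → ℝ, lnA Z 0 (p.rws.getD j ([], [])).1 = evA Z 0 (tay (m + 1) p.H q (unitF j))
  d : ∀ j ≤ m, (p.rws.getD j ([], [])).2 = absL (derI (m + 1) q (unitF j))
  l1 : ∀ j ≤ m, (p.rws.getD j ([], [])).1.length ≤ p.Rz * (m + 1)
  l2 : ∀ j ≤ m, (p.rws.getD j ([], [])).2.length ≤ p.Rz * (m + 1)

lemma evA_map0 (Z : ℕ → ℝ) : ∀ (t : List ℕ) (i : ℕ), evA Z i (t.map fun c => (c, 0)) = lnA Z i t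
  | [], i => rfl
  | c :: cs, i => by
    rw [List.map_cons, evA, lnA, evA_map0 Z cs]
    push_cast; ring

lemma parOK_of_chk {q : ℕ} {p : Par} (h : parChk (m + 1) q p = true) : ParOK m q p := by
  unfold parChk at h
  simp only [Bool.and_eq_true, List.all_eq_true, List.mem_range] at h
  obtain ⟨⟨⟨⟨⟨h1, h2⟩, h3⟩, h4⟩, h5⟩, h6⟩ := h
  have hr : ∀ j ≤ m, (p.rws.getD j ([], [])).1.map (fun c => (c, 0)) = (tay (m + 1) p.H q (unitF j)).map nrm ∧
      (p.rws.getD j ([], [])).2 = absL (derI (m + 1) q (unitF j)) ∧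
      (p.rws.getD j ([], [])).1.length ≤ p.Rz * (m + 1) ∧ (p.rws.getD j ([], [])).2.length ≤ p.Rz * (m + 1) := by
    intro j hj
    have h7 := h6 j (by omega)
    unfold rowChk at h7
    simp only [Bool.and_eq_true, decide_eq_true_eq] at h7
    exact ⟨h7.1.1.1, h7.1.1.2, Nat.le_of_ble_eq_true h7.1.2, Nat.le_of_ble_eq_true h7.2⟩
  refine ⟨Nat.eq_of_beq_eq_true h1, Nat.eq_of_beq_eq_true h2, Nat.le_of_ble_eq_true h3,
    Nat.le_of_ble_eq_true h4, Nat.le_of_ble_eq_true h5, ?_, fun j hj => (hr j hj).2.1,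
    fun j hj => (hr j hj).2.2.1, fun j hj => (hr j hj).2.2.2⟩
  intro j hj Z
  rw [← evA_map0, (hr j hj).1, evA_nrm]

lemma ParOK.H {q : ℕ} {p : Par} (h : ParOK m q p) : 0 < p.H := by
  have := h.R
  have := h.RH
  omega

lemma evA_unitF (Z : ℕ → ℝ) : ∀ (j i : ℕ), evA Z i (unitF j) = Z (i + j)
  | 0, i => by simp [unitF, evA]
  | j + 1, i => by
    rw [unitF, evA, evA_unitF Z j (i + 1), show i + 1 + j = i + (j + 1) by omega]
    simp

/-! ### the invariant -/

/-- the invariant of the computation -/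
structure Inv (m W : ℕ) (y : ℕ → ℝ → ℝ) (κ : ℕ → ℝ) (x : ℝ) (cs : List (List ℕ × List ℕ)) (wl wu : ℕ) : Prop where
  pos : ∀ k, 0 ≤ κ k
  len : ∀ c ∈ cs, c.1.length = m + 1 ∧ c.2.length = m + 1
  wl : (wl : ℝ) ≤ W * E x
  wu : W * E x ≤ (wu : ℝ)
  lo : ∀ j ≤ m, ∑ k ∈ range cs.length, κ k * colLo cs k j ≤ y j x
  up : ∀ j ≤ m, y j x ≤ ∑ k ∈ range cs.length, κ k * colUp cs k j

lemma getD_mem {α : Type} (l : List α) (d : α) {k : ℕ} (hk : k < l.length) : l.getD k d ∈ l := by
  rw [List.getD_eq_getElem?_getD, List.getElem?_eq_getElem hk]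
  simp

lemma getD_map {α β : Type} (l : List α) (d : α) (d' : β) (f : α → β) {k : ℕ} (hk : k < l.length) :
    (l.map f).getD k d' = f (l.getD k d) := by
  rw [List.getD_eq_getElem?_getD, List.getElem?_map, List.getD_eq_getElem?_getD, List.getElem?_eq_getElem hk]
  simp

lemma Inv.step {q : ℕ} {p : Par} (hp : ParOK m q p) (hy : SolU m y) {κ : ℕ → ℝ} {x : ℝ}
    {cs : List (List ℕ × List ℕ)} {wl wu : ℕ} (hI : Inv m p.W y κ x cs wl wu)
    (hE : E x ≤ (p.R : ℝ) ^ (m + 1)) (hok : ∀ c ∈ cs, cOk p wl wu c) :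
    Inv m p.W y κ (x + 1 / (p.H : ℝ)) (cs.map fun c => (cA p wl wu c, cB p wu c)) (wLo p.H wl) (wUp p.H wu) := by
  have hH := hp.H
  have hH' : (0 : ℝ) < p.H := by exact_mod_cast hH
  have hR' : (0 : ℝ) < p.R := by exact_mod_cast hp.R
  have hRh : (p.R : ℝ) * (1 / (p.H : ℝ)) ≤ 1 / 2 := by
    have : ((2 * p.R : ℕ) : ℝ) ≤ p.H := by exact_mod_cast hp.RH
    push_cast at this
    rw [mul_one_div, div_le_iff₀ hH']
    linarith
  have hEx := (E_pos x).le
  have hden : (0 : ℝ) < p.den := by rw [hp.den]; exact dnm_pos hH q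
  have hlen : (cs.map fun c => (cA p wl wu c, cB p wu c)).length = cs.length := List.length_map _
  set LO : ℕ → ℝ := fun j => ∑ k ∈ range cs.length, κ k * colLo cs k j with hLO
  set UP : ℕ → ℝ := fun j => ∑ k ∈ range cs.length, κ k * colUp cs k j with hUP
  have hcl : ∀ k, k < cs.length → (cs.getD k ([], [])).1.length = m + 1 ∧ (cs.getD k ([], [])).2.length = m + 1 :=
    fun k hk => hI.len _ (getD_mem cs _ hk)
  -- the remainder
  have rem : ∀ j ≤ m, ∀ s, 0 ≤ s → s ≤ 1 / (p.H : ℝ) →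
      |evA (zz m y (x + s)) 0 (derI (m + 1) q (unitF j))| ≤
        lnA (zv m (E x) (cr m p.R UP)) 0 (p.rws.getD j ([], [])).2 := by
    intro j hj s hs0 hs1
    rw [hp.d j hj]
    refine (abs_evA_le (fun i => (zz_pos hy _ i).le) _ _).trans (lnA_mono (fun i => ?_) _ _)
    refine zv_mono (E_pos _).le (E_anti (by linarith)) (fun l hl => (hy.pos _ hl _).le) (fun l hl => ?_) i
    exact (crude hy hR' hE hRh hs0 hs1 hl).trans (cr_mono hR' (fun i hi => hI.up i hi) l)
  have remdot : ∀ j ≤ m, lnA (zv m (E x) (cr m p.R UP)) 0 (p.rws.getD j ([], [])).2 ≤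
      ∑ k ∈ range cs.length, κ k * (dot (p.rws.getD j ([], [])).2 (zcO p.W p.R p.Rz wu (cs.getD k ([], [])).2) : ℝ) := by
    intro j hj
    have e : cr m p.R UP = fun l => ∑ k ∈ range cs.length, κ k * cr m p.R (colUp cs k) l := by
      funext l
      exact cr_sum _ _ _ _
    rw [e, lnA_sum]
    refine sum_le_sum fun k hk => mul_le_mul_of_nonneg_left ?_ (hI.pos k)
    rw [mem_range] at hk
    refine lnA_le_dot _ _ _ _ ?_ ?_
    · unfold zcO
      rw [zUp_length, crL_length, (hcl k hk).2]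
      exact hp.l2 j hj
    · unfold zcO
      refine zUp_ge' hp.W hEx hI.wu _ (by rw [crL_length, (hcl k hk).2]) fun l hl => ?_
      exact cr_le_crL hp.R (hcl k hk).2 hl
  refine ⟨hI.pos, ?_, ?_, ?_, ?_, ?_⟩
  · intro c hc
    obtain ⟨c', hc', rfl⟩ := List.mem_map.1 hc
    unfold cA cB
    simp only [List.length_map]
    exact ⟨hp.len, hp.len⟩
  · rw [E_add, ← mul_assoc]
    exact wLo_le hH hI.wl
  · rw [E_add, ← mul_assoc]
    exact wUp_ge hH hI.wu
  · intro j hj
    rw [hlen]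
    have h1 := (tay_step hy hH (unitF j) q x (rem j hj)).1
    rw [evA_unitF, Nat.zero_add, ← hp.t j hj] at h1
    have e0 : zz m y (x + 1 / (p.H : ℝ)) j = y j (x + 1 / (p.H : ℝ)) := by
      unfold zz; exact zv_small _ _ (by omega)
    rw [e0] at h1
    have h2 : ∑ k ∈ range cs.length, κ k * (dot (p.rws.getD j ([], [])).1 (zLo p.W wl p.Rz (cs.getD k ([], [])).1) : ℝ) ≤
        lnA (zz m y x) 0 (p.rws.getD j ([], [])).1 := by
      have e1 : lnA (zv m (E x) LO) 0 (p.rws.getD j ([], [])).1 ≤ lnA (zz m y x) 0 (p.rws.getD j ([], [])).1 :=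
        lnA_mono (fun i => zv_mono' hEx (fun l hl => hI.lo l hl) i) _ _
      refine le_trans ?_ e1
      rw [hLO, lnA_sum]
      refine sum_le_sum fun k hk => mul_le_mul_of_nonneg_left ?_ (hI.pos k)
      rw [mem_range] at hk
      refine dot_le_lnA (zv_nonneg hEx fun l _ => vec_nonneg _ _) _ _ _ ?_
      exact zLo_le' hp.W hEx hI.wl _ (hcl k hk).1
    have h3 := remdot j hj
    have h4 : p.den * ∑ k ∈ range cs.length, κ k * colLo (cs.map fun c => (cA p wl wu c, cB p wu c)) k j ≤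
        ∑ k ∈ range cs.length, κ k * (dot (p.rws.getD j ([], [])).1 (zLo p.W wl p.Rz (cs.getD k ([], [])).1) : ℝ) -
        ∑ k ∈ range cs.length, κ k * (dot (p.rws.getD j ([], [])).2 (zcO p.W p.R p.Rz wu (cs.getD k ([], [])).2) : ℝ) := by
      rw [← sum_sub_distrib, mul_sum]
      refine sum_le_sum fun k hk => ?_
      rw [mem_range] at hk
      rw [← mul_sub, mul_left_comm]
      refine mul_le_mul_of_nonneg_left ?_ (hI.pos k)
      unfold colLo
      rw [getD_map cs ([], []) ([], []) _ hk]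
      simp only
      have hjl : j < p.rws.length := by rw [hp.len]; omega
      unfold cA vec
      rw [getD_map p.rws ([], []) 0 _ hjl]
      unfold rA
      have hok' := hok _ (getD_mem cs ([], []) hk) _ (getD_mem p.rws ([], []) hjl)
      have h5 := Nat.cast_div_le (α := ℝ) (m := dot (p.rws.getD j ([], [])).1 (zLo p.W wl p.Rz (cs.getD k ([], [])).1) -
        dot (p.rws.getD j ([], [])).2 (zcO p.W p.R p.Rz wu (cs.getD k ([], [])).2)) (n := p.den)
      rw [Nat.cast_sub hok', le_div_iff₀ hden] at h5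
      rw [mul_comm]
      exact h5
    rw [← hp.den] at h1
    have h6 : p.den * ∑ k ∈ range cs.length, κ k * colLo (cs.map fun c => (cA p wl wu c, cB p wu c)) k j ≤
        p.den * y j (x + 1 / (p.H : ℝ)) := by linarith
    exact le_of_mul_le_mul_left h6 hden
  · intro j hj
    rw [hlen]
    have h1 := (tay_step hy hH (unitF j) q x (rem j hj)).2
    rw [evA_unitF, Nat.zero_add, ← hp.t j hj] at h1
    have e0 : zz m y (x + 1 / (p.H : ℝ)) j = y j (x + 1 / (p.H : ℝ)) := by
      unfold zz; exact zv_small _ _ (by omega)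
    rw [e0] at h1
    have h2 : lnA (zz m y x) 0 (p.rws.getD j ([], [])).1 ≤
        ∑ k ∈ range cs.length, κ k * (dot (p.rws.getD j ([], [])).1 (zUp p.W wu p.Rz (cs.getD k ([], [])).2) : ℝ) := by
      have e1 : lnA (zz m y x) 0 (p.rws.getD j ([], [])).1 ≤ lnA (zv m (E x) UP) 0 (p.rws.getD j ([], [])).1 :=
        lnA_mono (fun i => zv_mono' hEx (fun l hl => hI.up l hl) i) _ _
      refine e1.trans ?_
      rw [hUP, lnA_sum]
      refine sum_le_sum fun k hk => mul_le_mul_of_nonneg_left ?_ (hI.pos k)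
      rw [mem_range] at hk
      refine lnA_le_dot _ _ _ _ ?_ ?_
      · rw [zUp_length, (hcl k hk).2]
        exact hp.l1 j hj
      · exact zUp_ge' hp.W hEx hI.wu _ (hcl k hk).2 fun l _ => le_rfl
    have h3 := remdot j hj
    have h4 : ∑ k ∈ range cs.length, κ k * (dot (p.rws.getD j ([], [])).1 (zUp p.W wu p.Rz (cs.getD k ([], [])).2) : ℝ) +
        ∑ k ∈ range cs.length, κ k * (dot (p.rws.getD j ([], [])).2 (zcO p.W p.R p.Rz wu (cs.getD k ([], [])).2) : ℝ) ≤
        p.den * ∑ k ∈ range cs.length, κ k * colUp (cs.map fun c => (cA p wl wu c, cB p wu c)) k j := by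
      rw [← sum_add_distrib, mul_sum]
      refine sum_le_sum fun k hk => ?_
      rw [mem_range] at hk
      rw [← mul_add, mul_left_comm]
      refine mul_le_mul_of_nonneg_left ?_ (hI.pos k)
      unfold colUp
      rw [getD_map cs ([], []) ([], []) _ hk]
      simp only
      have hjl : j < p.rws.length := by rw [hp.len]; omega
      unfold cB vec
      rw [getD_map p.rws ([], []) 0 _ hjl]
      unfold rB
      have hdn : 0 < p.den := by exact_mod_cast hden
      have h5 := cast_div_ge' (dot (p.rws.getD j ([], [])).1 (zUp p.W wu p.Rz (cs.getD k ([], [])).2) +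
        dot (p.rws.getD j ([], [])).2 (zcO p.W p.R p.Rz wu (cs.getD k ([], [])).2)) p.den hdn
      rw [div_le_iff₀ hden] at h5
      rw [mul_comm]
      push_cast at h5 ⊢
      exact h5
    rw [← hp.den] at h1
    have h6 : p.den * y j (x + 1 / (p.H : ℝ)) ≤
        p.den * ∑ k ∈ range cs.length, κ k * colUp (cs.map fun c => (cA p wl wu c, cB p wu c)) k j := by linarith
    exact le_of_mul_le_mul_left h6 hden

end

end Pool.Agent.Helper22.Opu
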