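import Pool.Agent.Helper22.Opu.Base

/-!
# Taylor steps
-/

set_option autoImplicit false

open Finset

namespace Pool.Agent.Helper22.Opu

open Pool.Agent.Helper22.Opp

/-- iterated derivative -/
def derI (M : ℕ) : ℕ → List (ℕ × ℕ) → List (ℕ × ℕ)
  | 0, F => F
  | n + 1, F => der2 M (derI M n F)

/-- scaling -/
def scl (c : ℕ) (F : List (ℕ × ℕ)) : List (ℕ × ℕ) := F.map fun p => (c * p.1, c * p.2)

/-- sum of the absolute values -/
def absL (F : List (ℕ × ℕ)) : List ℕ := F.map fun p => p.1 + p.2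

/-- Taylor polynomial of order `q` times `q! (2H)^q` -/
def tay (M H : ℕ) : ℕ → List (ℕ × ℕ) → List (ℕ × ℕ)
  | 0, _ => []
  | q + 1, F => scl ((q + 1) * (2 * H)) (addL (tay M H q F) (derI M q F))

/-- the denominator -/
def dnm (H : ℕ) : ℕ → ℕ
  | 0 => 1
  | q + 1 => (q + 1) * (2 * H) * dnm H q

noncomputable section

/-- linear functional with nonnegative coefficients -/
def lnA (Z : ℕ → ℝ) : ℕ → List ℕ → ℝ
  | _, [] => 0
  | i, c :: cs => (c : ℝ) * Z i + lnA Z (i + 1) cs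

lemma lnA_nonneg {Z : ℕ → ℝ} (hZ : ∀ i, 0 ≤ Z i) : ∀ (t : List ℕ) (i : ℕ), 0 ≤ lnA Z i t
  | [], i => le_rfl
  | c :: cs, i => by
    rw [lnA]
    have := lnA_nonneg hZ cs (i + 1)
    have := hZ i
    positivity

lemma lnA_mono {Z Z' : ℕ → ℝ} (h : ∀ i, Z i ≤ Z' i) : ∀ (t : List ℕ) (i : ℕ), lnA Z i t ≤ lnA Z' i t
  | [], i => le_rfl
  | c :: cs, i => by
    rw [lnA, lnA]
    exact add_le_add (mul_le_mul_of_nonneg_left (h i) (Nat.cast_nonneg _)) (lnA_mono h cs (i + 1))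

lemma evA_scl (Z : ℕ → ℝ) (c : ℕ) : ∀ (F : List (ℕ × ℕ)) (i : ℕ), evA Z i (scl c F) = c * evA Z i F
  | [], i => by simp [scl, evA]
  | p :: ps, i => by
    have ih := evA_scl Z c ps (i + 1)
    unfold scl at ih ⊢
    rw [List.map_cons, evA, evA, ih]
    push_cast; ring

lemma abs_evA_le {Z : ℕ → ℝ} (hZ : ∀ i, 0 ≤ Z i) : ∀ (F : List (ℕ × ℕ)) (i : ℕ),
    |evA Z i F| ≤ lnA Z i (absL F)
  | [], i => by simp [absL, evA, lnA]
  | p :: ps, i => by
    have ih := abs_evA_le hZ ps (i + 1)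
    unfold absL at ih ⊢
    rw [List.map_cons, evA, lnA]
    refine (abs_add_le _ _).trans (add_le_add ?_ ih)
    rw [abs_mul, abs_of_nonneg (hZ i)]
    refine mul_le_mul_of_nonneg_right ?_ (hZ i)
    rw [abs_le]
    have h1 : (0 : ℝ) ≤ p.1 := Nat.cast_nonneg _
    have h2 : (0 : ℝ) ≤ p.2 := Nat.cast_nonneg _
    push_cast
    constructor <;> linarith

lemma zv_nonneg {m : ℕ} {w : ℝ} {v : ℕ → ℝ} (hw : 0 ≤ w) (hv : ∀ j ≤ m, 0 ≤ v j) (i : ℕ) : 0 ≤ zv m w v i :=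
  mul_nonneg (pow_nonneg hw _) (hv _ (mod_le m i))

lemma zv_mono {m : ℕ} {w w' : ℝ} {v v' : ℕ → ℝ} (hw : 0 ≤ w) (hww : w ≤ w') (hv : ∀ j ≤ m, 0 ≤ v j)
    (hvv : ∀ j ≤ m, v j ≤ v' j) (i : ℕ) : zv m w v i ≤ zv m w' v' i := by
  unfold zv
  have hj := mod_le m i
  exact mul_le_mul (pow_le_pow_left₀ hw hww _) (hvv _ hj) (hv _ hj) (pow_nonneg (hw.trans hww) _)

lemma zv_mono' {m : ℕ} {w : ℝ} {v v' : ℕ → ℝ} (hw : 0 ≤ w) (hvv : ∀ j ≤ m, v j ≤ v' j) (i : ℕ) :
    zv m w v i ≤ zv m w v' i := by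
  unfold zv
  exact mul_le_mul_of_nonneg_left (hvv _ (mod_le m i)) (pow_nonneg hw _)

lemma lnA_sum {m : ℕ} (w : ℝ) {ι : Type*} (s : Finset ι) (κ : ι → ℝ) (v : ι → ℕ → ℝ) :
    ∀ (t : List ℕ) (i : ℕ), lnA (zv m w fun j => ∑ k ∈ s, κ k * v k j) i t =
      ∑ k ∈ s, κ k * lnA (zv m w (v k)) i t
  | [], i => by simp [lnA]
  | c :: cs, i => by
    rw [lnA, lnA_sum w s κ v cs (i + 1)]
    simp only [lnA]
    have e : zv m w (fun j => ∑ k ∈ s, κ k * v k j) i = ∑ k ∈ s, κ k * zv m w (v k) i := by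
      unfold zv
      rw [mul_sum]
      exact sum_congr rfl fun k _ => by ring
    rw [e, mul_sum, ← sum_add_distrib]
    exact sum_congr rfl fun k _ => by ring

lemma lnA_addl {m : ℕ} {w : ℝ} (v v' : ℕ → ℝ) (c : ℝ) :
    ∀ (t : List ℕ) (i : ℕ), lnA (zv m w fun j => c * v j) i t = c * lnA (zv m w v) i t
  | [], i => by simp [lnA]
  | a :: cs, i => by
    rw [lnA, lnA_addl v v' c cs (i + 1), lnA]
    unfold zv
    ring

variable {m : ℕ} {y : ℕ → ℝ → ℝ}

/-- the derivatives of a functional as functions -/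
def fi (m : ℕ) (y : ℕ → ℝ → ℝ) (F : List (ℕ × ℕ)) (i : ℕ) (t : ℝ) : ℝ :=
  evA (zz m y t) 0 (derI (m + 1) i F) / 2 ^ i

lemma hasDerivAt_fi (hy : SolU m y) (F : List (ℕ × ℕ)) (i : ℕ) (t : ℝ) :
    HasDerivAt (fi m y F i) (fi m y F (i + 1) t) t := by
  unfold fi
  have := (hasDerivAt_ev hy (derI (m + 1) i F) t).div_const (2 ^ i)
  refine this.congr_deriv ?_
  rw [derI, pow_succ, div_div, mul_comm (2 : ℝ) (2 ^ i)]

/-- Taylor bounds -/
lemma taylor_ge (hy : SolU m y) (F : List (ℕ × ℕ)) (q : ℕ) (x : ℝ) {h C : ℝ} (hh : 0 ≤ h)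
    (hC : ∀ s, 0 ≤ s → s ≤ h → -C ≤ fi m y F q (x + s)) :
    ∀ s, 0 ≤ s → s ≤ h →
    ∑ l ∈ range q, fi m y F l x * (s ^ l / (l.factorial : ℝ)) - C * (s ^ q / (q.factorial : ℝ)) ≤ fi m y F 0 (x + s) := by
  intro s hs0 hs1
  have key := chain_ge (M := 1) x h q (fi m y F) (fun l => if l < q then fi m y F l x else -C)
    (fun i _ t => hasDerivAt_fi hy F i t) (fun l hl => by simp [hl])
    (fun s h0 h1 => by
      simp only [tp, range_one, sum_singleton, pow_zero, Nat.factorial_zero, Nat.cast_one, div_one, mul_one,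
        add_zero, lt_irrefl, if_false]
      exact hC s h0 h1) s hs0 hs1
  unfold tp at key
  rw [sum_range_succ] at key
  beta_reduce at key
  rw [if_neg (lt_irrefl q)] at key
  have e : ∑ l ∈ range q, (if l < q then fi m y F l x else -C) * (s ^ l / (l.factorial : ℝ)) =
      ∑ l ∈ range q, fi m y F l x * (s ^ l / (l.factorial : ℝ)) :=
    sum_congr rfl fun l hl => by rw [if_pos (mem_range.1 hl)]
  rw [e] at key
  linarith

lemma taylor_le (hy : SolU m y) (F : List (ℕ × ℕ)) (q : ℕ) (x : ℝ) {h C : ℝ} (hh : 0 ≤ h)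
    (hC : ∀ s, 0 ≤ s → s ≤ h → fi m y F q (x + s) ≤ C) :
    ∀ s, 0 ≤ s → s ≤ h →
    fi m y F 0 (x + s) ≤ ∑ l ∈ range q, fi m y F l x * (s ^ l / (l.factorial : ℝ)) + C * (s ^ q / (q.factorial : ℝ)) := by
  intro s hs0 hs1
  have key := chain_le (M := 1) x h q (fi m y F) (fun l => if l < q then fi m y F l x else C)
    (fun i _ t => hasDerivAt_fi hy F i t) (fun l hl => by simp [hl])
    (fun s h0 h1 => by
      simp only [tp, range_one, sum_singleton, pow_zero, Nat.factorial_zero, Nat.cast_one, div_one, mul_one,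
        add_zero, lt_irrefl, if_false]
      exact hC s h0 h1) s hs0 hs1
  unfold tp at key
  rw [sum_range_succ] at key
  beta_reduce at key
  rw [if_neg (lt_irrefl q)] at key
  have e : ∑ l ∈ range q, (if l < q then fi m y F l x else C) * (s ^ l / (l.factorial : ℝ)) =
      ∑ l ∈ range q, fi m y F l x * (s ^ l / (l.factorial : ℝ)) :=
    sum_congr rfl fun l hl => by rw [if_pos (mem_range.1 hl)]
  rw [e] at key
  linarith

lemma dnm_eq (H : ℕ) : ∀ q, (dnm H q : ℝ) = (q.factorial : ℝ) * (2 * H) ^ q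
  | 0 => by simp [dnm]
  | q + 1 => by
    rw [dnm, Nat.factorial_succ]
    push_cast
    rw [dnm_eq H q]; ring

lemma dnm_pos {H : ℕ} (hH : 0 < H) (q : ℕ) : (0 : ℝ) < dnm H q := by
  rw [dnm_eq]
  have : (0 : ℝ) < H := by exact_mod_cast hH
  have : (0 : ℝ) < (q.factorial : ℝ) := by exact_mod_cast q.factorial_pos
  positivity

lemma ev_tay {H : ℕ} (hH : 0 < H) (F : List (ℕ × ℕ)) (x : ℝ) : ∀ q, evA (zz m y x) 0 (tay (m + 1) H q F) =
    dnm H q * ∑ l ∈ range q, fi m y F l x * ((1 / (H : ℝ)) ^ l / (l.factorial : ℝ))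
  | 0 => by simp [tay, evA]
  | q + 1 => by
    have hH' : (0 : ℝ) < H := by exact_mod_cast hH
    rw [tay, evA_scl, evA_addL, ev_tay hH F x q, dnm, sum_range_succ]
    have e : (dnm H q : ℝ) * (fi m y F q x * ((1 / (H : ℝ)) ^ q / (q.factorial : ℝ))) =
        evA (zz m y x) 0 (derI (m + 1) q F) := by
      rw [dnm_eq]
      unfold fi
      have : (q.factorial : ℝ) ≠ 0 := by exact_mod_cast q.factorial_ne_zero
      rw [one_div, inv_pow, mul_pow]
      field_simp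
    push_cast
    rw [← e]
    ring

/-- one step for a functional, both sides -/
lemma tay_step (hy : SolU m y) {H : ℕ} (hH : 0 < H) (F : List (ℕ × ℕ)) (q : ℕ) (x : ℝ) {C : ℝ}
    (hC : ∀ s, 0 ≤ s → s ≤ 1 / (H : ℝ) → |evA (zz m y (x + s)) 0 (derI (m + 1) q F)| ≤ C) :
    evA (zz m y x) 0 (tay (m + 1) H q F) - C ≤ dnm H q * evA (zz m y (x + 1 / (H : ℝ))) 0 F ∧
    dnm H q * evA (zz m y (x + 1 / (H : ℝ))) 0 F ≤ evA (zz m y x) 0 (tay (m + 1) H q F) + C := by
  have hH' : (0 : ℝ) < H := by exact_mod_cast hH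
  have hh : (0 : ℝ) ≤ 1 / (H : ℝ) := by positivity
  have hq : (q.factorial : ℝ) ≠ 0 := by exact_mod_cast q.factorial_ne_zero
  have e0 : fi m y F 0 (x + 1 / (H : ℝ)) = evA (zz m y (x + 1 / (H : ℝ))) 0 F := by simp [fi, derI]
  have hC' : ∀ s, 0 ≤ s → s ≤ 1 / (H : ℝ) → |fi m y F q (x + s)| ≤ C / 2 ^ q := by
    intro s h0 h1
    unfold fi
    rw [abs_div, abs_of_pos (show (0 : ℝ) < 2 ^ q by positivity)]
    exact div_le_div_of_nonneg_right (hC s h0 h1) (by positivity)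
  have h1 := taylor_ge hy F q x hh (C := C / 2 ^ q) (fun s a b => (abs_le.1 (hC' s a b)).1) _ hh le_rfl
  have h2 := taylor_le hy F q x hh (C := C / 2 ^ q) (fun s a b => (abs_le.1 (hC' s a b)).2) _ hh le_rfl
  rw [e0] at h1 h2
  have hd := dnm_pos hH q
  have e1 : dnm H q * (C / 2 ^ q * ((1 / (H : ℝ)) ^ q / (q.factorial : ℝ))) = C := by
    rw [dnm_eq, one_div, inv_pow, mul_pow]
    field_simp
  have g1 := mul_le_mul_of_nonneg_left h1 hd.le
  have g2 := mul_le_mul_of_nonneg_left h2 hd.le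
  rw [mul_sub, ← ev_tay hH F x q, e1] at g1
  rw [mul_add, ← ev_tay hH F x q, e1] at g2
  exact ⟨g1, g2⟩

/-- a functional is nonnegative on a cell -/
lemma bern4 (hy : SolU m y) {H : ℕ} (hH : 0 < H) (F : List (ℕ × ℕ)) (x : ℝ) {C : ℝ}
    (hC : ∀ s, 0 ≤ s → s ≤ 1 / (H : ℝ) → |evA (zz m y (x + s)) 0 (derI (m + 1) 4 F)| ≤ C)
    (h0 : C ≤ 24 * (2 * H) ^ 4 * evA (zz m y x) 0 F)
    (h1 : C ≤ 24 * (2 * H) ^ 4 * evA (zz m y x) 0 F + 8 * (2 * H) ^ 3 * evA (zz m y x) 0 (derI (m + 1) 1 F))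
    (h2 : C ≤ 24 * (2 * H) ^ 4 * evA (zz m y x) 0 F + 16 * (2 * H) ^ 3 * evA (zz m y x) 0 (derI (m + 1) 1 F) +
      4 * (2 * H) ^ 2 * evA (zz m y x) 0 (derI (m + 1) 2 F))
    (h3 : C ≤ 24 * (2 * H) ^ 4 * evA (zz m y x) 0 F + 24 * (2 * H) ^ 3 * evA (zz m y x) 0 (derI (m + 1) 1 F) +
      12 * (2 * H) ^ 2 * evA (zz m y x) 0 (derI (m + 1) 2 F) + 4 * (2 * H) * evA (zz m y x) 0 (derI (m + 1) 3 F))
    {s : ℝ} (hs0 : 0 ≤ s) (hs1 : s ≤ 1 / (H : ℝ)) : 0 ≤ evA (zz m y (x + s)) 0 F := by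
  have hH' : (0 : ℝ) < H := by exact_mod_cast hH
  have hh : (0 : ℝ) ≤ 1 / (H : ℝ) := by positivity
  have hC0 : 0 ≤ C := (abs_nonneg _).trans (hC 0 le_rfl hh)
  have key := taylor_ge hy F 4 x hh (C := C / 16) (fun s a b => by
    have h := (abs_le.1 (hC s a b)).1
    unfold fi
    norm_num
    linarith) s hs0 hs1
  have e0 : fi m y F 0 (x + s) = evA (zz m y (x + s)) 0 F := by simp [fi, derI]
  rw [e0] at key
  simp only [sum_range_succ, range_zero, sum_empty, Nat.factorial] at key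
  unfold fi at key
  have ed : derI (m + 1) 0 F = F := rfl
  rw [ed] at key
  set A0 := evA (zz m y x) 0 F
  set A1 := evA (zz m y x) 0 (derI (m + 1) 1 F)
  set A2 := evA (zz m y x) 0 (derI (m + 1) 2 F)
  set A3 := evA (zz m y x) 0 (derI (m + 1) 3 F)
  push_cast at key
  norm_num at key
  have key' : A0 + A1 / 2 * s + A2 / 4 * (s ^ 2 / 2) + A3 / 8 * (s ^ 3 / 6) - C / 16 * (s ^ 4 / 24) ≤
    evA (zz m y (x + s)) 0 F := by linarith
  refine le_trans ?_ key'
  -- Bernstein form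
  set t : ℝ := s * H with ht
  have ht0 : 0 ≤ t := by positivity
  have ht1 : t ≤ 1 := by
    rw [ht]
    calc s * H ≤ 1 / (H : ℝ) * H := mul_le_mul_of_nonneg_right hs1 hH'.le
      _ = 1 := by field_simp
  have hst : s = t / H := by rw [ht]; field_simp
  have hu : 0 ≤ 1 - t := by linarith
  have hpos : (0 : ℝ) < 24 * (2 * H) ^ 4 := by positivity
  have g0 : 0 ≤ (1 - t) ^ 3 * (24 * (2 * H) ^ 4 * A0 - C) := mul_nonneg (by positivity) (by linarith)
  have g1 : 0 ≤ 3 * t * (1 - t) ^ 2 * (24 * (2 * H) ^ 4 * A0 + 8 * (2 * H) ^ 3 * A1 - C) :=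
    mul_nonneg (by positivity) (by linarith)
  have g2 : 0 ≤ 3 * t ^ 2 * (1 - t) * (24 * (2 * H) ^ 4 * A0 + 16 * (2 * H) ^ 3 * A1 + 4 * (2 * H) ^ 2 * A2 - C) :=
    mul_nonneg (by positivity) (by linarith)
  have g3 : 0 ≤ t ^ 3 * (24 * (2 * H) ^ 4 * A0 + 24 * (2 * H) ^ 3 * A1 + 12 * (2 * H) ^ 2 * A2 + 4 * (2 * H) * A3 - C) :=
    mul_nonneg (by positivity) (by linarith)
  have g4 : 0 ≤ C * (1 - t ^ 4) := mul_nonneg hC0 (by
    have : t ^ 4 ≤ 1 := pow_le_one₀ ht0 ht1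
    linarith)
  refine le_of_mul_le_mul_left ?_ hpos
  rw [mul_zero]
  have e : 24 * (2 * (H : ℝ)) ^ 4 * (A0 + A1 / 2 * s + A2 / 4 * (s ^ 2 / 2) + A3 / 8 * (s ^ 3 / 6) - C / 16 * (s ^ 4 / 24)) =
      (1 - t) ^ 3 * (24 * (2 * H) ^ 4 * A0 - C) +
      3 * t * (1 - t) ^ 2 * (24 * (2 * H) ^ 4 * A0 + 8 * (2 * H) ^ 3 * A1 - C) +
      3 * t ^ 2 * (1 - t) * (24 * (2 * H) ^ 4 * A0 + 16 * (2 * H) ^ 3 * A1 + 4 * (2 * H) ^ 2 * A2 - C) +
      t ^ 3 * (24 * (2 * H) ^ 4 * A0 + 24 * (2 * H) ^ 3 * A1 + 12 * (2 * H) ^ 2 * A2 + 4 * (2 * H) * A3 - C) +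
      C * (1 - t ^ 4) := by
    rw [hst]
    field_simp
    ring
  linarith

/-! ### crude bounds on a cell -/

/-- crude bound -/
def cr (m : ℕ) (R : ℝ) (v : ℕ → ℝ) (j : ℕ) : ℝ := 2 * ((∑ i ∈ range (m + 1), R ^ (m - i) * v i) / R ^ (m - j))

lemma exp_half_le : Real.exp (1 / 2) ≤ 2 := by
  have h := Real.exp_one_lt_d9
  have h2 : Real.exp (1 / 2) ^ 2 = Real.exp 1 := by
    rw [← Real.exp_nat_mul]; norm_num
  nlinarith [Real.exp_pos (1 / 2 : ℝ)]

lemma crude (hy : SolU m y) {R x h : ℝ} (hR : 0 < R) (hE : E x ≤ R ^ (m + 1)) (hRh : R * h ≤ 1 / 2)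
    {s : ℝ} (hs0 : 0 ≤ s) (hs1 : s ≤ h) {j : ℕ} (hj : j ≤ m) :
    y j (x + s) ≤ cr m R (fun i => y i x) j := by
  set Φ : ℝ → ℝ := fun t => ∑ i ∈ range (m + 1), R ^ (m - i) * y i (x + t) with hΦ
  set Φ' : ℝ → ℝ := fun t => ∑ i ∈ range m, R ^ (m - i) * y (i + 1) (x + t) +
    (E (x + t) * y 0 (x + t) - y m (x + t) / 2) with hΦ'
  have hd : ∀ t, HasDerivAt Φ (Φ' t) t := by
    intro t
    have e : Φ = fun t => ∑ i ∈ range m, R ^ (m - i) * y i (x + t) + y m (x + t) := by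
      funext t
      simp only [hΦ]
      rw [sum_range_succ, Nat.sub_self, pow_zero, one_mul]
    rw [e]
    refine HasDerivAt.add (HasDerivAt.fun_sum fun i hi => ?_) ?_
    · rw [mem_range] at hi
      have h1 := (hy.d i hi (x + t)).comp_const_add x t
      exact h1.const_mul _
    · exact (hy.dm (x + t)).comp_const_add x t
  have hle : ∀ t, 0 ≤ t → Φ' t ≤ R * Φ t := by
    intro t ht
    have e1 : R * Φ t = ∑ i ∈ range m, R ^ (m - i) * y (i + 1) (x + t) + R ^ (m + 1) * y 0 (x + t) := by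
      simp only [hΦ]
      rw [sum_range_succ', mul_add, mul_sum, Nat.sub_zero]
      congr 1
      · refine sum_congr rfl fun i hi => ?_
        rw [mem_range] at hi
        rw [← mul_assoc, ← pow_succ']
        congr 2
        omega
      · rw [pow_succ]; ring
    rw [e1]
    simp only [hΦ']
    have h1 : E (x + t) ≤ R ^ (m + 1) := (E_anti (by linarith)).trans hE
    have h2 : 0 < y 0 (x + t) := hy.pos _ (Nat.zero_le _) _
    have h3 : 0 < y m (x + t) := hy.pos _ le_rfl _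
    have h4 := mul_le_mul_of_nonneg_right h1 h2.le
    linarith
  have hanti : AntitoneOn (fun t => Real.exp (-(R * t)) * Φ t) (Set.Icc 0 h) := by
    have hd2 : ∀ t, HasDerivAt (fun t => Real.exp (-(R * t)) * Φ t)
        (Real.exp (-(R * t)) * (-R) * Φ t + Real.exp (-(R * t)) * Φ' t) t := by
      intro t
      have h1 : HasDerivAt (fun t : ℝ => Real.exp (-(R * t))) (Real.exp (-(R * t)) * (-R)) t := by
        have := ((hasDerivAt_id t).const_mul R).fun_neg.exp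
        simpa using this
      exact h1.mul (hd t)
    refine antitoneOn_of_deriv_nonpos (convex_Icc _ _) (fun z _ => (hd2 z).continuousAt.continuousWithinAt)
      (fun z _ => (hd2 z).differentiableAt.differentiableWithinAt) ?_
    intro z hz
    rw [interior_Icc] at hz
    rw [(hd2 z).deriv]
    have h1 := hle z hz.1.le
    have h2 := Real.exp_pos (-(R * z))
    have h3 := mul_le_mul_of_nonneg_left h1 h2.le
    nlinarith
  have h1 := hanti ⟨le_rfl, hs0.trans hs1⟩ ⟨hs0, hs1⟩ hs0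
  simp only [mul_zero, neg_zero, Real.exp_zero, one_mul] at h1
  have hΦ0 : 0 ≤ Φ 0 := by
    simp only [hΦ, add_zero]
    exact sum_nonneg fun i hi => mul_nonneg (pow_nonneg hR.le _)
      (hy.pos _ (by rw [mem_range] at hi; omega) _).le
  have h2 : Φ s ≤ 2 * Φ 0 := by
    have h3 : Real.exp (R * s) * (Real.exp (-(R * s)) * Φ s) = Φ s := by
      rw [← mul_assoc, ← Real.exp_add]; simp
    have h4 : Real.exp (R * s) ≤ 2 := by
      refine le_trans (Real.exp_le_exp.2 ?_) exp_half_le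
      calc R * s ≤ R * h := mul_le_mul_of_nonneg_left hs1 hR.le
        _ ≤ 1 / 2 := hRh
    rw [← h3]
    calc Real.exp (R * s) * (Real.exp (-(R * s)) * Φ s) ≤ Real.exp (R * s) * Φ 0 :=
          mul_le_mul_of_nonneg_left h1 (Real.exp_pos _).le
      _ ≤ 2 * Φ 0 := mul_le_mul_of_nonneg_right h4 hΦ0
  have h5 : R ^ (m - j) * y j (x + s) ≤ Φ s := by
    simp only [hΦ]
    exact single_le_sum (f := fun i => R ^ (m - i) * y i (x + s)) (fun i hi => mul_nonneg (pow_nonneg hR.le _)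
      (hy.pos _ (by rw [mem_range] at hi; omega) _).le) (mem_range.2 (by omega))
  unfold cr
  have hRp : 0 < R ^ (m - j) := pow_pos hR _
  have h6 : Φ 0 = ∑ i ∈ range (m + 1), R ^ (m - i) * y i x := by simp [hΦ]
  rw [← h6, ← mul_div_assoc, le_div_iff₀ hRp]
  linarith

/-- bounds at the end of a cell -/
lemma end_bound (hy : SolU m y) {x h : ℝ} (hh : h ≤ 1) {s : ℝ} (hs0 : 0 ≤ s) (hs1 : s ≤ h) {j : ℕ} (hj : j ≤ m) :
    y j (x + s) ≤ (1 + h) * y j (x + h) := by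
  have hpos : 0 < y j (x + h) := hy.pos _ hj _
  have h0 : 0 ≤ h := hs0.trans hs1
  rcases Nat.lt_or_ge j m with hlt | hge
  · have hm : Monotone (y j) := by
      refine monotone_of_deriv_nonneg (fun x => (hy.d j hlt x).differentiableAt) fun x => ?_
      rw [(hy.d j hlt x).deriv]
      exact (hy.pos _ (by omega) _).le
    have h1 : y j (x + s) ≤ y j (x + h) := hm (by linarith)
    nlinarith
  · have hjm : j = m := le_antisymm hj hge
    subst hjm
    have hg : Monotone (fun t => Real.exp (t / 2) * y j t) := by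
      have hd : ∀ t, HasDerivAt (fun t => Real.exp (t / 2) * y j t)
          (Real.exp (t / 2) * (1 / 2) * y j t + Real.exp (t / 2) * (E t * y 0 t - y j t / 2)) t := by
        intro t
        have h3 : HasDerivAt (fun x : ℝ => Real.exp (x / 2)) (Real.exp (t / 2) * (1 / 2)) t := by
          have := ((hasDerivAt_id t).div_const 2).exp
          simpa using this
        exact h3.mul (hy.dm t)
      refine monotone_of_deriv_nonneg (fun x => (hd x).differentiableAt) fun x => ?_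
      rw [(hd x).deriv]
      have h4 : 0 ≤ Real.exp (x / 2) * (E x * y 0 x) :=
        mul_nonneg (Real.exp_pos _).le (mul_nonneg (E_pos _).le (hy.pos _ (Nat.zero_le _) _).le)
      calc 0 ≤ Real.exp (x / 2) * (E x * y 0 x) := h4
        _ = _ := by ring
    have h1 := hg (show x + s ≤ x + h by linarith)
    simp only at h1
    have h2 : Real.exp ((x + h) / 2) = Real.exp ((x + s) / 2) * Real.exp ((h - s) / 2) := by
      rw [← Real.exp_add]; congr 1; ring
    rw [h2, mul_assoc] at h1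
    have h3 := le_of_mul_le_mul_left h1 (Real.exp_pos _)
    have h4 : Real.exp ((h - s) / 2) ≤ 1 + h := by
      have hb : (h - s) / 2 ≤ h / 2 := by linarith
      refine (Real.exp_le_exp.2 hb).trans ?_
      have hab : |h / 2| ≤ 1 := by rw [abs_of_nonneg (by linarith)]; linarith
      have := Real.abs_exp_sub_one_sub_id_le hab
      have h5 := (abs_le.1 this).2
      nlinarith
    exact h3.trans (mul_le_mul_of_nonneg_right h4 hpos.le)

end

end Pool.Agent.Helper22.Opu
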