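import Pool.Agent.Helper22.Opu.Pair
import Pool.Graph.R_pool_sql_team_seeded_2aa45f1a.Results.MP_77d073_nt.MarkovThreshold

/-!
# From pairs to Oppenheim's conclusion
-/

set_option autoImplicit false

open Finset

namespace Pool.Agent.Helper22.Opu

open Pool.Agent.Helper22.Opp

open Pool.Agent.Results.MP_77d073_nt.MarkovThreshold (F HasMatrix Above addForm)

/-- the bound for pairs of normalised systems -/
def PairBound (k : ℕ) (B : ℝ) : Prop :=
  ∀ (L : Matrix (Fin (k + 2)) (Fin (k + 2)) ℝ), |L.det| = 1 → ∀ ν : ℝ, 0 < ν →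
    (∀ p : Fin (k + 2) → ℤ, p ≠ 0 → ν ≤ |∏ i, L.mulVec (zr p) i|) →
    (∀ p : Fin (k + 2) → ℤ, p ≠ 0 →
      ν ≤ |(L.mulVec (zr p) 0 + L.mulVec (zr p) (Fin.succ 0)) * ∏ i : Fin (k + 1), L.mulVec (zr p) i.succ|) →
    B * ν < 1

lemma F_addForm {k : ℕ} (L : Fin (k + 2) → Fin (k + 2) → ℝ) (p : Fin (k + 2) → ℤ) :
    F (addForm L 0 (Fin.succ 0) 1) p =
      ((Matrix.of L).mulVec (zr p) 0 + (Matrix.of L).mulVec (zr p) (Fin.succ 0)) *
        ∏ i : Fin (k + 1), (Matrix.of L).mulVec (zr p) i.succ := by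
  unfold F addForm
  rw [Fin.prod_univ_succ]
  congr 1
  simp only [Function.update_self, Matrix.mulVec, dotProduct, Matrix.of_apply, zr, Pi.add_apply, Pi.smul_apply,
      smul_eq_mul, one_mul]
  rw [← sum_add_distrib]
  exact sum_congr rfl fun j _ => by ring

/-- the systems above the level `1 / B` -/
theorem above_level {k : ℕ} (hk : 1 ≤ k) {B : ℝ} (hB : 0 < B) (hp : PairBound k B) :
    ∃ S : Finset (Fin (k + 2) → Fin (k + 2) → ℝ), ∀ L ∈ Above (k + 2) (1 / B), HasMatrix L ∧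
      ∃ L₀ ∈ S, ∃ γ : Matrix (Fin (k + 2)) (Fin (k + 2)) ℤ, |γ.det| = 1 ∧
        ∀ p : Fin (k + 2) → ℤ, F L p = F L₀ (γ.mulVec p) := by
  obtain ⟨m, hm0, -, -, h2, -, -, h5⟩ :=
    Pool.Agent.Results.MP_77d073_nt.MarkovThreshold.result (k + 2) (by omega)
  refine h2 (1 / B) ?_
  rcases hm0.lt_or_eq with hm | hm
  · obtain ⟨L, hL, hL', -⟩ := h5 hm 0 (Fin.succ 0) (Fin.succ_ne_zero 0).symm 1
    have h := hp (Matrix.of L) hL.1 m hm (fun p hp => hL.2 p hp) (fun p hp => by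
      rw [← F_addForm]; exact hL'.2 p hp)
    rw [lt_div_iff₀ hB, mul_comm]
    exact h
  · rw [← hm]; positivity

lemma F_smul {n : ℕ} (a : ℝ) (L : Fin n → Fin n → ℝ) (p : Fin n → ℤ) : F (a • L) p = a ^ n * F L p := by
  unfold F
  have : ∀ i, ∑ j, (a • L) i j * (p j : ℝ) = a * ∑ j, L i j * (p j : ℝ) := by
    intro i
    rw [mul_sum]
    exact sum_congr rfl fun j _ => by simp only [Pi.smul_apply, smul_eq_mul]; ring
  simp only [this]
  rw [prod_mul_distrib]; simp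

lemma hasMatrix_smul {n : ℕ} {a : ℝ} (ha : a ≠ 0) {L : Fin n → Fin n → ℝ} (h : HasMatrix (a • L)) : HasMatrix L := by
  obtain ⟨A, h1, h2, h3, h4⟩ := h
  refine ⟨A, h1, h2, h3, fun i x hx => ?_⟩
  have e : ∀ y : Fin n → ℝ, ∑ j, (a • L) i j * y j = a * ∑ j, L i j * y j := by
    intro y
    rw [mul_sum]
    exact sum_congr rfl fun j _ => by simp only [Pi.smul_apply, smul_eq_mul]; ring
  have := h4 i x (by rw [e, hx, mul_zero])
  rw [e] at this
  exact (mul_eq_zero.1 this).resolve_left ha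

/-- all systems above the level -/
theorem main {k : ℕ} (hk : 1 ≤ k) {B : ℝ} (hB : 0 < B) (hp : PairBound k B) :
    ∃ S : Finset (Fin (k + 2) → Fin (k + 2) → ℝ), ∀ L : Fin (k + 2) → Fin (k + 2) → ℝ,
      (Matrix.of L).det ≠ 0 → ∀ ν : ℝ, |(Matrix.of L).det| ≤ B * ν →
      (∀ p : Fin (k + 2) → ℤ, p ≠ 0 → ν ≤ |F L p|) → HasMatrix L ∧
      ∃ L₀ ∈ S, ∃ γ : Matrix (Fin (k + 2)) (Fin (k + 2)) ℤ, |γ.det| = 1 ∧
        ∀ p : Fin (k + 2) → ℤ, F L p = |(Matrix.of L).det| * F L₀ (γ.mulVec p) := by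
  obtain ⟨S, hS⟩ := above_level hk hB hp
  refine ⟨S, fun L hL ν hν hF => ?_⟩
  have hd : 0 < |(Matrix.of L).det| := abs_pos.2 hL
  set a : ℝ := (|(Matrix.of L).det|⁻¹) ^ (((k + 2 : ℕ) : ℝ)⁻¹) with ha
  have ha0 : 0 < a := Real.rpow_pos_of_pos (by positivity) _
  have han : a ^ (k + 2) = |(Matrix.of L).det|⁻¹ := by
    rw [ha, Real.rpow_inv_natCast_pow (by positivity) (by omega)]
  have hab : a • L ∈ Above (k + 2) (1 / B) := by
    constructor
    · have : Matrix.of (a • L) = a • Matrix.of L := rfl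
      rw [this, Matrix.det_smul, Fintype.card_fin, han, abs_mul, abs_of_pos (inv_pos.2 hd)]
      exact inv_mul_cancel₀ hd.ne'
    · intro p hp
      rw [F_smul, han, abs_mul, abs_of_pos (inv_pos.2 hd), div_le_iff₀ hB, ← div_eq_inv_mul,
        div_mul_eq_mul_div, le_div_iff₀ hd, one_mul, mul_comm]
      exact hν.trans (mul_le_mul_of_nonneg_left (hF p hp) hB.le)
  obtain ⟨h1, L₀, hL₀, γ, hγ, h2⟩ := hS _ hab
  refine ⟨hasMatrix_smul ha0.ne' h1, L₀, hL₀, γ, hγ, fun p => ?_⟩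
  rw [← h2 p, F_smul, han, ← mul_assoc, mul_inv_cancel₀ hd.ne', one_mul]

end Pool.Agent.Helper22.Opu
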